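import Pool.Agent.Lib.MP_6bd702_sv.Strip

/-!
# The bounds `‖t(w)‖ ≤ 2` on the strip and `‖Y(w)‖ ≤ 3 |tan (3w/2)| ^ N`
-/

set_option autoImplicit false

namespace Pool.Agent.SixV

open Matrix Finset
open scoped Real ComplexConjugate Matrix.Norms.L2Operator

/-! ### Values on the boundary lines -/

lemma sin_mul' (w : ℂ) : Complex.sin (π / 3 + w) * Complex.sin (π / 3 - w) =
    3 / 4 - Complex.sin w ^ 2 := by
  rw [sin_add', sin_sub']
  linear_combination Complex.cos w ^ 2 * kap_sq + 3 / 4 * Complex.sin_sq_add_cos_sq w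

theorem norm_T_le_two_left (N : ℕ) {w : ℂ} (hw : w.re = 0) : ‖T N w‖ ≤ 2 := by
  have hc : conj w = -w := by
    apply Complex.ext
    · rw [Complex.conj_re, Complex.neg_re, hw, neg_zero]
    · rw [Complex.conj_im, Complex.neg_im]
  have hp := Real.pi_pos
  have h1 : Complex.sin (π / 3 + w) ≠ 0 :=
    sin_ne_zero_of_re (by rw [re_pi_add, hw]; linarith) (by rw [re_pi_add, hw]; linarith)
  have h2 : Complex.sin (π / 3 - w) ≠ 0 :=
    sin_ne_zero_of_re (by rw [re_pi_sub, hw]; linarith) (by rw [re_pi_sub, hw]; linarith)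
  have hsa : star (wa w) = wa (-w) := by rw [← hc, ← conj_wa]; rfl
  have hsb : star (wb w) = wb (-w) := by rw [← hc, ← conj_wb]; rfl
  have hsc : star (wc w) = wc (-w) := by rw [← hc, ← conj_wc]; rfl
  have h3 := sin_mul' w
  have e1 : (π / 3 + -w : ℂ) = π / 3 - w := by ring
  have e2 : (π / 3 - -w : ℂ) = π / 3 + w := by ring
  have h := norm_tm_le (L := R (wa w) (wb w) (wc w)) (R_iso ?_ ?_ ?_) N
  · unfold T
    simpa using h
  · rw [hsa]
    unfold wa
    rw [e1, e2]
    generalize Complex.sin (π / 3 + w) = p at *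
    generalize Complex.sin (π / 3 - w) = q at *
    field_simp
  · rw [hsb, hsc]
    unfold wb wc
    rw [e1, Complex.sin_neg, div_mul_div_comm, div_mul_div_comm, ← add_div,
      div_eq_one_iff_eq (mul_ne_zero h2 h1)]
    linear_combination kap_sq - h3
  · rw [hsb, hsc]
    unfold wb wc
    rw [e1, Complex.sin_neg]
    ring

theorem norm_T_symm (N : ℕ) (w : ℂ) : ‖T N (π / 3 - conj w)‖ = ‖T N w‖ := by
  rw [← T_conjTranspose]
  exact l2_opNorm_conjTranspose _

theorem norm_T_le_two_right (N : ℕ) {w : ℂ} (hw : w.re = π / 3) : ‖T N w‖ ≤ 2 := by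
  have h : w = π / 3 - conj (π / 3 - conj w) := by
    rw [map_sub, conj_pi, Complex.conj_conj]
    ring
  rw [h, norm_T_symm]
  refine norm_T_le_two_left N ?_
  rw [re_pi_sub, Complex.conj_re, hw, sub_self]

lemma norm_div_le_two_exp {x y : ℂ} {t : ℝ} (hx : ‖x‖ ≤ Real.exp t) (hy : 1 / 2 ≤ ‖y‖) :
    ‖x / y‖ ≤ 2 * Real.exp t := by
  rw [norm_div, div_le_iff₀ (by linarith)]
  have := Real.exp_pos t
  nlinarith

lemma norm_kap_le : ‖kap‖ ≤ 1 := by
  have h : ‖kap‖ ^ 2 = 3 / 4 := by
    rw [← norm_pow, kap_sq]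
    norm_num
  nlinarith [norm_nonneg kap]

/-- `‖t(w)‖ ≤ 2` on the strip. -/
theorem norm_T_le_two (N : ℕ) {w : ℂ} (h0 : 0 ≤ w.re) (h1 : w.re ≤ π / 3) : ‖T N w‖ ≤ 2 := by
  have hp := Real.pi_pos
  have hs : ∀ w : ℂ, 0 ≤ w.re → w.re ≤ π / 3 → 1 / 2 ≤ ‖Complex.sin (π / 3 + w)‖ := by
    intro w h0 h1
    exact half_le_norm_sin (by rw [re_pi_add]; linarith) (by rw [re_pi_add]; linarith)
  have hs' : ∀ w : ℂ, 0 ≤ w.re → w.re ≤ π / 3 → Complex.sin (π / 3 + w) ≠ 0 := by
    intro w h0 h1
    exact sin_ne_zero_of_re (by rw [re_pi_add]; linarith) (by rw [re_pi_add]; linarith)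
  refine strip_bound (L := fun w => R (wa w) (wb w) (wc w)) (a := 0) (b := π / 3) (m := 1)
    (M := 2) (by positivity) (by linarith) (by norm_num) ?_ ?_ N
    (fun w hw => norm_T_le_two_left N hw) (fun w hw => norm_T_le_two_right N hw) h0 h1
  · intro w h0 h1 s' s x' x
    have h2 := hs' w h0 h1
    have ha : DifferentiableAt ℂ wa w := by
      unfold wa
      fun_prop (disch := exact h2)
    have hb : DifferentiableAt ℂ wb w := by
      unfold wb
      fun_prop (disch := exact h2)
    have hc : DifferentiableAt ℂ wc w := by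
      unfold wc
      fun_prop (disch := exact h2)
    simp only [R, of_apply]
    split_ifs
    · exact ha
    · exact hb
    · exact hc
    · exact differentiableAt_const _
  · intro w h0 h1 s' s x' x
    have h2 := hs w h0 h1
    rw [Nat.cast_one, one_mul]
    simp only [R, of_apply]
    split_ifs
    · exact norm_div_le_two_exp ((norm_sin_le _).trans (by rw [im_pi_sub, abs_neg])) h2
    · exact norm_div_le_two_exp (norm_sin_le _) h2
    · exact norm_div_le_two_exp (norm_kap_le.trans (Real.one_le_exp (abs_nonneg _))) h2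
    · rw [norm_zero]
      positivity

/-! ### The fused transfer matrix -/

theorem norm_Y_le_left (N : ℕ) {w : ℂ} (hw : w.re = -(π / 6)) : ‖Y N w‖ ≤ 3 := by
  have hp := Real.pi_pos
  have hc : conj w = -(π / 3 + w) := by
    apply Complex.ext
    · rw [Complex.conj_re, Complex.neg_re, re_pi_add, hw]
      ring
    · rw [Complex.conj_im, Complex.neg_im, im_pi_add]
  have h1 : Complex.sin (π / 3 + w) ≠ 0 :=
    sin_ne_zero_of_re (by rw [re_pi_add, hw]; linarith) (by rw [re_pi_add, hw]; linarith)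
  have h2 : Complex.sin (π / 3 - w) ≠ 0 :=
    sin_ne_zero_of_re (by rw [re_pi_sub, hw]; linarith) (by rw [re_pi_sub, hw]; linarith)
  have h3 : Complex.sin w ≠ 0 := by
    have : Complex.sin (-w) ≠ 0 :=
      sin_ne_zero_of_re (by rw [Complex.neg_re, hw]; linarith) (by rw [Complex.neg_re, hw]; linarith)
    rw [Complex.sin_neg] at this
    exact neg_ne_zero.1 this
  have e0 : Complex.sin (π / 3 + -(π / 3 + w)) = -Complex.sin w := by
    rw [← Complex.sin_neg]
    congr 1
    ring
  have e1 : Complex.sin (π / 3 - -(π / 3 + w)) = Complex.sin (π / 3 - w) := by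
    rw [← sin_shift]
    congr 1
    ring
  have hsa : star (wa w) = -wa w / wb w := by
    have : star (wa w) = wa (-(π / 3 + w)) := by rw [← hc, ← conj_wa]; rfl
    rw [this]
    unfold wa wb
    rw [e0, e1]
    generalize Complex.sin (π / 3 + w) = p at *
    generalize Complex.sin (π / 3 - w) = q at *
    field_simp
  have hsb : star (wb w) = 1 / wb w := by
    have : star (wb w) = wb (-(π / 3 + w)) := by rw [← hc, ← conj_wb]; rfl
    rw [this]
    unfold wb
    rw [e0, Complex.sin_neg, one_div_div, neg_div_neg_eq]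
  have hsc : star (wc w) = -wc w / wb w := by
    have : star (wc w) = wc (-(π / 3 + w)) := by rw [← hc, ← conj_wc]; rfl
    rw [this]
    unfold wc wb
    rw [e0]
    generalize Complex.sin (π / 3 + w) = p at *
    field_simp
  have ha : wa w ≠ 0 := div_ne_zero h2 h1
  have hb : wb w ≠ 0 := div_ne_zero h3 h1
  have hw := wt_w h1
  have h := norm_tm_le (L := Q (wa w) (wb w) (wc w)) (Q_iso ha ?_ ?_ ?_) N
  · unfold Q at h
    rw [tm_smul] at h
    unfold Y
    simpa using h
  · rw [hsb]
    field_simp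
  · rw [hsa, hsc]
    have h4 := hw.sq
    have h5 := hw.add
    field_simp
    linear_combination h4 - wa w * h5 - h5
  · rw [hsb, hsc]
    field_simp
    ring

theorem Y_conjTranspose (N : ℕ) {w : ℂ} (h1 : Complex.sin (π / 3 + w) ≠ 0)
    (h2 : Complex.sin (π / 3 - w) ≠ 0) : (Y N w)ᴴ = Y N (-conj w) := by
  have h3 : Complex.sin (π / 3 + -conj w) ≠ 0 := by
    intro h
    apply h2
    have := congrArg conj h
    rw [conj_sin, map_add, map_neg, Complex.conj_conj, conj_pi, map_zero] at this
    rw [← this]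
    congr 1
  have h4 : Complex.sin (π / 3 - -conj w) ≠ 0 := by
    intro h
    apply h1
    have := congrArg conj h
    rw [conj_sin, map_sub, map_neg, Complex.conj_conj, conj_pi, map_zero] at this
    rw [← this]
    congr 1
    ring
  have e1 := T_fusion N h1 h2
  have e2 := T_fusion N h3 h4
  have e3 := congrArg conjTranspose e1
  rw [conjTranspose_mul, T_conjTranspose, T_conjTranspose, conjTranspose_add,
    conjTranspose_one] at e3
  have e4 : (π / 3 - conj (w + π / 3) : ℂ) = -conj w := by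
    rw [map_add, conj_pi]
    ring
  have e5 : (π / 3 - conj w : ℂ) = -conj w + π / 3 := by ring
  rw [e4, e5, e2] at e3
  exact (add_left_cancel e3).symm

theorem norm_Y_le_right (N : ℕ) {w : ℂ} (hw : w.re = π / 6) : ‖Y N w‖ ≤ 3 := by
  have hp := Real.pi_pos
  have h1 : Complex.sin (π / 3 + w) ≠ 0 :=
    sin_ne_zero_of_re (by rw [re_pi_add, hw]; linarith) (by rw [re_pi_add, hw]; linarith)
  have h2 : Complex.sin (π / 3 - w) ≠ 0 :=
    sin_ne_zero_of_re (by rw [re_pi_sub, hw]; linarith) (by rw [re_pi_sub, hw]; linarith)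
  rw [← l2_opNorm_conjTranspose, Y_conjTranspose N h1 h2]
  refine norm_Y_le_left N ?_
  rw [Complex.neg_re, Complex.conj_re, hw]

/-! ### The quotient by `tan (3w/2) ^ N` -/

/-- `b(w) / tan (3w/2)` without the removable singularity. -/
noncomputable def gq (w : ℂ) : ℂ :=
  2 * Complex.cos (w / 2) * Complex.cos (3 * w / 2) /
    ((1 + 2 * Complex.cos w) * Complex.sin (π / 3 + w))

lemma one_add_two_cos (w : ℂ) :
    1 + 2 * Complex.cos w = 4 * (Complex.sin (π / 3 + w / 2) * Complex.sin (π / 3 - w / 2)) := by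
  rw [sin_mul']
  have : Complex.cos w = 1 - 2 * Complex.sin (w / 2) ^ 2 := by
    have h1 : w = 2 * (w / 2) := by ring
    conv_lhs => rw [h1]
    rw [Complex.cos_two_mul]
    linear_combination 2 * Complex.sin_sq_add_cos_sq (w / 2)
  rw [this]
  ring

lemma sin_three_half (w : ℂ) :
    Complex.sin (3 * w / 2) = Complex.sin (w / 2) * (1 + 2 * Complex.cos w) := by
  rw [one_add_two_cos, sin_mul']
  have h1 : 3 * w / 2 = 3 * (w / 2) := by ring
  rw [h1, Complex.sin_three_mul]
  ring

lemma half_re (w : ℂ) : (w / 2).re = w.re / 2 := by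
  have : w / 2 = ((1 / 2 : ℝ) : ℂ) * w := by push_cast; ring
  rw [this, Complex.re_ofReal_mul]
  ring

lemma half_im (w : ℂ) : (w / 2).im = w.im / 2 := by
  have : w / 2 = ((1 / 2 : ℝ) : ℂ) * w := by push_cast; ring
  rw [this, Complex.im_ofReal_mul]
  ring

lemma three_half_re (w : ℂ) : (3 * w / 2).re = 3 * w.re / 2 := by
  have : 3 * w / 2 = ((3 / 2 : ℝ) : ℂ) * w := by push_cast; ring
  rw [this, Complex.re_ofReal_mul]
  ring

lemma three_half_im (w : ℂ) : (3 * w / 2).im = 3 * w.im / 2 := by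
  have : 3 * w / 2 = ((3 / 2 : ℝ) : ℂ) * w := by push_cast; ring
  rw [this, Complex.im_ofReal_mul]
  ring

lemma norm_one_add_two_cos {w : ℂ} (h1 : -(π / 6) ≤ w.re) (h2 : w.re ≤ π / 6) :
    1 ≤ ‖1 + 2 * Complex.cos w‖ := by
  have hp := Real.pi_pos
  rw [one_add_two_cos, norm_mul, norm_mul]
  have e1 : 1 / 2 ≤ ‖Complex.sin (π / 3 + w / 2)‖ :=
    half_le_norm_sin (by rw [re_pi_add, half_re]; linarith) (by rw [re_pi_add, half_re]; linarith)
  have e2 : 1 / 2 ≤ ‖Complex.sin (π / 3 - w / 2)‖ :=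
    half_le_norm_sin (by rw [re_pi_sub, half_re]; linarith) (by rw [re_pi_sub, half_re]; linarith)
  have e3 : ‖(4 : ℂ)‖ = 4 := by norm_num
  rw [e3]
  nlinarith

lemma cos_three_half_ne {w : ℂ} (h1 : -(π / 6) ≤ w.re) (h2 : w.re ≤ π / 6) :
    Complex.cos (3 * w / 2) ≠ 0 := by
  have hp := Real.pi_pos
  rw [← Complex.sin_add_pi_div_two]
  have e : (3 * w / 2 + π / 2 : ℂ).re = 3 * w.re / 2 + π / 2 := by
    rw [Complex.add_re, three_half_re,
      show ((π : ℂ) / 2) = ((π / 2 : ℝ) : ℂ) by push_cast; rfl, Complex.ofReal_re]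
  exact sin_ne_zero_of_re (by rw [e]; linarith) (by rw [e]; linarith)

lemma wb_eq_tan_mul {w : ℂ} (h1 : -(π / 6) ≤ w.re) (h2 : w.re ≤ π / 6) :
    wb w = Complex.tan (3 * w / 2) * gq w := by
  have e1 : 1 + 2 * Complex.cos w ≠ 0 := by
    intro h
    have := norm_one_add_two_cos h1 h2
    rw [h, norm_zero] at this
    norm_num at this
  have e2 := cos_three_half_ne h1 h2
  have e3 : Complex.sin w = 2 * Complex.sin (w / 2) * Complex.cos (w / 2) := by
    rw [← Complex.sin_two_mul]
    congr 1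
    ring
  have hp := Real.pi_pos
  have e4 : Complex.sin (π / 3 + w) ≠ 0 :=
    sin_ne_zero_of_re (by rw [re_pi_add]; linarith) (by rw [re_pi_add]; linarith)
  unfold wb gq
  rw [Complex.tan_eq_sin_div_cos, sin_three_half, e3]
  generalize Complex.cos (3 * w / 2) = p at *
  generalize Complex.sin (w / 2) = q at *
  generalize Complex.cos (w / 2) = r at *
  generalize Complex.sin (π / 3 + w) = t at *
  generalize 1 + 2 * Complex.cos w = u at *
  field_simp

lemma norm_sin_eq_cos_left {z : ℂ} (hz : z.re = -(π / 4)) :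
    ‖Complex.sin z‖ = ‖Complex.cos z‖ := by
  have h : Complex.cos z = -conj (Complex.sin z) := by
    rw [conj_sin, ← Complex.sin_neg, ← Complex.sin_add_pi_div_two]
    congr 1
    apply Complex.ext
    · rw [Complex.add_re, Complex.neg_re, Complex.conj_re, hz,
        show ((π : ℂ) / 2) = ((π / 2 : ℝ) : ℂ) by push_cast; rfl, Complex.ofReal_re]
      ring
    · rw [Complex.add_im, Complex.neg_im, Complex.conj_im,
        show ((π : ℂ) / 2) = ((π / 2 : ℝ) : ℂ) by push_cast; rfl, Complex.ofReal_im]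
      ring
  rw [h, norm_neg, Complex.norm_conj]

lemma norm_sin_eq_cos_right {z : ℂ} (hz : z.re = π / 4) :
    ‖Complex.sin z‖ = ‖Complex.cos z‖ := by
  have h := norm_sin_eq_cos_left (z := -z) (by rw [Complex.neg_re, hz])
  rwa [Complex.sin_neg, norm_neg, Complex.cos_neg] at h

lemma norm_tan_left {w : ℂ} (hw : w.re = -(π / 6)) : ‖Complex.tan (3 * w / 2)‖ = 1 := by
  have hp := Real.pi_pos
  rw [Complex.tan_eq_sin_div_cos, norm_div, norm_sin_eq_cos_left, div_self]
  · exact norm_ne_zero_iff.2 (cos_three_half_ne (by linarith) (by linarith))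
  · rw [three_half_re, hw]
    ring

lemma norm_tan_right {w : ℂ} (hw : w.re = π / 6) : ‖Complex.tan (3 * w / 2)‖ = 1 := by
  have hp := Real.pi_pos
  rw [Complex.tan_eq_sin_div_cos, norm_div, norm_sin_eq_cos_right, div_self]
  · exact norm_ne_zero_iff.2 (cos_three_half_ne (by linarith) (by linarith))
  · rw [three_half_re, hw]
    ring

/-- The quotient family. -/
noncomputable def Qg (w : ℂ) : Lax (Fin 3) := fun s' s => gq w • Qt (wa w) (wb w) (wc w) s' s

lemma Y_eq_Qg (N : ℕ) {w : ℂ} (h1 : -(π / 6) ≤ w.re) (h2 : w.re ≤ π / 6) :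
    Y N w = Complex.tan (3 * w / 2) ^ N • tm (Qg w) N := by
  unfold Y Qg
  rw [tm_smul, smul_smul, ← mul_pow, ← wb_eq_tan_mul h1 h2]

lemma norm_gq_le {w : ℂ} (h1 : -(π / 6) ≤ w.re) (h2 : w.re ≤ π / 6) :
    ‖gq w‖ ≤ 4 * Real.exp (2 * |w.im|) := by
  have hp := Real.pi_pos
  have e1 := norm_one_add_two_cos h1 h2
  have e2 : 1 / 2 ≤ ‖Complex.sin (π / 3 + w)‖ :=
    half_le_norm_sin (by rw [re_pi_add]; linarith) (by rw [re_pi_add]; linarith)
  have e3 := norm_cos_le (w / 2)
  have e4 := norm_cos_le (3 * w / 2)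
  rw [half_im] at e3
  rw [three_half_im] at e4
  have e5 : |w.im / 2| = |w.im| / 2 := by
    rw [abs_div, abs_of_pos (by norm_num : (0 : ℝ) < 2)]
  have e6 : |3 * w.im / 2| = 3 * |w.im| / 2 := by
    rw [abs_div, abs_mul, abs_of_pos (by norm_num : (0 : ℝ) < 2),
      abs_of_pos (by norm_num : (0 : ℝ) < 3)]
  rw [e5] at e3
  rw [e6] at e4
  unfold gq
  rw [norm_div, norm_mul, norm_mul, norm_mul, Complex.norm_two,
    div_le_iff₀ (mul_pos (by linarith) (by linarith))]
  have e7 : ‖Complex.cos (w / 2)‖ * ‖Complex.cos (3 * w / 2)‖ ≤ Real.exp (2 * |w.im|) := by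
    have : Real.exp (2 * |w.im|) = Real.exp (|w.im| / 2) * Real.exp (3 * |w.im| / 2) := by
      rw [← Real.exp_add]
      congr 1
      ring
    rw [this]
    exact mul_le_mul e3 e4 (norm_nonneg _) (Real.exp_pos _).le
  have e8 : 1 / 2 ≤ ‖1 + 2 * Complex.cos w‖ * ‖Complex.sin (π / 3 + w)‖ := by nlinarith
  have e9 := Real.exp_pos (2 * |w.im|)
  nlinarith

/-- The operator norm of the fused transfer matrix. -/
theorem norm_Y_le (N : ℕ) {w : ℂ} (h1 : -(π / 6) ≤ w.re) (h2 : w.re ≤ π / 6) :
    ‖Y N w‖ ≤ 3 * ‖Complex.tan (3 * w / 2)‖ ^ N := by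
  have hp := Real.pi_pos
  rw [Y_eq_Qg N h1 h2, norm_smul, norm_pow, mul_comm]
  refine mul_le_mul_of_nonneg_right ?_ (by positivity)
  have hs1 : ∀ w : ℂ, -(π / 6) ≤ w.re → w.re ≤ π / 6 → 1 / 2 ≤ ‖Complex.sin (π / 3 + w)‖ := by
    intro w h0 h1
    exact half_le_norm_sin (by rw [re_pi_add]; linarith) (by rw [re_pi_add]; linarith)
  have hs2 : ∀ w : ℂ, -(π / 6) ≤ w.re → w.re ≤ π / 6 → 1 / 2 ≤ ‖Complex.sin (π / 3 - w)‖ := by
    intro w h0 h1
    exact half_le_norm_sin (by rw [re_pi_sub]; linarith) (by rw [re_pi_sub]; linarith)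
  have hn1 : ∀ w : ℂ, -(π / 6) ≤ w.re → w.re ≤ π / 6 → Complex.sin (π / 3 + w) ≠ 0 := by
    intro w h0 h1
    exact sin_ne_zero_of_re (by rw [re_pi_add]; linarith) (by rw [re_pi_add]; linarith)
  have hn2 : ∀ w : ℂ, -(π / 6) ≤ w.re → w.re ≤ π / 6 → Complex.sin (π / 3 - w) ≠ 0 := by
    intro w h0 h1
    exact sin_ne_zero_of_re (by rw [re_pi_sub]; linarith) (by rw [re_pi_sub]; linarith)
  refine strip_bound (L := Qg) (a := -(π / 6)) (b := π / 6) (m := 3)
    (M := 8) (by linarith) (by linarith) (by norm_num) ?_ ?_ N ?_ ?_ h1 h2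
  · intro w h0 h1 s' s x' x
    have e1 := hn1 w h0 h1
    have e2 := hn2 w h0 h1
    have e3 : 1 + 2 * Complex.cos w ≠ 0 := by
      intro h
      have := norm_one_add_two_cos h0 h1
      rw [h, norm_zero] at this
      norm_num at this
    have ha' : wa w ≠ 0 := div_ne_zero e2 e1
    have ha : DifferentiableAt ℂ wa w := by
      unfold wa
      fun_prop (disch := exact e1)
    have hb : DifferentiableAt ℂ wb w := by
      unfold wb
      fun_prop (disch := exact e1)
    have hc : DifferentiableAt ℂ wc w := by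
      unfold wc
      fun_prop (disch := exact e1)
    have hg : DifferentiableAt ℂ gq w := by
      unfold gq
      fun_prop (disch := exact mul_ne_zero e3 e1)
    have hq : DifferentiableAt ℂ (fun w => Qt (wa w) (wb w) (wc w) s' s x' x) w := by
      cases s' <;> cases s <;> fin_cases x' <;> fin_cases x <;> simp [Qt] <;>
        fun_prop (disch := exact ha')
    exact hg.mul hq
  · intro w h0 h1 s' s x' x
    have e1 := hs1 w h0 h1
    have e2 := hs2 w h0 h1
    have n1 := hn1 w h0 h1
    have n2 := hn2 w h0 h1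
    have hg := norm_gq_le h0 h1
    have hq : ‖Qt (wa w) (wb w) (wc w) s' s x' x‖ ≤ 2 * Real.exp |w.im| := by
      have f1 : ‖(1 : ℂ) / wa w‖ ≤ 2 * Real.exp |w.im| := by
        unfold wa
        rw [one_div_div]
        exact norm_div_le_two_exp ((norm_sin_le _).trans (by rw [im_pi_add])) e2
      have f2 : ‖wb w / wa w‖ ≤ 2 * Real.exp |w.im| := by
        have : wb w / wa w = Complex.sin w / Complex.sin (π / 3 - w) := by
          unfold wa wb
          generalize Complex.sin (π / 3 + w) = p at *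
          generalize Complex.sin (π / 3 - w) = q at *
          field_simp
        rw [this]
        exact norm_div_le_two_exp (norm_sin_le _) e2
      have f3 : ‖wc w / wa w‖ ≤ 2 * Real.exp |w.im| := by
        have : wc w / wa w = kap / Complex.sin (π / 3 - w) := by
          unfold wa wc
          generalize Complex.sin (π / 3 + w) = p at *
          generalize Complex.sin (π / 3 - w) = q at *
          field_simp
        rw [this]
        exact norm_div_le_two_exp (norm_kap_le.trans (Real.one_le_exp (abs_nonneg _))) e2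
      have f4 : ‖(-1 : ℂ)‖ ≤ 2 * Real.exp |w.im| := by
        rw [norm_neg, norm_one]
        have := Real.one_le_exp (abs_nonneg w.im)
        linarith
      have f5 : ‖(0 : ℂ)‖ ≤ 2 * Real.exp |w.im| := by
        rw [norm_zero]
        positivity
      have f2' : ‖-wb w / wa w‖ ≤ 2 * Real.exp |w.im| := by rwa [neg_div, norm_neg]
      have f3' : ‖-wc w / wa w‖ ≤ 2 * Real.exp |w.im| := by rwa [neg_div, norm_neg]
      cases s' <;> cases s <;> fin_cases x' <;> fin_cases x <;>
        first
          | exact f1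
          | exact f2'
          | exact f3
          | exact f3'
          | exact f4
          | exact f5
    have e : (8 : ℝ) * Real.exp ((3 : ℕ) * |w.im|) =
        (4 * Real.exp (2 * |w.im|)) * (2 * Real.exp |w.im|) := by
      have : Real.exp ((3 : ℕ) * |w.im|) = Real.exp (2 * |w.im|) * Real.exp |w.im| := by
        rw [← Real.exp_add]
        congr 1
        push_cast
        ring
      rw [this]
      ring
    rw [e]
    unfold Qg
    rw [Matrix.smul_apply, smul_eq_mul, norm_mul]
    exact mul_le_mul hg hq (norm_nonneg _) (by positivity)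
  · intro w hw
    have := norm_Y_le_left N hw
    rw [Y_eq_Qg N (by linarith) (by linarith), norm_smul, norm_pow, norm_tan_left hw, one_pow,
      one_mul] at this
    exact this
  · intro w hw
    have := norm_Y_le_right N hw
    rw [Y_eq_Qg N (by linarith) (by linarith), norm_smul, norm_pow, norm_tan_right hw, one_pow,
      one_mul] at this
    exact this

end Pool.Agent.SixV
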