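import Mathlib

open Complex MeasureTheory intervalIntegral Set
open scoped Real Interval

/-!
# The residue theorem on a rectangle for the kernel `1 / sin (z - c)`
-/

namespace MP6bd

/-- the integral over the boundary of the rectangle `|Re z| ≤ π/2`, `|Im z| ≤ ℓ` -/
noncomputable def bd (ℓ : ℝ) (F : ℂ → ℂ) : ℂ :=
  (∫ x : ℝ in (-(π / 2))..(π / 2), F (x + (-ℓ : ℝ) * I)) -
    (∫ x : ℝ in (-(π / 2))..(π / 2), F (x + (ℓ : ℝ) * I)) +
    I * (∫ y : ℝ in (-ℓ)..ℓ, F ((π / 2 : ℝ) + y * I)) -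
    I * ∫ y : ℝ in (-ℓ)..ℓ, F ((-(π / 2) : ℝ) + y * I)

/-- continuity along the boundary of the rectangle -/
structure BdC (ℓ : ℝ) (F : ℂ → ℂ) : Prop where
  bot : ContinuousOn (fun x : ℝ => F (x + (-ℓ : ℝ) * I)) (Icc (-(π / 2)) (π / 2))
  top : ContinuousOn (fun x : ℝ => F (x + (ℓ : ℝ) * I)) (Icc (-(π / 2)) (π / 2))
  right : ContinuousOn (fun y : ℝ => F ((π / 2 : ℝ) + y * I)) (Icc (-ℓ) ℓ)
  left : ContinuousOn (fun y : ℝ => F ((-(π / 2) : ℝ) + y * I)) (Icc (-ℓ) ℓ)

/-- the closed rectangle -/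
def Rect (ℓ : ℝ) : Set ℂ := {z : ℂ | |z.re| ≤ π / 2 ∧ |z.im| ≤ ℓ}

lemma ii_of_cont {u v : ℝ} (h : u ≤ v) {F : ℝ → ℂ} (hF : ContinuousOn F (Icc u v)) :
    IntervalIntegrable F volume u v := by
  apply ContinuousOn.intervalIntegrable
  rwa [uIcc_of_le h]

lemma pi2 : -(π / 2) ≤ π / 2 := by linarith [Real.pi_pos]

lemma bd_add {ℓ : ℝ} (hℓ : 0 < ℓ) {F G : ℂ → ℂ} (hF : BdC ℓ F) (hG : BdC ℓ G) :
    bd ℓ (fun z => F z + G z) = bd ℓ F + bd ℓ G := by
  have hl : -ℓ ≤ ℓ := by linarith
  unfold bd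
  rw [intervalIntegral.integral_add (ii_of_cont pi2 hF.bot) (ii_of_cont pi2 hG.bot),
    intervalIntegral.integral_add (ii_of_cont pi2 hF.top) (ii_of_cont pi2 hG.top),
    intervalIntegral.integral_add (ii_of_cont hl hF.right) (ii_of_cont hl hG.right),
    intervalIntegral.integral_add (ii_of_cont hl hF.left) (ii_of_cont hl hG.left)]
  ring

lemma bd_const_mul {ℓ : ℝ} (c : ℂ) (F : ℂ → ℂ) :
    bd ℓ (fun z => c * F z) = c * bd ℓ F := by
  unfold bd
  simp only [intervalIntegral.integral_const_mul]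
  ring

lemma bd_congr {ℓ : ℝ} (hℓ : 0 < ℓ) {F G : ℂ → ℂ} 
    (h : ∀ z : ℂ, |z.re| ≤ π / 2 → |z.im| ≤ ℓ → (|z.re| = π / 2 ∨ |z.im| = ℓ) → F z = G z) :
    bd ℓ F = bd ℓ G := by
  have hl : -ℓ ≤ ℓ := by linarith
  have hpi : (0:ℝ) < π / 2 := by linarith [Real.pi_pos]
  unfold bd
  congr 1
  · congr 1
    · congr 1
      · apply intervalIntegral.integral_congr
        intro x hx
        rw [uIcc_of_le pi2] at hx
        refine h _ ?_ ?_ (Or.inr ?_)
        · simp [abs_le]; exact hx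
        · simp [abs_of_pos hℓ]
        · simp [abs_of_pos hℓ]
      · apply intervalIntegral.integral_congr
        intro x hx
        rw [uIcc_of_le pi2] at hx
        refine h _ ?_ ?_ (Or.inr ?_)
        · simp [abs_le]; exact hx
        · simp [abs_of_pos hℓ]
        · simp [abs_of_pos hℓ]
    · congr 1
      apply intervalIntegral.integral_congr
      intro y hy
      rw [uIcc_of_le hl] at hy
      refine h _ ?_ ?_ (Or.inl ?_)
      · simp [abs_of_pos hpi]
      · simp [abs_le]; exact hy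
      · simp [abs_of_pos hpi]
  · congr 1
    apply intervalIntegral.integral_congr
    intro y hy
    rw [uIcc_of_le hl] at hy
    refine h _ ?_ ?_ (Or.inl ?_)
    · simp [abs_of_pos hpi]
    · simp [abs_le]; exact hy
    · simp [abs_of_pos hpi]

lemma bd_zero {ℓ : ℝ} (hℓ : 0 < ℓ) {F : ℂ → ℂ} (c : ℂ) (hF : ContinuousOn F (Rect ℓ))
    (hd : ∀ z : ℂ, |z.re| < π / 2 → |z.im| < ℓ → z ≠ c → DifferentiableAt ℂ F z) :
    bd ℓ F = 0 := by
  have hl : -ℓ ≤ ℓ := by linarith
  have h := integral_boundary_rect_eq_zero_of_differentiable_on_off_countable F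
    (((-(π/2) : ℝ) : ℂ) + ((-ℓ : ℝ) : ℂ) * I) (((π/2 : ℝ) : ℂ) + ((ℓ : ℝ) : ℂ) * I) {c}
    (countable_singleton c) ?_ ?_
  · unfold bd
    simpa using h
  · refine hF.mono ?_
    rintro z ⟨h1, h2⟩
    simp only [mem_preimage] at h1 h2
    simp only [add_re, ofReal_re, mul_re, I_re, mul_zero, ofReal_im, I_im, mul_one, sub_self,
      add_zero, add_im, mul_im, zero_add] at h1 h2
    rw [uIcc_of_le pi2] at h1
    rw [uIcc_of_le hl] at h2
    exact ⟨abs_le.2 h1, abs_le.2 h2⟩
  · rintro z ⟨⟨h1, h2⟩, h3⟩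
    simp only [mem_preimage] at h1 h2
    simp only [add_re, ofReal_re, mul_re, I_re, mul_zero, ofReal_im, I_im, mul_one, sub_self,
      add_zero, add_im, mul_im, zero_add] at h1 h2
    rw [min_eq_left pi2, max_eq_right pi2] at h1
    rw [min_eq_left hl, max_eq_right hl] at h2
    exact hd z (abs_lt.2 h1) (abs_lt.2 h2) h3


lemma sin_ne_zero_of_re {z : ℂ} (h : |z.re| < π) (hz : z ≠ 0) : Complex.sin z ≠ 0 := by
  intro h0
  rw [Complex.sin_eq_zero_iff] at h0
  obtain ⟨k, hk⟩ := h0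
  have hre : z.re = k * π := by rw [hk]; simp
  have : k = 0 := by
    rw [hre, abs_mul, abs_of_pos Real.pi_pos] at h
    have h1 : |(k : ℝ)| < 1 := by
      by_contra hc
      push Not at hc
      nlinarith [Real.pi_pos]
    have h2 : |k| < 1 := by exact_mod_cast h1
    simpa using h2
  apply hz
  rw [hk, this]
  simp

/-- the kernel -/
noncomputable def ker (c : ℝ) (z : ℂ) : ℂ := (Complex.sin (z - c))⁻¹

lemma ker_cont_bd {ℓ c : ℝ} (hℓ : 0 < ℓ) (hc : |c| < π / 2) {z : ℂ} (h1 : |z.re| ≤ π / 2)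
    (h3 : |z.re| = π / 2 ∨ |z.im| = ℓ) : Complex.sin (z - c) ≠ 0 := by
  apply sin_ne_zero_of_re
  · simp only [sub_re, ofReal_re]
    calc |z.re - c| ≤ |z.re| + |c| := abs_sub _ _
      _ < π := by linarith
  · intro h
    have hz : z = c := by linear_combination h
    rw [hz] at h3
    simp only [ofReal_re, ofReal_im, abs_zero] at h3
    rcases h3 with h3 | h3
    · linarith
    · linarith

lemma BdC_of {ℓ : ℝ} (hℓ : 0 < ℓ) {F : ℂ → ℂ}
    (h : ∀ z : ℂ, |z.re| ≤ π / 2 → |z.im| ≤ ℓ → (|z.re| = π / 2 ∨ |z.im| = ℓ) →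
      ContinuousAt F z) : BdC ℓ F := by
  have hl : -ℓ ≤ ℓ := by linarith
  have hpi : (0:ℝ) < π / 2 := by linarith [Real.pi_pos]
  refine ⟨?_, ?_, ?_, ?_⟩
  · intro x hx
    refine ContinuousAt.continuousWithinAt ?_
    refine ContinuousAt.comp (g := F) (f := fun x : ℝ => (x : ℂ) + (-ℓ : ℝ) * I) (h _ ?_ ?_ (Or.inr ?_)) (by fun_prop)
    · simp [abs_le]; exact hx
    · simp [abs_of_pos hℓ]
    · simp [abs_of_pos hℓ]
  · intro x hx
    refine ContinuousAt.continuousWithinAt ?_
    refine ContinuousAt.comp (g := F) (f := fun x : ℝ => (x : ℂ) + (ℓ : ℝ) * I) (h _ ?_ ?_ (Or.inr ?_)) (by fun_prop)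
    · simp [abs_le]; exact hx
    · simp [abs_of_pos hℓ]
    · simp [abs_of_pos hℓ]
  · intro y hy
    refine ContinuousAt.continuousWithinAt ?_
    refine ContinuousAt.comp (g := F) (f := fun y : ℝ => ((π / 2 : ℝ) : ℂ) + y * I) (h _ ?_ ?_ (Or.inl ?_)) (by fun_prop)
    · simp [abs_of_pos hpi]
    · simp [abs_le]; exact hy
    · simp [abs_of_pos hpi]
  · intro y hy
    refine ContinuousAt.continuousWithinAt ?_
    refine ContinuousAt.comp (g := F) (f := fun y : ℝ => ((-(π / 2) : ℝ) : ℂ) + y * I) (h _ ?_ ?_ (Or.inl ?_)) (by fun_prop)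
    · simp [abs_of_pos hpi]
    · simp [abs_le]; exact hy
    · simp [abs_of_pos hpi]

lemma ker_BdC {ℓ c : ℝ} (hℓ : 0 < ℓ) (hc : |c| < π / 2) : BdC ℓ (ker c) := by
  apply BdC_of hℓ
  intro z h1 h2 h3
  unfold ker
  exact ContinuousAt.inv₀ (by fun_prop) (ker_cont_bd hℓ hc h1 h3)

lemma half_circle {r : ℝ} (c : ℝ) (G : ℂ → ℂ) :
    ∫ x : ℝ in (-(π / 2))..(π / 2), G ((r : ℂ) * cexp (2 * I * (x - c))) =
      π * Real.circleAverage G 0 r := by
  have h1 : ∫ x : ℝ in (-(π / 2))..(π / 2), G ((r : ℂ) * cexp (2 * I * (x - c))) =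
      ∫ x : ℝ in (-(π / 2))..(π / 2), (fun θ : ℝ => G (circleMap 0 r θ)) (2 * x - 2 * c) := by
    apply intervalIntegral.integral_congr
    intro x _
    simp only [circleMap, zero_add]
    congr 3
    push_cast
    ring
  rw [h1, intervalIntegral.integral_comp_mul_sub (fun θ : ℝ => G (circleMap 0 r θ)) two_ne_zero]
  rw [Real.circleAverage_def]
  have hp : Function.Periodic (fun θ : ℝ => G (circleMap 0 r θ)) (2 * π) := by
    intro θ
    simp only
    rw [periodic_circleMap 0 r θ]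
  have h2 := hp.intervalIntegral_add_eq (2 * (-(π / 2)) - 2 * c) 0
  have h3 : 2 * (-(π / 2)) - 2 * c + 2 * π = 2 * (π / 2) - 2 * c := by ring
  rw [h3, zero_add] at h2
  rw [h2]
  simp only [mul_inv_rev, real_smul, ofReal_mul, ofReal_inv, ofReal_ofNat]
  have : (π : ℂ) ≠ 0 := by exact_mod_cast Real.pi_ne_zero
  field_simp

lemma half_circle' {r : ℝ} (c : ℝ) (G : ℂ → ℂ) :
    ∫ x : ℝ in (-(π / 2))..(π / 2), G ((r : ℂ) * cexp (-(2 * I * (x - c)))) =
      π * Real.circleAverage G 0 r := by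
  rw [← half_circle (-c) G]
  have h := intervalIntegral.integral_comp_neg (a := -(π / 2)) (b := π / 2)
    (fun x : ℝ => G ((r : ℂ) * cexp (-(2 * I * (x - c)))))
  rw [neg_neg] at h
  rw [← h]
  apply intervalIntegral.integral_congr
  intro x _
  simp only
  congr 3
  push_cast
  ring

/-- the residue theorem up to a constant -/
lemma residue_aux {ℓ c : ℝ} (hℓ : 0 < ℓ) (hc : |c| < π / 2) {f : ℂ → ℂ}
    (hf : ∀ z ∈ Rect ℓ, DifferentiableAt ℂ f z) :
    bd ℓ (fun z => f z * ker c z) = f c * bd ℓ (ker c) := by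
  have hcR : Rect ℓ ∈ nhds (c : ℂ) := by
    have ho : IsOpen {z : ℂ | |z.re| < π / 2 ∧ |z.im| < ℓ} :=
      (isOpen_lt (f := fun z : ℂ => |z.re|) (g := fun _ => π / 2)
        (continuous_abs.comp Complex.continuous_re) continuous_const).inter
      (isOpen_lt (f := fun z : ℂ => |z.im|) (g := fun _ => ℓ)
        (continuous_abs.comp Complex.continuous_im) continuous_const)
    refine Filter.mem_of_superset (ho.mem_nhds ?_) ?_
    · simp [hc, hℓ]
    · rintro z ⟨h1, h2⟩
      exact ⟨h1.le, h2.le⟩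
  have hcm : (c : ℂ) ∈ Rect ℓ := mem_of_mem_nhds hcR
  have hfc : ContinuousOn f (Rect ℓ) := fun z hz => (hf z hz).continuousAt.continuousWithinAt
  set q : ℂ → ℂ := fun z => dslope f c z * (dslope Complex.sin 0 (z - c))⁻¹ with hq
  have hds : Continuous (dslope Complex.sin 0) := by
    rw [← continuousOn_univ, continuousOn_dslope Filter.univ_mem]
    exact ⟨Complex.continuous_sin.continuousOn, Complex.differentiable_sin 0⟩
  have hne : ∀ z ∈ Rect ℓ, dslope Complex.sin 0 (z - c) ≠ 0 := by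
    intro z hz
    by_cases h0 : z - c = 0
    · rw [h0, dslope_same]
      simp
    · rw [dslope_of_ne _ h0, slope_def_field]
      simp only [Complex.sin_zero, sub_zero]
      refine div_ne_zero (sin_ne_zero_of_re ?_ h0) h0
      simp only [sub_re, ofReal_re]
      calc |z.re - c| ≤ |z.re| + |c| := abs_sub _ _
        _ < π := by linarith [hz.1]
  have hqc : ContinuousOn q (Rect ℓ) := by
    refine ContinuousOn.mul ?_ (ContinuousOn.inv₀ ?_ hne)
    · rw [continuousOn_dslope hcR]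
      exact ⟨hfc, hf c hcm⟩
    · exact (hds.comp (by fun_prop : Continuous fun z : ℂ => z - c)).continuousOn
  have hq0 : bd ℓ q = 0 := by
    apply bd_zero hℓ (c : ℂ) hqc
    intro z h1 h2 h3
    have hz : z ∈ Rect ℓ := ⟨h1.le, h2.le⟩
    refine DifferentiableAt.mul ?_ (DifferentiableAt.inv ?_ (hne z hz))
    · rw [differentiableAt_dslope_of_ne h3]
      exact hf z hz
    · have h4 : DifferentiableAt ℂ (dslope Complex.sin 0) (z - c) := by
        rw [differentiableAt_dslope_of_ne (sub_ne_zero.2 h3)]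
        exact Complex.differentiable_sin _
      exact h4.comp z (by fun_prop)
  have hkey : ∀ z : ℂ, |z.re| ≤ π / 2 → |z.im| ≤ ℓ → (|z.re| = π / 2 ∨ |z.im| = ℓ) →
      f z * ker c z = q z + f c * ker c z := by
    intro z h1 h2 h3
    have hs := ker_cont_bd hℓ hc h1 h3
    have hzc : z ≠ c := by
      rintro rfl
      simp at hs
    rw [hq]
    simp only
    rw [dslope_of_ne _ hzc, dslope_of_ne _ (sub_ne_zero.2 hzc), slope_def_field, slope_def_field]
    unfold ker
    have h5 : z - c ≠ 0 := sub_ne_zero.2 hzc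
    simp only [Complex.sin_zero, sub_zero]
    field_simp
    ring
  rw [bd_congr hℓ hkey, bd_add hℓ, hq0, bd_const_mul, zero_add]
  · apply BdC_of hℓ
    intro z h1 h2 h3
    have hz : z ∈ Rect ℓ := ⟨h1, h2⟩
    have hzc : z ≠ c := by
      rintro rfl
      have := ker_cont_bd hℓ hc h1 h3
      simp at this
    refine ContinuousAt.mul ?_ (ContinuousAt.inv₀ ?_ (hne z hz))
    · rw [continuousAt_dslope_of_ne hzc]
      exact (hf z hz).continuousAt
    · exact (hds.comp (by fun_prop : Continuous fun z : ℂ => z - c)).continuousAt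
  · apply BdC_of hℓ
    intro z h1 h2 h3
    exact ContinuousAt.mul (by fun_prop) (ContinuousAt.inv₀ (by fun_prop) (ker_cont_bd hℓ hc h1 h3))

lemma ker_exp (c : ℝ) (z : ℂ) :
    cexp (-(I * (z - c))) * ker c z = 2 * I * (cexp (2 * I * (z - c)) - 1)⁻¹ := by
  unfold ker
  set w : ℂ := z - c
  have h1 : Complex.sin w = -(cexp (2 * I * w) - 1) * cexp (-(I * w)) * I / 2 := by
    rw [Complex.sin]
    have h2 : cexp (2 * I * w) = cexp (I * w) * cexp (I * w) := by
      rw [← Complex.exp_add]; congr 1; ring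
    have h3 : cexp (I * w) * cexp (-(I * w)) = 1 := by
      rw [← Complex.exp_add]; simp
    have e1 : -w * I = -(I * w) := by ring
    have e2 : w * I = I * w := by ring
    rw [e1, e2, h2]
    linear_combination (cexp (I * w)) * I / 2 * h3
  rw [h1]
  have h4 : cexp (-(I * w)) ≠ 0 := Complex.exp_ne_zero _
  have h6 : -(cexp (2 * I * w) - 1) * cexp (-(I * w)) * I / 2 =
      (cexp (2 * I * w) - 1) * (cexp (-(I * w)) * (-I / 2)) := by ring
  rw [h6, mul_inv, mul_inv]
  have h7 : (-I / 2)⁻¹ = 2 * I := by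
    rw [inv_eq_iff_eq_inv, ← div_eq_one_iff_eq (by simp)]
    field_simp
    linear_combination (-1 : ℂ) * I_sq
  rw [h7]
  field_simp

lemma bd_ker {ℓ c : ℝ} (hℓ : 0 < ℓ) (hc : |c| < π / 2) : bd ℓ (ker c) = 2 * π * I := by
  have h1 := residue_aux (f := fun z => cexp (-(I * (z - c)))) hℓ hc (fun z _ => by fun_prop)
  simp only [sub_self, mul_zero, neg_zero, Complex.exp_zero, one_mul] at h1
  rw [← h1]
  simp only [ker_exp]
  have hr0 : 0 < Real.exp (-2 * ℓ) := Real.exp_pos _
  have hr1 : Real.exp (-2 * ℓ) < 1 := by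
    rw [Real.exp_lt_one_iff]; linarith
  have htop : ∫ x : ℝ in (-(π / 2))..(π / 2), 2 * I * (cexp (2 * I * ((x + (ℓ : ℝ) * I) - c)) - 1)⁻¹
      = π * (-2 * I) := by
    have h2 := half_circle (r := Real.exp (-2 * ℓ)) c (fun ζ => 2 * I * (ζ - 1)⁻¹)
    rw [DiffContOnCl.circleAverage] at h2
    · simp only [zero_sub, inv_neg, inv_one, mul_neg, mul_one] at h2
      rw [show (π : ℂ) * (-2 * I) = -(π * (2 * I)) by ring, ← h2]
      apply intervalIntegral.integral_congr
      intro x _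
      simp only [ofReal_exp, ← Complex.exp_add]
      congr 4
      push_cast
      linear_combination (2 * (ℓ : ℂ)) * I_sq
    · rw [abs_of_pos hr0]
      apply DifferentiableOn.diffContOnCl
      intro ζ hζ
      apply DifferentiableAt.differentiableWithinAt
      have : ζ - 1 ≠ 0 := by
        intro h
        have h3 : ζ = 1 := by linear_combination h
        rw [h3] at hζ
        have h4 := Metric.closure_ball_subset_closedBall hζ
        simp at h4
        linarith
      exact (DifferentiableAt.inv (h := fun ζ : ℂ => ζ - 1) (by fun_prop) this).const_mul _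
  have hbot : ∫ x : ℝ in (-(π / 2))..(π / 2),
      2 * I * (cexp (2 * I * ((x + (-ℓ : ℝ) * I) - c)) - 1)⁻¹ = 0 := by
    have h2 := half_circle' (r := Real.exp (-2 * ℓ)) c (fun ζ => 2 * I * ζ * (1 - ζ)⁻¹)
    rw [DiffContOnCl.circleAverage] at h2
    · simp only [mul_zero, zero_mul] at h2
      rw [← h2]
      apply intervalIntegral.integral_congr
      intro x _
      have h3 : (Real.exp (-2 * ℓ) : ℂ) * cexp (-(2 * I * (x - c))) =
        (cexp (2 * I * ((x + (-ℓ : ℝ) * I) - c)))⁻¹ := by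
        rw [← Complex.exp_neg, ofReal_exp, ← Complex.exp_add]
        congr 1
        push_cast
        linear_combination (-2 * (ℓ : ℂ)) * I_sq
      simp only [h3]
      set E := cexp (2 * I * ((x + (-ℓ : ℝ) * I) - c)) with hE
      have hE0 : E ≠ 0 := Complex.exp_ne_zero _
      have hE1 : E - 1 ≠ 0 := by
        intro h
        have h4 : ‖E‖ = Real.exp (2 * ℓ) := by
          rw [hE, Complex.norm_exp]
          congr 1
          simp
        have h5 : E = 1 := by linear_combination h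
        rw [h5, norm_one] at h4
        have h6 : 1 < Real.exp (2 * ℓ) := by rw [Real.one_lt_exp_iff]; linarith
        linarith
      have h6 : 1 - E⁻¹ ≠ 0 := by
        intro h
        apply hE1
        field_simp at h
        simpa using h
      field_simp
    · rw [abs_of_pos hr0]
      apply DifferentiableOn.diffContOnCl
      intro ζ hζ
      apply DifferentiableAt.differentiableWithinAt
      have : 1 - ζ ≠ 0 := by
        intro h
        have h3 : ζ = 1 := by linear_combination -h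
        rw [h3] at hζ
        have h4 := Metric.closure_ball_subset_closedBall hζ
        simp at h4
        linarith
      exact DifferentiableAt.mul (by fun_prop)
        (DifferentiableAt.inv (h := fun ζ : ℂ => 1 - ζ) (by fun_prop) this)
  have hside : ∫ y : ℝ in (-ℓ)..ℓ, 2 * I * (cexp (2 * I * ((((π / 2 : ℝ) : ℂ) + y * I) - c)) - 1)⁻¹ =
      ∫ y : ℝ in (-ℓ)..ℓ, 2 * I * (cexp (2 * I * ((((-(π / 2) : ℝ) : ℂ) + y * I) - c)) - 1)⁻¹ := by
    apply intervalIntegral.integral_congr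
    intro y _
    simp only
    congr 3
    rw [Complex.exp_eq_exp_iff_exists_int]
    refine ⟨1, ?_⟩
    push_cast
    ring
  unfold bd
  rw [htop, hbot, hside]
  ring

/-- the residue theorem for the rectangle -/
lemma residue {ℓ c : ℝ} (hℓ : 0 < ℓ) (hc : |c| < π / 2) {f : ℂ → ℂ}
    (hf : ∀ z ∈ Rect ℓ, DifferentiableAt ℂ f z) :
    bd ℓ (fun z => f z * ker c z) = 2 * π * I * f c := by
  rw [residue_aux hℓ hc hf, bd_ker hℓ hc, mul_comm]

end MP6bd
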