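import Mathlib
import Pool.Agent.Lib.MP_6bd702_sv.RectRes

open Complex MeasureTheory intervalIntegral Set
open scoped Real Interval

/-!
# Fourier modes on the rectangle
-/

namespace MP6bd

/-- a function on the rectangle: `f = - log g` -/
structure RectFun (ℓ η : ℝ) (f : ℂ → ℂ) : Prop where
  hℓ : 2 ≤ ℓ
  hη : 0 ≤ η
  diff : ∀ z ∈ Rect ℓ, DifferentiableAt ℂ f z
  symm : ∀ z ∈ Rect ℓ, f (-(starRingEnd ℂ) z) = (starRingEnd ℂ) (f z)
  low : ∀ z ∈ Rect ℓ, -η ≤ (f z).re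
  side : ∀ y : ℝ, |y| ≤ ℓ → |(f ((π / 2 : ℝ) + y * I)).re| ≤ η * |y|

/-- the Fourier mode at height `y` -/
noncomputable def md (f : ℂ → ℂ) (m : ℤ) (y : ℝ) : ℂ :=
  ∫ x : ℝ in (-(π / 2))..(π / 2), f (x + y * I) * cexp (I * m * (x + y * I))

lemma sin_mul_sum (w : ℂ) (K : ℕ) :
    Complex.sin w * ∑ j ∈ Finset.range K, (-2 * I) * cexp (I * (2 * j + 1 : ℤ) * w) =
      1 - cexp (2 * I * K * w) := by
  induction K with
  | zero => simp
  | succ K ih =>
    rw [Finset.sum_range_succ, mul_add, ih, Complex.sin]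
    have e1 : cexp (I * (2 * (K : ℤ) + 1 : ℤ) * w) = cexp (2 * I * K * w) * cexp (w * I) := by
      rw [← Complex.exp_add]; congr 1; push_cast; ring
    have e2 : cexp (2 * I * ((K + 1 : ℕ) : ℂ) * w) =
        cexp (2 * I * K * w) * cexp (w * I) * cexp (w * I) := by
      rw [← Complex.exp_add, ← Complex.exp_add]; congr 1; push_cast; ring
    have e3 : cexp (-w * I) * cexp (w * I) = 1 := by
      rw [← Complex.exp_add]; simp
    rw [e1, e2]
    linear_combination (-(cexp (-w * I) - cexp (w * I)) * cexp (2 * I * K * w) * cexp (w * I)) * I_sq +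
      cexp (2 * I * K * w) * e3

lemma ker_expand_top (c : ℝ) (z : ℂ) (h : Complex.sin (z - c) ≠ 0) (K : ℕ) :
    ker c z = ∑ j ∈ Finset.range K, (-2 * I * cexp (-(I * (2 * j + 1 : ℤ) * c))) *
      cexp (I * (2 * j + 1 : ℤ) * z) + cexp (2 * I * K * (z - c)) * ker c z := by
  have h1 := sin_mul_sum (z - c) K
  unfold ker
  have h2 : ∑ j ∈ Finset.range K, (-2 * I * cexp (-(I * (2 * j + 1 : ℤ) * c))) *
      cexp (I * (2 * j + 1 : ℤ) * z) =
      ∑ j ∈ Finset.range K, (-2 * I) * cexp (I * (2 * j + 1 : ℤ) * (z - c)) := by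
    apply Finset.sum_congr rfl
    intro j _
    rw [mul_assoc, ← Complex.exp_add]
    congr 2
    ring
  rw [h2]
  have h4 : (Complex.sin (z - c))⁻¹ * Complex.sin (z - c) = 1 := inv_mul_cancel₀ h
  generalize (∑ j ∈ Finset.range K, (-2 * I) * cexp (I * (2 * j + 1 : ℤ) * (z - c))) = S at h1 ⊢
  linear_combination -(Complex.sin (z - c))⁻¹ * h1 + S * h4

lemma ker_expand_bot (c : ℝ) (z : ℂ) (h : Complex.sin (z - c) ≠ 0) (K : ℕ) :
    ker c z = ∑ j ∈ Finset.range K, (2 * I * cexp (I * (2 * j + 1 : ℤ) * c)) *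
      cexp (I * (-(2 * j + 1) : ℤ) * z) + cexp (-(2 * I * K * (z - c))) * ker c z := by
  have h1 := sin_mul_sum (-(z - c)) K
  rw [Complex.sin_neg] at h1
  unfold ker
  have h2 : ∑ j ∈ Finset.range K, (2 * I * cexp (I * (2 * j + 1 : ℤ) * c)) *
      cexp (I * (-(2 * j + 1) : ℤ) * z) =
      -∑ j ∈ Finset.range K, (-2 * I) * cexp (I * (2 * j + 1 : ℤ) * (-(z - c))) := by
    rw [← Finset.sum_neg_distrib]
    apply Finset.sum_congr rfl
    intro j _
    rw [mul_assoc, ← Complex.exp_add, neg_mul, neg_mul, neg_neg]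
    congr 2
    push_cast
    ring
  rw [h2]
  have h3 : 2 * I * (K : ℂ) * (-(z - c)) = -(2 * I * K * (z - c)) := by ring
  rw [h3] at h1
  have h4 : (Complex.sin (z - c))⁻¹ * Complex.sin (z - c) = 1 := inv_mul_cancel₀ h
  generalize (∑ j ∈ Finset.range K, (-2 * I) * cexp (I * (2 * j + 1 : ℤ) * (-(z - c)))) = S at h1 ⊢
  linear_combination -(Complex.sin (z - c))⁻¹ * h1 - S * h4

variable {ℓ η : ℝ} {f : ℂ → ℂ}

lemma RectFun.mem_bd (_hf : RectFun ℓ η f) {x y : ℝ} (hx : |x| ≤ π / 2) (hy : |y| ≤ ℓ) :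
    (x : ℂ) + y * I ∈ Rect ℓ := by
  constructor
  · simpa using hx
  · simpa using hy

lemma RectFun.cont_line (hf : RectFun ℓ η f) {y : ℝ} (hy : |y| ≤ ℓ) :
    ContinuousOn (fun x : ℝ => f (x + y * I)) (Icc (-(π / 2)) (π / 2)) := by
  intro x hx
  refine ContinuousAt.continuousWithinAt ?_
  exact ContinuousAt.comp (g := f) (f := fun x : ℝ => (x : ℂ) + y * I)
    (hf.diff _ (hf.mem_bd (abs_le.2 hx) hy)).continuousAt (by fun_prop)

lemma RectFun.BdC (hf : RectFun ℓ η f) : BdC ℓ f := by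
  apply BdC_of (by linarith [hf.hℓ])
  intro z h1 h2 _
  exact (hf.diff z ⟨h1, h2⟩).continuousAt

lemma RectFun.top (hf : RectFun ℓ η f) {c : ℝ} (hc : |c| < π / 2) (K : ℕ) :
    ∫ x : ℝ in (-(π / 2))..(π / 2), f (x + (ℓ : ℝ) * I) * ker c (x + (ℓ : ℝ) * I) =
      ∑ j ∈ Finset.range K, (-2 * I * cexp (-(I * (2 * j + 1 : ℤ) * c))) * md f (2 * j + 1) ℓ +
      ∫ x : ℝ in (-(π / 2))..(π / 2), f (x + (ℓ : ℝ) * I) * ker c (x + (ℓ : ℝ) * I) *
        cexp (2 * I * K * ((x + (ℓ : ℝ) * I) - c)) := by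
  have hℓ : 0 < ℓ := by linarith [hf.hℓ]
  have hcont := hf.cont_line (y := ℓ) (by rw [abs_of_pos hℓ])
  have hker := (ker_BdC hℓ hc).top
  have h1 : ∫ x : ℝ in (-(π / 2))..(π / 2), f (x + (ℓ : ℝ) * I) * ker c (x + (ℓ : ℝ) * I) =
      ∫ x : ℝ in (-(π / 2))..(π / 2), (∑ j ∈ Finset.range K,
        (-2 * I * cexp (-(I * (2 * j + 1 : ℤ) * c))) * (f (x + (ℓ : ℝ) * I) *
          cexp (I * (2 * j + 1 : ℤ) * (x + (ℓ : ℝ) * I))) +
        f (x + (ℓ : ℝ) * I) * ker c (x + (ℓ : ℝ) * I) *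
        cexp (2 * I * K * ((x + (ℓ : ℝ) * I) - c))) := by
    apply intervalIntegral.integral_congr
    intro x hx
    rw [uIcc_of_le pi2] at hx
    have hs : Complex.sin (((x : ℂ) + (ℓ : ℝ) * I) - c) ≠ 0 := by
      apply ker_cont_bd hℓ hc
      · simpa [abs_le] using hx
      · right; simp [abs_of_pos hℓ]
    simp only
    conv_lhs => rw [ker_expand_top c _ hs K]
    rw [mul_add, Finset.mul_sum]
    congr 1
    · apply Finset.sum_congr rfl
      intro j _
      ring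
    · ring
  rw [h1, intervalIntegral.integral_add, intervalIntegral.integral_finsetSum]
  · congr 1
    apply Finset.sum_congr rfl
    intro j _
    rw [intervalIntegral.integral_const_mul]
    rfl
  · intro j _
    apply ii_of_cont pi2
    exact continuousOn_const.mul (hcont.mul (by fun_prop))
  · apply ii_of_cont pi2
    apply continuousOn_finsetSum
    intro j _
    exact continuousOn_const.mul (hcont.mul (by fun_prop))
  · apply ii_of_cont pi2
    exact (hcont.mul hker).mul (by fun_prop)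

lemma RectFun.bot (hf : RectFun ℓ η f) {c : ℝ} (hc : |c| < π / 2) (K : ℕ) :
    ∫ x : ℝ in (-(π / 2))..(π / 2), f (x + (-ℓ : ℝ) * I) * ker c (x + (-ℓ : ℝ) * I) =
      ∑ j ∈ Finset.range K, (2 * I * cexp (I * (2 * j + 1 : ℤ) * c)) * md f (-(2 * j + 1)) (-ℓ) +
      ∫ x : ℝ in (-(π / 2))..(π / 2), f (x + (-ℓ : ℝ) * I) * ker c (x + (-ℓ : ℝ) * I) *
        cexp (-(2 * I * K * ((x + (-ℓ : ℝ) * I) - c))) := by
  have hℓ : 0 < ℓ := by linarith [hf.hℓ]
  have hcont := hf.cont_line (y := -ℓ) (by rw [abs_neg, abs_of_pos hℓ])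
  have hker := (ker_BdC hℓ hc).bot
  have h1 : ∫ x : ℝ in (-(π / 2))..(π / 2), f (x + (-ℓ : ℝ) * I) * ker c (x + (-ℓ : ℝ) * I) =
      ∫ x : ℝ in (-(π / 2))..(π / 2), (∑ j ∈ Finset.range K,
        (2 * I * cexp (I * (2 * j + 1 : ℤ) * c)) * (f (x + (-ℓ : ℝ) * I) *
          cexp (I * (-(2 * j + 1) : ℤ) * (x + (-ℓ : ℝ) * I))) +
        f (x + (-ℓ : ℝ) * I) * ker c (x + (-ℓ : ℝ) * I) *
        cexp (-(2 * I * K * ((x + (-ℓ : ℝ) * I) - c)))) := by
    apply intervalIntegral.integral_congr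
    intro x hx
    rw [uIcc_of_le pi2] at hx
    have hs : Complex.sin (((x : ℂ) + (-ℓ : ℝ) * I) - c) ≠ 0 := by
      apply ker_cont_bd hℓ hc
      · simpa [abs_le] using hx
      · right; simp [abs_of_pos hℓ]
    simp only
    conv_lhs => rw [ker_expand_bot c _ hs K]
    rw [mul_add, Finset.mul_sum]
    congr 1
    · apply Finset.sum_congr rfl
      intro j _
      ring
    · ring
  rw [h1, intervalIntegral.integral_add, intervalIntegral.integral_finsetSum]
  · congr 1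
    apply Finset.sum_congr rfl
    intro j _
    rw [intervalIntegral.integral_const_mul]
    rfl
  · intro j _
    apply ii_of_cont pi2
    exact continuousOn_const.mul (hcont.mul (by fun_prop))
  · apply ii_of_cont pi2
    apply continuousOn_finsetSum
    intro j _
    exact continuousOn_const.mul (hcont.mul (by fun_prop))
  · apply ii_of_cont pi2
    exact (hcont.mul hker).mul (by fun_prop)

lemma RectFun.sides (hf : RectFun ℓ η f) {c : ℝ} (hc : |c| < π / 2) :
    (∫ y : ℝ in (-ℓ)..ℓ, f ((π / 2 : ℝ) + y * I) * ker c ((π / 2 : ℝ) + y * I)) -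
      (∫ y : ℝ in (-ℓ)..ℓ, f ((-(π / 2) : ℝ) + y * I) * ker c ((-(π / 2) : ℝ) + y * I)) =
      2 * ∫ y : ℝ in (-ℓ)..ℓ, (((f ((π / 2 : ℝ) + y * I)).re : ℝ) : ℂ) *
        (Complex.cos (c - y * I))⁻¹ := by
  have hℓ : 0 < ℓ := by linarith [hf.hℓ]
  have hl : -ℓ ≤ ℓ := by linarith
  have hpi : (0:ℝ) < π / 2 := by linarith [Real.pi_pos]
  rw [← intervalIntegral.integral_sub, ← intervalIntegral.integral_const_mul]
  · apply intervalIntegral.integral_congr
    intro y hy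
    rw [uIcc_of_le hl] at hy
    have h1 : f ((-(π / 2) : ℝ) + y * I) = (starRingEnd ℂ) (f ((π / 2 : ℝ) + y * I)) := by
      rw [← hf.symm _ (hf.mem_bd (by rw [abs_of_pos hpi]) (abs_le.2 hy))]
      congr 1
      rw [map_add, Complex.conj_ofReal, map_mul, Complex.conj_ofReal, Complex.conj_I]
      push_cast
      ring
    have h2 : ker c ((π / 2 : ℝ) + y * I) = (Complex.cos (c - y * I))⁻¹ := by
      unfold ker
      congr 1
      rw [← Complex.cos_pi_div_two_sub]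
      congr 1
      push_cast
      ring
    have h3 : ker c ((-(π / 2) : ℝ) + y * I) = -(Complex.cos (c - y * I))⁻¹ := by
      unfold ker
      rw [← inv_neg]
      congr 1
      rw [← Complex.cos_neg (c - y * I), ← Complex.sin_sub_pi_div_two]
      congr 1
      push_cast
      ring
    simp only
    rw [h1, h2, h3]
    have h4 := Complex.add_conj (f ((π / 2 : ℝ) + y * I))
    push_cast at h4 ⊢
    linear_combination ((Complex.cos (c - y * I))⁻¹) * h4
  · apply ii_of_cont hl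
    exact hf.BdC.right.mul (ker_BdC hℓ hc).right
  · apply ii_of_cont hl
    exact hf.BdC.left.mul (ker_BdC hℓ hc).left

lemma rem_tendsto {G : ℝ → ℂ} (hG : ContinuousOn G (Icc (-(π / 2)) (π / 2))) {E : ℕ → ℝ → ℂ}
    {r : ℝ} (hr0 : 0 ≤ r) (hr1 : r < 1) (hE : ∀ K x, ‖E K x‖ ≤ r ^ K) :
    Filter.Tendsto (fun K : ℕ => ∫ x : ℝ in (-(π / 2))..(π / 2), G x * E K x) Filter.atTop
      (nhds 0) := by
  apply squeeze_zero_norm (a := fun K => (∫ x : ℝ in (-(π / 2))..(π / 2), ‖G x‖) * r ^ K)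
  · intro K
    rw [← intervalIntegral.integral_mul_const]
    apply intervalIntegral.norm_integral_le_of_norm_le pi2
    · filter_upwards with x _
      rw [norm_mul]
      exact mul_le_mul_of_nonneg_left (hE K x) (norm_nonneg _)
    · apply ContinuousOn.intervalIntegrable
      rw [uIcc_of_le pi2]
      exact hG.norm.mul continuousOn_const
  · have := (tendsto_pow_atTop_nhds_zero_of_lt_one hr0 hr1).const_mul
      (∫ x : ℝ in (-(π / 2))..(π / 2), ‖G x‖)
    simpa using this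

/-- the expansion of `f c` in Fourier modes at top and bottom -/
lemma RectFun.expand (hf : RectFun ℓ η f) {c : ℝ} (hc : |c| < π / 2) :
    ∃ ρ : ℕ → ℂ, Filter.Tendsto ρ Filter.atTop (nhds 0) ∧ ∀ K : ℕ,
      π * f c = ∑ j ∈ Finset.range K, (cexp (-(I * (2 * j + 1 : ℤ) * c)) * md f (2 * j + 1) ℓ +
        cexp (I * (2 * j + 1 : ℤ) * c) * md f (-(2 * j + 1)) (-ℓ)) + ρ K +
        ∫ y : ℝ in (-ℓ)..ℓ, (((f ((π / 2 : ℝ) + y * I)).re : ℝ) : ℂ) *
          (Complex.cos (c - y * I))⁻¹ := by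
  have hℓ : 0 < ℓ := by linarith [hf.hℓ]
  set RT : ℕ → ℂ := fun K => ∫ x : ℝ in (-(π / 2))..(π / 2),
    f (x + (ℓ : ℝ) * I) * ker c (x + (ℓ : ℝ) * I) * cexp (2 * I * K * ((x + (ℓ : ℝ) * I) - c))
    with hRT
  set RB : ℕ → ℂ := fun K => ∫ x : ℝ in (-(π / 2))..(π / 2),
    f (x + (-ℓ : ℝ) * I) * ker c (x + (-ℓ : ℝ) * I) *
      cexp (-(2 * I * K * ((x + (-ℓ : ℝ) * I) - c))) with hRB
  have hr1 : Real.exp (-2 * ℓ) < 1 := by rw [Real.exp_lt_one_iff]; linarith
  have hT : Filter.Tendsto RT Filter.atTop (nhds 0) := by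
    apply rem_tendsto (r := Real.exp (-2 * ℓ)) _ (Real.exp_pos _).le hr1
    · intro K x
      rw [Complex.norm_exp, ← Real.exp_nat_mul]
      apply le_of_eq
      congr 1
      simp
      ring
    · exact (hf.BdC).top.mul (ker_BdC hℓ hc).top
  have hB : Filter.Tendsto RB Filter.atTop (nhds 0) := by
    apply rem_tendsto (r := Real.exp (-2 * ℓ)) _ (Real.exp_pos _).le hr1
    · intro K x
      rw [Complex.norm_exp, ← Real.exp_nat_mul]
      apply le_of_eq
      congr 1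
      simp
      ring
    · exact (hf.BdC).bot.mul (ker_BdC hℓ hc).bot
  refine ⟨fun K => (RB K - RT K) / (2 * I), ?_, ?_⟩
  · have := (hB.sub hT).div_const (2 * I)
    simpa using this
  · intro K
    have h1 := residue hℓ hc hf.diff
    unfold bd at h1
    have h2 := hf.top hc K
    have h3 := hf.bot hc K
    have h4 := hf.sides hc
    rw [h2, h3] at h1
    have h5 : ∑ j ∈ Finset.range K, (2 * I * cexp (I * (2 * j + 1 : ℤ) * c)) * md f (-(2 * j + 1)) (-ℓ)
        - ∑ j ∈ Finset.range K, (-2 * I * cexp (-(I * (2 * j + 1 : ℤ) * c))) * md f (2 * j + 1) ℓ =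
        2 * I * ∑ j ∈ Finset.range K, (cexp (-(I * (2 * j + 1 : ℤ) * c)) * md f (2 * j + 1) ℓ +
        cexp (I * (2 * j + 1 : ℤ) * c) * md f (-(2 * j + 1)) (-ℓ)) := by
      rw [← Finset.sum_sub_distrib, Finset.mul_sum]
      apply Finset.sum_congr rfl
      intro j _
      ring
    have hI : (2 * I : ℂ) ≠ 0 := by simp
    have h6 : 2 * I * (π * f c) = 2 * I * (∑ j ∈ Finset.range K,
        (cexp (-(I * (2 * j + 1 : ℤ) * c)) * md f (2 * j + 1) ℓ +
        cexp (I * (2 * j + 1 : ℤ) * c) * md f (-(2 * j + 1)) (-ℓ)) + (RB K - RT K) / (2 * I) +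
        ∫ y : ℝ in (-ℓ)..ℓ, (((f ((π / 2 : ℝ) + y * I)).re : ℝ) : ℂ) *
          (Complex.cos (c - y * I))⁻¹) := by
      have h7 : 2 * I * ((RB K - RT K) / (2 * I)) = RB K - RT K := by field_simp
      rw [mul_add, mul_add, h7, ← h5]
      simp only [hRT, hRB]
      linear_combination -h1 + I * h4
    exact mul_left_cancel₀ hI h6

end MP6bd
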