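import Mathlib
import Pool.Agent.Lib.MP_6bd702_sv.RectModes

open Complex MeasureTheory intervalIntegral Set
open scoped Real Interval

/-!
# The rectangle lemma
-/

namespace MP6bd

variable {ℓ η : ℝ} {f : ℂ → ℂ}

lemma RectFun.modes_diff (hf : RectFun ℓ η f) {m : ℤ} (hm : Odd m) :
    ‖md f m ℓ - md f m (-ℓ)‖ ≤ 4 * η * ℓ ^ 2 * Real.exp (|(m : ℝ)| * ℓ) := by
  have hℓ : 0 < ℓ := by linarith [hf.hℓ]
  have hl : -ℓ ≤ ℓ := by linarith
  have hpi : (0:ℝ) < π / 2 := by linarith [Real.pi_pos]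
  have h0 : bd ℓ (fun z => f z * cexp (I * m * z)) = 0 := by
    apply bd_zero hℓ 0
    · exact ContinuousOn.mul (fun z hz => (hf.diff z hz).continuousAt.continuousWithinAt)
        (by fun_prop)
    · intro z h1 h2 _
      exact (hf.diff z ⟨h1.le, h2.le⟩).mul (by fun_prop)
  unfold bd at h0
  have h1 : (∫ y : ℝ in (-ℓ)..ℓ, f ((π / 2 : ℝ) + y * I) * cexp (I * m * ((π / 2 : ℝ) + y * I))) -
      (∫ y : ℝ in (-ℓ)..ℓ, f ((-(π / 2) : ℝ) + y * I) * cexp (I * m * ((-(π / 2) : ℝ) + y * I))) =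
      ∫ y : ℝ in (-ℓ)..ℓ, (2 * (((f ((π / 2 : ℝ) + y * I)).re : ℝ) : ℂ)) *
        cexp (I * m * ((π / 2 : ℝ) + y * I)) := by
    rw [← intervalIntegral.integral_sub]
    · apply intervalIntegral.integral_congr
      intro y hy
      rw [uIcc_of_le hl] at hy
      have h2 : f ((-(π / 2) : ℝ) + y * I) = (starRingEnd ℂ) (f ((π / 2 : ℝ) + y * I)) := by
        rw [← hf.symm _ (hf.mem_bd (by rw [abs_of_pos hpi]) (abs_le.2 hy))]
        congr 1
        rw [map_add, Complex.conj_ofReal, map_mul, Complex.conj_ofReal, Complex.conj_I]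
        push_cast
        ring
      have h3 : cexp (I * m * ((-(π / 2) : ℝ) + y * I)) =
          -cexp (I * m * ((π / 2 : ℝ) + y * I)) := by
        obtain ⟨k, hk⟩ := hm
        have h5 : I * m * ((-(π / 2) : ℝ) + y * I) = I * m * ((π / 2 : ℝ) + y * I) +
            ((-(k + 1) : ℤ) : ℂ) * (2 * π * I) + π * I := by
          rw [hk]
          push_cast
          ring
        rw [h5, Complex.exp_add, Complex.exp_pi_mul_I, Complex.exp_add,
          Complex.exp_int_mul_two_pi_mul_I]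
        ring
      simp only
      rw [h2, h3]
      have h4 := Complex.add_conj (f ((π / 2 : ℝ) + y * I))
      push_cast at h4 ⊢
      linear_combination (cexp (I * m * (π / 2 + y * I))) * h4
    · apply ii_of_cont hl
      exact hf.BdC.right.mul (by fun_prop)
    · apply ii_of_cont hl
      exact hf.BdC.left.mul (by fun_prop)
  have h2 : md f m ℓ - md f m (-ℓ) = I * ∫ y : ℝ in (-ℓ)..ℓ,
      (2 * (((f ((π / 2 : ℝ) + y * I)).re : ℝ) : ℂ)) * cexp (I * m * ((π / 2 : ℝ) + y * I)) := by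
    unfold md
    linear_combination -h0 + I * h1
  rw [h2, norm_mul, norm_I, one_mul]
  have h3 : ∀ y ∈ Set.uIoc (-ℓ) ℓ, ‖(2 * (((f ((π / 2 : ℝ) + y * I)).re : ℝ) : ℂ)) *
      cexp (I * m * ((π / 2 : ℝ) + y * I))‖ ≤ 2 * (η * ℓ) * Real.exp (|(m : ℝ)| * ℓ) := by
    intro y hy
    rw [uIoc_of_le hl] at hy
    have hy' : |y| ≤ ℓ := abs_le.2 ⟨hy.1.le, hy.2⟩
    rw [norm_mul, norm_mul, Complex.norm_exp, Complex.norm_real, Real.norm_eq_abs, Complex.norm_ofNat]
    apply mul_le_mul _ _ (Real.exp_pos _).le (by have := hf.hη; positivity)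
    · apply mul_le_mul_of_nonneg_left _ (by norm_num)
      exact (hf.side y hy').trans (mul_le_mul_of_nonneg_left hy' hf.hη)
    · rw [Real.exp_le_exp]
      have : (I * m * ((π / 2 : ℝ) + y * I)).re = -(m * y) := by simp
      rw [this]
      calc -((m : ℝ) * y) ≤ |(m : ℝ) * y| := neg_le_abs _
        _ = |(m : ℝ)| * |y| := abs_mul _ _
        _ ≤ |(m : ℝ)| * ℓ := mul_le_mul_of_nonneg_left hy' (abs_nonneg _)
  refine (intervalIntegral.norm_integral_le_of_norm_le_const h3).trans (le_of_eq ?_)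
  have h9 : |ℓ - -ℓ| = 2 * ℓ := by
    rw [show ℓ - -ℓ = 2 * ℓ by ring]
    exact abs_of_pos (by linarith)
  rw [h9]
  ring

/-- cosine mode of the real part -/
noncomputable def Ac (f : ℂ → ℂ) (n : ℤ) (y : ℝ) : ℝ :=
  ∫ x : ℝ in (-(π / 2))..(π / 2), (f (x + y * I)).re * Real.cos (n * x)

lemma RectFun.modes_add (hf : RectFun ℓ η f) (n : ℤ) {y : ℝ} (hy : |y| ≤ ℓ) :
    cexp ((n * y : ℝ)) * md f n y + cexp ((-(n * y) : ℝ)) * md f (-n) y = 2 * (Ac f n y : ℝ) := by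
  have hpi : (0:ℝ) < π / 2 := by linarith [Real.pi_pos]
  have hcont := hf.cont_line hy
  have h1 : cexp ((n * y : ℝ)) * md f n y + cexp ((-(n * y) : ℝ)) * md f (-n) y =
      2 * ∫ x : ℝ in (-(π / 2))..(π / 2), f (x + y * I) * (Real.cos (n * x) : ℂ) := by
    unfold md
    rw [← intervalIntegral.integral_const_mul, ← intervalIntegral.integral_const_mul,
      ← intervalIntegral.integral_const_mul, ← intervalIntegral.integral_add]
    · apply intervalIntegral.integral_congr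
      intro x _
      simp only
      have e1 : cexp (I * n * (x + y * I)) = cexp ((-(n * y) : ℝ)) * cexp ((n * x) * I) := by
        rw [← Complex.exp_add]; congr 1; push_cast; linear_combination (n * y : ℂ) * I_sq
      have e2 : cexp (I * ((-n : ℤ) : ℂ) * (x + y * I)) = cexp ((n * y : ℝ)) * cexp (-(n * x) * I) := by
        rw [← Complex.exp_add]; congr 1; push_cast; linear_combination (-(n * y) : ℂ) * I_sq
      have e3 : cexp ((-(n * y) : ℝ)) * cexp ((n * y : ℝ)) = 1 := by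
        rw [← Complex.exp_add, ← ofReal_add]; simp
      have e4 : (Real.cos (n * x) : ℂ) = (cexp ((n * x) * I) + cexp (-(n * x) * I)) / 2 := by
        rw [Complex.ofReal_cos, Complex.cos]; push_cast; rfl
      rw [e1, e2, e4]
      linear_combination (f (x + y * I) * (cexp ((n * x) * I) + cexp (-(n * x) * I))) * e3
    · apply ii_of_cont pi2
      exact continuousOn_const.mul (hcont.mul (by fun_prop))
    · apply ii_of_cont pi2
      exact continuousOn_const.mul (hcont.mul (by fun_prop))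
  rw [h1]
  have h2 : ∫ x : ℝ in (-(π / 2))..(π / 2), f (x + y * I) * (Real.cos (n * x) : ℂ) =
      ∫ x : ℝ in (-(π / 2))..(π / 2), (starRingEnd ℂ) (f (x + y * I)) * (Real.cos (n * x) : ℂ) := by
    have h := intervalIntegral.integral_comp_neg (a := -(π / 2)) (b := π / 2)
      (fun x : ℝ => f (x + y * I) * (Real.cos (n * x) : ℂ))
    rw [neg_neg] at h
    rw [← h]
    apply intervalIntegral.integral_congr
    intro x hx
    rw [uIcc_of_le pi2] at hx
    simp only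
    rw [← hf.symm _ (hf.mem_bd (abs_le.2 hx) hy)]
    congr 2
    · rw [map_add, Complex.conj_ofReal, map_mul, Complex.conj_ofReal, Complex.conj_I]
      push_cast
      ring
    · rw [mul_neg, Real.cos_neg]
  have h3 : 2 * ∫ x : ℝ in (-(π / 2))..(π / 2), f (x + y * I) * (Real.cos (n * x) : ℂ) =
      2 * ∫ x : ℝ in (-(π / 2))..(π / 2), (((f (x + y * I)).re * Real.cos (n * x) : ℝ) : ℂ) := by
    conv_lhs => rw [two_mul]
    conv_lhs => rw [h2]
    conv_lhs => enter [1]; rw [← h2]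
    rw [← intervalIntegral.integral_add, ← intervalIntegral.integral_const_mul]
    · apply intervalIntegral.integral_congr
      intro x _
      simp only
      have h4 := Complex.add_conj (f (x + y * I))
      push_cast at h4 ⊢
      linear_combination (Complex.cos (n * x)) * h4
    · apply ii_of_cont pi2
      exact hcont.mul (by fun_prop)
    · apply ii_of_cont pi2
      exact (Complex.continuous_conj.comp_continuousOn hcont).mul (by fun_prop)
  rw [h3]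
  unfold Ac
  rw [intervalIntegral.integral_ofReal]

lemma abs_cos_odd_le (j : ℕ) (x : ℝ) : |Real.cos ((2 * j + 1 : ℤ) * x)| ≤ (2 * j + 1) * |Real.cos x| := by
  induction j with
  | zero => simp
  | succ j ih =>
    have h1 : ((2 * ((j + 1 : ℕ) : ℤ) + 1 : ℤ) : ℝ) * x = (2 * j + 1 : ℤ) * x + 2 * x := by
      push_cast; ring
    rw [h1, Real.cos_add, Real.sin_two_mul]
    have h2 := Real.abs_cos_le_one (2 * x)
    have h3 := Real.abs_sin_le_one ((2 * j + 1 : ℤ) * x)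
    have h4 := Real.abs_sin_le_one x
    have h5 : |Real.cos ((2 * j + 1 : ℤ) * x) * Real.cos (2 * x)| ≤ (2 * j + 1) * |Real.cos x| := by
      rw [abs_mul]
      calc _ ≤ |Real.cos ((2 * j + 1 : ℤ) * x)| * 1 :=
            mul_le_mul_of_nonneg_left h2 (abs_nonneg _)
        _ ≤ _ := by rw [mul_one]; exact ih
    have h6 : |Real.sin ((2 * j + 1 : ℤ) * x) * (2 * Real.sin x * Real.cos x)| ≤ 2 * |Real.cos x| := by
      rw [abs_mul, abs_mul, abs_mul, abs_two]
      calc |Real.sin ((2 * j + 1 : ℤ) * x)| * (2 * |Real.sin x| * |Real.cos x|) ≤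
          1 * (2 * 1 * |Real.cos x|) := by
            apply mul_le_mul h3 _ (by positivity) (by norm_num)
            apply mul_le_mul_of_nonneg_right _ (abs_nonneg _)
            linarith
        _ = 2 * |Real.cos x| := by ring
    calc _ ≤ |Real.cos ((2 * j + 1 : ℤ) * x) * Real.cos (2 * x)| +
          |Real.sin ((2 * j + 1 : ℤ) * x) * (2 * Real.sin x * Real.cos x)| := abs_sub _ _
      _ ≤ (2 * j + 1) * |Real.cos x| + 2 * |Real.cos x| := add_le_add h5 h6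
      _ = _ := by push_cast; ring

lemma RectFun.Ac_le (hf : RectFun ℓ η f) (j : ℕ) {y : ℝ} (hy : |y| ≤ ℓ) :
    |Ac f (2 * j + 1) y| ≤ (2 * j + 1) * (Ac f 1 y + 4 * η) := by
  have hcont := hf.cont_line hy
  have hre : ContinuousOn (fun x : ℝ => (f (x + y * I)).re) (Icc (-(π / 2)) (π / 2)) :=
    Complex.continuous_re.comp_continuousOn hcont
  have h1 : |Ac f (2 * j + 1) y| ≤ ∫ x : ℝ in (-(π / 2))..(π / 2),
      (2 * j + 1) * (((f (x + y * I)).re + 2 * η) * Real.cos x) := by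
    unfold Ac
    rw [← Real.norm_eq_abs]
    apply intervalIntegral.norm_integral_le_of_norm_le pi2
    · filter_upwards with x hx
      have hx1 : |x| ≤ π / 2 := abs_le.2 ⟨hx.1.le, hx.2⟩
      have hcos : 0 ≤ Real.cos x := Real.cos_nonneg_of_mem_Icc ⟨hx.1.le, hx.2⟩
      have h2 := abs_cos_odd_le j x
      rw [abs_of_nonneg hcos] at h2
      have h3 := hf.low _ (hf.mem_bd hx1 hy)
      have h4 : |(f (x + y * I)).re| ≤ (f (x + y * I)).re + 2 * η := by
        rw [abs_le]; constructor <;> linarith [hf.hη]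
      rw [Real.norm_eq_abs, abs_mul]
      calc |(f (x + y * I)).re| * |Real.cos ((2 * j + 1 : ℤ) * x)| ≤
          ((f (x + y * I)).re + 2 * η) * ((2 * j + 1) * Real.cos x) :=
            mul_le_mul h4 h2 (abs_nonneg _) (le_trans (abs_nonneg _) h4)
        _ = _ := by ring
    · apply ContinuousOn.intervalIntegrable
      rw [uIcc_of_le pi2]
      exact continuousOn_const.mul ((hre.add continuousOn_const).mul (by fun_prop))
  refine h1.trans (le_of_eq ?_)
  rw [intervalIntegral.integral_const_mul]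
  congr 1
  have h2 : ∀ x : ℝ, ((f (x + y * I)).re + 2 * η) * Real.cos x =
      (f (x + y * I)).re * Real.cos ((1 : ℤ) * x) + 2 * η * Real.cos x := by
    intro x; simp; ring
  simp only [h2]
  rw [intervalIntegral.integral_add, intervalIntegral.integral_const_mul, integral_cos]
  · unfold Ac
    simp
    ring
  · apply ContinuousOn.intervalIntegrable
    rw [uIcc_of_le pi2]
    exact hre.mul (by fun_prop)
  · apply Continuous.intervalIntegrable
    fun_prop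

/-- size of the pair of modes number `j` -/
noncomputable def Pj (f : ℂ → ℂ) (ℓ : ℝ) (j : ℕ) : ℝ :=
  ‖md f (2 * j + 1) ℓ‖ + ‖md f (-(2 * j + 1)) (-ℓ)‖

lemma Pj_nonneg (j : ℕ) : 0 ≤ Pj f ℓ j := by unfold Pj; positivity

lemma RectFun.Pj_aux (hf : RectFun ℓ η f) (j : ℕ) :
    Real.exp ((2 * j + 1) * ℓ) * Pj f ℓ j * (1 - Real.exp (-2 * ℓ)) ≤
      (2 * j + 1) * (2 * (Ac f 1 ℓ + Ac f 1 (-ℓ)) + 16 * η) + 8 * η * ℓ ^ 2 := by
  have hℓ : 0 < ℓ := by linarith [hf.hℓ]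
  set n : ℤ := 2 * j + 1 with hn
  have hnr : (n : ℝ) = 2 * j + 1 := by rw [hn]; push_cast; ring
  have hodd : Odd n := ⟨j, by rw [hn]⟩
  have hn1 : (1 : ℝ) ≤ n := by rw [hnr]; have : (0:ℝ) ≤ j := by positivity
                               linarith
  have hyp := hf.modes_add n (y := ℓ) (by rw [abs_of_pos hℓ])
  have hym := hf.modes_add n (y := -ℓ) (by rw [abs_neg, abs_of_pos hℓ])
  have hA1 := hf.Ac_le j (y := ℓ) (by rw [abs_of_pos hℓ])
  have hA2 := hf.Ac_le j (y := -ℓ) (by rw [abs_neg, abs_of_pos hℓ])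
  rw [← hn] at hA1 hA2
  have hd1 := hf.modes_diff hodd
  have hd2 := hf.modes_diff hodd.neg
  have habs : |(n : ℝ)| = n := abs_of_pos (by linarith)
  have habs' : |((-n : ℤ) : ℝ)| = n := by push_cast; rw [abs_neg]; exact habs
  rw [habs] at hd1
  rw [habs'] at hd2
  set E : ℝ := Real.exp (n * ℓ) with hE
  have hE0 : 0 < E := Real.exp_pos _
  have hEi : Real.exp (-(n * ℓ)) = E⁻¹ := by rw [Real.exp_neg]
  have hq : E⁻¹ * E⁻¹ ≤ Real.exp (-2 * ℓ) := by
    rw [← hEi, ← Real.exp_add, Real.exp_le_exp]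
    nlinarith
  have e1 : cexp ((n * ℓ : ℝ)) = (E : ℂ) := by rw [hE]; push_cast; rfl
  have e2 : cexp ((-(n * ℓ) : ℝ)) = ((E⁻¹ : ℝ) : ℂ) := by rw [← hEi]; push_cast; rfl
  have e3 : cexp ((n * -ℓ : ℝ)) = ((E⁻¹ : ℝ) : ℂ) := by rw [← e2]; congr 2; ring
  have e4 : cexp ((-(n * -ℓ) : ℝ)) = (E : ℂ) := by rw [← e1]; congr 2; ring
  rw [e1, e2] at hyp
  rw [e3, e4] at hym
  have h1 : E * ‖md f n ℓ‖ ≤ 2 * |Ac f n ℓ| + E⁻¹ * ‖md f (-n) ℓ‖ := by
    have h : (E : ℂ) * md f n ℓ = 2 * (Ac f n ℓ : ℝ) - ((E⁻¹ : ℝ) : ℂ) * md f (-n) ℓ := by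
      linear_combination hyp
    have h' := congrArg norm h
    rw [norm_mul, Complex.norm_real, Real.norm_of_nonneg hE0.le] at h'
    rw [h']
    refine (norm_sub_le _ _).trans (le_of_eq ?_)
    rw [norm_mul, norm_mul, Complex.norm_real, Complex.norm_real, Complex.norm_ofNat,
      Real.norm_of_nonneg (inv_nonneg.2 hE0.le), Real.norm_eq_abs]
  have h2 : E * ‖md f (-n) (-ℓ)‖ ≤ 2 * |Ac f n (-ℓ)| + E⁻¹ * ‖md f n (-ℓ)‖ := by
    have h : (E : ℂ) * md f (-n) (-ℓ) = 2 * (Ac f n (-ℓ) : ℝ) - ((E⁻¹ : ℝ) : ℂ) * md f n (-ℓ) := by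
      linear_combination hym
    have h' := congrArg norm h
    rw [norm_mul, Complex.norm_real, Real.norm_of_nonneg hE0.le] at h'
    rw [h']
    refine (norm_sub_le _ _).trans (le_of_eq ?_)
    rw [norm_mul, norm_mul, Complex.norm_real, Complex.norm_real, Complex.norm_ofNat,
      Real.norm_of_nonneg (inv_nonneg.2 hE0.le), Real.norm_eq_abs]
  have h3 : ‖md f (-n) ℓ‖ ≤ ‖md f (-n) (-ℓ)‖ + 4 * η * ℓ ^ 2 * E := by
    have := norm_add_le (md f (-n) ℓ - md f (-n) (-ℓ)) (md f (-n) (-ℓ))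
    rw [sub_add_cancel] at this
    linarith
  have h4 : ‖md f n (-ℓ)‖ ≤ ‖md f n ℓ‖ + 4 * η * ℓ ^ 2 * E := by
    have := norm_sub_le (md f n ℓ) (md f n ℓ - md f n (-ℓ))
    rw [sub_sub_cancel] at this
    linarith
  have hEE : E⁻¹ * E = 1 := inv_mul_cancel₀ hE0.ne'
  have hEi0 : 0 < E⁻¹ := inv_pos.2 hE0
  have h5 : E⁻¹ * ‖md f (-n) ℓ‖ ≤ Real.exp (-2 * ℓ) * (E * ‖md f (-n) (-ℓ)‖) + 4 * η * ℓ ^ 2 := by
    calc E⁻¹ * ‖md f (-n) ℓ‖ ≤ E⁻¹ * (‖md f (-n) (-ℓ)‖ + 4 * η * ℓ ^ 2 * E) :=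
          mul_le_mul_of_nonneg_left h3 hEi0.le
      _ = (E⁻¹ * E⁻¹) * (E * ‖md f (-n) (-ℓ)‖) + 4 * η * ℓ ^ 2 := by
          linear_combination (4 * η * ℓ ^ 2 - E⁻¹ * ‖md f (-n) (-ℓ)‖) * hEE
      _ ≤ _ := by
          have := mul_le_mul_of_nonneg_right hq (by positivity : 0 ≤ E * ‖md f (-n) (-ℓ)‖)
          linarith
  have h6 : E⁻¹ * ‖md f n (-ℓ)‖ ≤ Real.exp (-2 * ℓ) * (E * ‖md f n ℓ‖) + 4 * η * ℓ ^ 2 := by
    calc E⁻¹ * ‖md f n (-ℓ)‖ ≤ E⁻¹ * (‖md f n ℓ‖ + 4 * η * ℓ ^ 2 * E) :=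
          mul_le_mul_of_nonneg_left h4 hEi0.le
      _ = (E⁻¹ * E⁻¹) * (E * ‖md f n ℓ‖) + 4 * η * ℓ ^ 2 := by
          linear_combination (4 * η * ℓ ^ 2 - E⁻¹ * ‖md f n ℓ‖) * hEE
      _ ≤ _ := by
          have := mul_le_mul_of_nonneg_right hq (by positivity : 0 ≤ E * ‖md f n ℓ‖)
          linarith
  have h7 : Pj f ℓ j = ‖md f n ℓ‖ + ‖md f (-n) (-ℓ)‖ := rfl
  rw [← hnr, h7]
  rw [← hnr] at hA1 hA2
  linarith

lemma RectFun.main_aux (hf : RectFun ℓ η f) :
    2 * (Ac f 1 ℓ + Ac f 1 (-ℓ)) ≤ (1 + Real.exp (-2 * ℓ)) * (Real.exp ℓ *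
      (md f 1 ℓ + md f (-1) (-ℓ)).re) + 8 * η * ℓ ^ 2 := by
  have hℓ : 0 < ℓ := by linarith [hf.hℓ]
  have hyp := hf.modes_add 1 (y := ℓ) (by rw [abs_of_pos hℓ])
  have hym := hf.modes_add 1 (y := -ℓ) (by rw [abs_neg, abs_of_pos hℓ])
  have hodd : Odd (1 : ℤ) := odd_one
  have hd1 := hf.modes_diff hodd
  have hd2 := hf.modes_diff hodd.neg
  have habs : |((1 : ℤ) : ℝ)| = 1 := by simp
  have habs' : |((-1 : ℤ) : ℝ)| = 1 := by simp
  rw [habs, one_mul] at hd1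
  rw [habs', one_mul] at hd2
  set E : ℝ := Real.exp ℓ with hE
  have hE0 : 0 < E := Real.exp_pos _
  have hEi : Real.exp (-ℓ) = E⁻¹ := by rw [Real.exp_neg]
  have hq : Real.exp (-2 * ℓ) = E⁻¹ * E⁻¹ := by
    rw [← hEi, ← Real.exp_add]
    congr 1
    ring
  have e1 : cexp (((1 : ℤ) * ℓ : ℝ)) = (E : ℂ) := by rw [hE]; push_cast; rw [one_mul]
  have e2 : cexp ((-((1 : ℤ) * ℓ) : ℝ)) = ((E⁻¹ : ℝ) : ℂ) := by rw [← hEi]; push_cast; rw [one_mul]
  have e3 : cexp (((1 : ℤ) * -ℓ : ℝ)) = ((E⁻¹ : ℝ) : ℂ) := by rw [← e2]; congr 2; ring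
  have e4 : cexp ((-((1 : ℤ) * -ℓ) : ℝ)) = (E : ℂ) := by rw [← e1]; congr 2; ring
  rw [e1, e2] at hyp
  rw [e3, e4] at hym
  have hyp' := congrArg Complex.re hyp
  have hym' := congrArg Complex.re hym
  simp only [add_re, ofReal_re, ofReal_im, mul_re, re_ofNat, im_ofNat, zero_mul, sub_zero]
    at hyp' hym'
  have h3 : (md f (-1) ℓ).re - (md f (-1) (-ℓ)).re ≤ 4 * η * ℓ ^ 2 * E := by
    rw [← sub_re]
    exact (Complex.re_le_norm _).trans hd2
  have h4 : (md f 1 (-ℓ)).re - (md f 1 ℓ).re ≤ 4 * η * ℓ ^ 2 * E := by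
    rw [← sub_re]
    refine (Complex.re_le_norm _).trans ?_
    rw [norm_sub_rev]
    exact hd1
  have hEE : E⁻¹ * E = 1 := inv_mul_cancel₀ hE0.ne'
  have hEi0 : 0 < E⁻¹ := inv_pos.2 hE0
  have h5 := mul_le_mul_of_nonneg_left h3 hEi0.le
  have h6 := mul_le_mul_of_nonneg_left h4 hEi0.le
  have h7 : E⁻¹ * (4 * η * ℓ ^ 2 * E) = 4 * η * ℓ ^ 2 := by
    linear_combination (4 * η * ℓ ^ 2) * hEE
  rw [h7] at h5 h6
  rw [hq, add_re]
  have h8 : (1 + E⁻¹ * E⁻¹) * (E * ((md f 1 ℓ).re + (md f (-1) (-ℓ)).re)) =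
      E * ((md f 1 ℓ).re + (md f (-1) (-ℓ)).re) + E⁻¹ * ((md f 1 ℓ).re + (md f (-1) (-ℓ)).re) := by
    linear_combination (E⁻¹ * ((md f 1 ℓ).re + (md f (-1) (-ℓ)).re)) * hEE
  rw [h8]
  linarith

end MP6bd
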