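import Mathlib
import Pool.Agent.Lib.MP_6bd702_sv.RectBound

open Complex MeasureTheory intervalIntegral Set
open scoped Real Interval

/-!
# The rectangle lemma: conclusion
-/

namespace MP6bd

variable {ℓ η : ℝ} {f : ℂ → ℂ}

lemma geo_bound {x : ℝ} (hx0 : 0 ≤ x) (hx1 : x < 1) (K : ℕ) :
    ∑ j ∈ Finset.range K, x ^ (j + 1) ≤ x / (1 - x) := by
  rw [le_div_iff₀ (by linarith)]
  have h : (∑ j ∈ Finset.range K, x ^ (j + 1)) * (1 - x) = x - x ^ (K + 1) := by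
    induction K with
    | zero => simp
    | succ K ih =>
      rw [Finset.sum_range_succ, add_mul, ih]
      ring
  rw [h]
  have : 0 ≤ x ^ (K + 1) := pow_nonneg hx0 _
  linarith

lemma odd_le_pow (j : ℕ) : (2 * (j : ℝ) + 1) ≤ 3 ^ j := by
  induction j with
  | zero => simp
  | succ j ih =>
    have : (1 : ℝ) ≤ 3 ^ j := one_le_pow₀ (by norm_num)
    push_cast
    rw [pow_succ]
    linarith

lemma RectFun.q_le (hf : RectFun ℓ η f) : Real.exp (-2 * ℓ) ≤ 1 / 50 := by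
  have h1 : Real.exp (-2 * ℓ) ≤ Real.exp (-4) := by
    rw [Real.exp_le_exp]; linarith [hf.hℓ]
  have h2 : Real.exp (-4) ≤ 1 / 50 := by
    rw [Real.exp_neg, inv_eq_one_div]
    apply one_div_le_one_div_of_le (by norm_num)
    have h3 : Real.exp 4 = Real.exp 1 ^ 4 := by
      rw [← Real.exp_nat_mul]; norm_num
    rw [h3]
    have h4 := Real.exp_one_gt_d9
    calc (50 : ℝ) ≤ 2.7 ^ 4 := by norm_num
      _ ≤ Real.exp 1 ^ 4 := by
        apply pow_le_pow_left₀ (by norm_num)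
        linarith
  linarith

/-- the main mode -/
noncomputable def tm (f : ℂ → ℂ) (ℓ : ℝ) : ℝ := (md f 1 ℓ + md f (-1) (-ℓ)).re

/-- the comparison constant -/
noncomputable def wm (f : ℂ → ℂ) (ℓ η : ℝ) : ℝ :=
  ((1 + Real.exp (-2 * ℓ)) * tm f ℓ + 16 * η * (ℓ ^ 2 + 1)) / (1 - Real.exp (-2 * ℓ))

lemma RectFun.Pj_le (hf : RectFun ℓ η f) (j : ℕ) :
    Pj f ℓ j ≤ (2 * j + 1) * Real.exp (-2 * ℓ) ^ j * wm f ℓ η := by
  have hℓ : 0 < ℓ := by linarith [hf.hℓ]
  have hη := hf.hη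
  have h1 := hf.Pj_aux j
  have h2 := hf.main_aux
  have hq := hf.q_le
  set q := Real.exp (-2 * ℓ) with hqd
  have hq0 : 0 < q := Real.exp_pos _
  have hj : (0 : ℝ) ≤ j := by positivity
  have h3 : Real.exp (-((2 * j + 1) * ℓ)) * Real.exp ((2 * j + 1) * ℓ) = 1 := by
    rw [← Real.exp_add]; simp
  have h4 : Real.exp (-((2 * j + 1) * ℓ)) = q ^ j * Real.exp (-ℓ) := by
    rw [hqd, ← Real.exp_nat_mul, ← Real.exp_add]; congr 1; ring
  have h5 : Real.exp (-ℓ) * Real.exp ℓ = 1 := by rw [← Real.exp_add]; simp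
  have h6 : Real.exp (-ℓ) ≤ 1 := by rw [Real.exp_le_one_iff]; linarith
  have h7 : 0 < Real.exp (-ℓ) := Real.exp_pos _
  have h8 : 0 < q ^ j := pow_pos hq0 j
  have h10 : (2 * (j : ℝ) + 1) * (2 * (Ac f 1 ℓ + Ac f 1 (-ℓ)) + 16 * η) + 8 * η * ℓ ^ 2 ≤
      (2 * j + 1) * ((1 + q) * (Real.exp ℓ * tm f ℓ) + 16 * η * (ℓ ^ 2 + 1)) := by
    have h11 := mul_le_mul_of_nonneg_left h2 (by linarith : (0:ℝ) ≤ 2 * j + 1)
    have h12 : (0:ℝ) ≤ 2 * j * (8 * η * ℓ ^ 2) := by positivity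
    unfold tm
    linarith
  have h13 := h1.trans h10
  have h14 := mul_le_mul_of_nonneg_left h13 (by positivity : 0 ≤ Real.exp (-((2 * j + 1) * ℓ)))
  have h15 : Real.exp (-((2 * j + 1) * ℓ)) * (Real.exp ((2 * j + 1) * ℓ) * Pj f ℓ j * (1 - q)) =
      Pj f ℓ j * (1 - q) := by
    linear_combination (Pj f ℓ j * (1 - q)) * h3
  rw [h15, h4] at h14
  have h16 : q ^ j * Real.exp (-ℓ) * ((2 * j + 1) * ((1 + q) * (Real.exp ℓ * tm f ℓ) +
      16 * η * (ℓ ^ 2 + 1))) = (2 * j + 1) * q ^ j * ((1 + q) * tm f ℓ) +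
      (2 * j + 1) * q ^ j * (16 * η * (ℓ ^ 2 + 1) * Real.exp (-ℓ)) := by
    linear_combination ((2 * j + 1) * q ^ j * ((1 + q) * tm f ℓ)) * h5
  rw [h16] at h14
  have h17 : (2 * (j : ℝ) + 1) * q ^ j * (16 * η * (ℓ ^ 2 + 1) * Real.exp (-ℓ)) ≤
      (2 * j + 1) * q ^ j * (16 * η * (ℓ ^ 2 + 1)) := by
    apply mul_le_mul_of_nonneg_left _ (by positivity)
    have : 0 ≤ 16 * η * (ℓ ^ 2 + 1) := by positivity
    nlinarith
  unfold wm
  rw [← hqd, mul_div_assoc', le_div_iff₀ (by linarith)]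
  linarith

lemma RectFun.wm_nonneg (hf : RectFun ℓ η f) : 0 ≤ wm f ℓ η := by
  have := hf.Pj_le 0
  have h2 := Pj_nonneg (f := f) (ℓ := ℓ) 0
  simp at this
  linarith

lemma RectFun.sum_Pj (hf : RectFun ℓ η f) (K : ℕ) :
    ∑ j ∈ Finset.range K, Pj f ℓ (j + 1) ≤ 4 * Real.exp (-2 * ℓ) * wm f ℓ η := by
  have hq := hf.q_le
  set q := Real.exp (-2 * ℓ) with hqd
  have hq0 : 0 < q := Real.exp_pos _
  have hw := hf.wm_nonneg
  calc ∑ j ∈ Finset.range K, Pj f ℓ (j + 1) ≤ ∑ j ∈ Finset.range K, (3 * q) ^ (j + 1) * wm f ℓ η := by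
        apply Finset.sum_le_sum
        intro j _
        refine (hf.Pj_le (j + 1)).trans ?_
        apply mul_le_mul_of_nonneg_right _ hw
        rw [mul_pow]
        exact mul_le_mul_of_nonneg_right (by exact_mod_cast odd_le_pow (j + 1)) (by positivity)
    _ = (∑ j ∈ Finset.range K, (3 * q) ^ (j + 1)) * wm f ℓ η := by rw [Finset.sum_mul]
    _ ≤ (3 * q / (1 - 3 * q)) * wm f ℓ η := by
        apply mul_le_mul_of_nonneg_right _ hw
        exact geo_bound (by positivity) (by linarith) K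
    _ ≤ 4 * q * wm f ℓ η := by
        apply mul_le_mul_of_nonneg_right _ hw
        rw [div_le_iff₀ (by linarith)]
        nlinarith

lemma cos_sub_mul_I (c y : ℝ) : Complex.cos (c - y * I) =
    ((Real.cos c * Real.cosh y : ℝ) : ℂ) + ((Real.sin c * Real.sinh y : ℝ) : ℂ) * I := by
  rw [Complex.cos_sub, Complex.cos_mul_I, Complex.sin_mul_I]
  push_cast
  ring

lemma im_inv_cos_le (c y : ℝ) (hc : Real.cos c ≠ 0) :
    |y| * |((Complex.cos (c - y * I))⁻¹).im| ≤ 1 := by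
  rw [cos_sub_mul_I, Complex.inv_im]
  have h1 : (((Real.cos c * Real.cosh y : ℝ) : ℂ) + ((Real.sin c * Real.sinh y : ℝ) : ℂ) * I).im =
      Real.sin c * Real.sinh y := by
    simp only [add_im, ofReal_im, mul_im, ofReal_re, I_im, I_re, mul_one, mul_zero, add_zero,
      zero_add]
  have h2 : Complex.normSq (((Real.cos c * Real.cosh y : ℝ) : ℂ) +
      ((Real.sin c * Real.sinh y : ℝ) : ℂ) * I) = Real.cos c ^ 2 + Real.sinh y ^ 2 := by
    rw [Complex.normSq_add_mul_I]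
    have h3 := Real.cosh_sq y
    have h4 := Real.sin_sq_add_cos_sq c
    linear_combination (Real.cos c ^ 2) * h3 + (Real.sinh y ^ 2) * h4
  rw [h1, h2]
  have h5 : 0 < Real.cos c ^ 2 := by positivity
  have h6 : 0 < Real.cos c ^ 2 + Real.sinh y ^ 2 := by positivity
  rw [abs_div, abs_neg, abs_of_pos h6, mul_div_assoc', div_le_one h6, abs_mul]
  have h7 : |y| ≤ |Real.sinh y| := by
    rcases le_total 0 y with h | h
    · rw [abs_of_nonneg h, abs_of_nonneg (Real.sinh_nonneg_iff.2 h)]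
      exact Real.self_le_sinh_iff.2 h
    · rw [abs_of_nonpos h, abs_of_nonpos (Real.sinh_nonpos_iff.2 h)]
      linarith [Real.sinh_le_self_iff.2 h]
  have h8 := Real.abs_sin_le_one c
  calc |y| * (|Real.sin c| * |Real.sinh y|) ≤ |Real.sinh y| * (1 * |Real.sinh y|) := by
        apply mul_le_mul h7 _ (by positivity) (abs_nonneg _)
        exact mul_le_mul_of_nonneg_right h8 (abs_nonneg _)
    _ = Real.sinh y ^ 2 := by rw [one_mul, ← sq, sq_abs]
    _ ≤ _ := by linarith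

lemma RectFun.side_im (hf : RectFun ℓ η f) {c : ℝ} (hc : |c| < π / 2) :
    |(∫ y : ℝ in (-ℓ)..ℓ, (((f ((π / 2 : ℝ) + y * I)).re : ℝ) : ℂ) *
        (Complex.cos (c - y * I))⁻¹).im| ≤ 2 * η * ℓ := by
  have hℓ : 0 < ℓ := by linarith [hf.hℓ]
  have hl : -ℓ ≤ ℓ := by linarith
  have hcos : 0 < Real.cos c := Real.cos_pos_of_mem_Ioo (abs_lt.1 hc)
  have hne : ∀ y : ℝ, Complex.cos (c - y * I) ≠ 0 := by
    intro y h
    have := im_inv_cos_le c y hcos.ne'
    rw [cos_sub_mul_I] at h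
    have h2 := congrArg Complex.re h
    simp only [add_re, ofReal_re, mul_re, ofReal_im, I_re, I_im, mul_zero, mul_one, sub_self,
      add_zero, zero_re] at h2
    have h3 : 0 < Real.cos c * Real.cosh y := mul_pos hcos (Real.cosh_pos y)
    linarith
  have hcont : ContinuousOn (fun y : ℝ => (((f ((π / 2 : ℝ) + y * I)).re : ℝ) : ℂ) *
        (Complex.cos (c - y * I))⁻¹) (Icc (-ℓ) ℓ) := by
    apply ContinuousOn.mul
    · exact (Complex.continuous_ofReal.comp Complex.continuous_re).comp_continuousOn hf.BdC.right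
    · apply ContinuousOn.inv₀ (by fun_prop)
      intro y _
      exact hne y
  have h1 : (∫ y : ℝ in (-ℓ)..ℓ, (((f ((π / 2 : ℝ) + y * I)).re : ℝ) : ℂ) *
        (Complex.cos (c - y * I))⁻¹).im = ∫ y : ℝ in (-ℓ)..ℓ,
        ((((f ((π / 2 : ℝ) + y * I)).re : ℝ) : ℂ) * (Complex.cos (c - y * I))⁻¹).im := by
    have := Complex.imCLM.intervalIntegral_comp_comm (ii_of_cont hl hcont)
    simpa using this.symm
  rw [h1]
  have h2 : ∀ y ∈ Set.uIoc (-ℓ) ℓ, ‖((((f ((π / 2 : ℝ) + y * I)).re : ℝ) : ℂ) *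
      (Complex.cos (c - y * I))⁻¹).im‖ ≤ η := by
    intro y hy
    rw [uIoc_of_le hl] at hy
    have hy' : |y| ≤ ℓ := abs_le.2 ⟨hy.1.le, hy.2⟩
    rw [Complex.im_ofReal_mul, Real.norm_eq_abs, abs_mul]
    calc |(f ((π / 2 : ℝ) + y * I)).re| * |((Complex.cos (c - y * I))⁻¹).im| ≤
        (η * |y|) * |((Complex.cos (c - y * I))⁻¹).im| :=
          mul_le_mul_of_nonneg_right (hf.side y hy') (abs_nonneg _)
      _ = η * (|y| * |((Complex.cos (c - y * I))⁻¹).im|) := by ring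
      _ ≤ η * 1 := mul_le_mul_of_nonneg_left (im_inv_cos_le c y hcos.ne') hf.hη
      _ = η := mul_one _
  have h3 := intervalIntegral.norm_integral_le_of_norm_le_const h2
  rw [Real.norm_eq_abs] at h3
  have h9 : |ℓ - -ℓ| = 2 * ℓ := by
    rw [show ℓ - -ℓ = 2 * ℓ by ring]
    exact abs_of_pos (by linarith)
  rw [h9] at h3
  linarith

lemma RectFun.side_re (hf : RectFun ℓ η f) :
    ‖∫ y : ℝ in (-ℓ)..ℓ, (((f ((π / 2 : ℝ) + y * I)).re : ℝ) : ℂ) *
        (Complex.cos ((0 : ℝ) - y * I))⁻¹‖ ≤ 2 * η * ℓ ^ 2 := by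
  have hℓ : 0 < ℓ := by linarith [hf.hℓ]
  have hl : -ℓ ≤ ℓ := by linarith
  have h2 : ∀ y ∈ Set.uIoc (-ℓ) ℓ, ‖(((f ((π / 2 : ℝ) + y * I)).re : ℝ) : ℂ) *
      (Complex.cos ((0 : ℝ) - y * I))⁻¹‖ ≤ η * ℓ := by
    intro y hy
    rw [uIoc_of_le hl] at hy
    have hy' : |y| ≤ ℓ := abs_le.2 ⟨hy.1.le, hy.2⟩
    have h3 : Complex.cos ((0 : ℝ) - y * I) = (Real.cosh y : ℂ) := by
      rw [cos_sub_mul_I]; simp
    rw [h3, norm_mul, norm_inv, Complex.norm_real, Complex.norm_real, Real.norm_eq_abs,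
      Real.norm_of_nonneg (Real.cosh_pos y).le]
    calc |(f ((π / 2 : ℝ) + y * I)).re| * (Real.cosh y)⁻¹ ≤ (η * ℓ) * 1 := by
          apply mul_le_mul _ _ (by positivity) (by have := hf.hη; positivity)
          · exact (hf.side y hy').trans (mul_le_mul_of_nonneg_left hy' hf.hη)
          · exact inv_le_one_of_one_le₀ (Real.one_le_cosh y)
      _ = η * ℓ := mul_one _
  have h3 := intervalIntegral.norm_integral_le_of_norm_le_const h2
  have h9 : |ℓ - -ℓ| = 2 * ℓ := by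
    rw [show ℓ - -ℓ = 2 * ℓ by ring]
    exact abs_of_pos (by linarith)
  rw [h9] at h3
  refine h3.trans (le_of_eq ?_)
  ring

lemma norm_pair_le (c : ℝ) (j : ℕ) :
    ‖cexp (-(I * (2 * j + 1 : ℤ) * c)) * md f (2 * j + 1) ℓ +
        cexp (I * (2 * j + 1 : ℤ) * c) * md f (-(2 * j + 1)) (-ℓ)‖ ≤ Pj f ℓ j := by
  unfold Pj
  refine (norm_add_le _ _).trans (le_of_eq ?_)
  rw [norm_mul, norm_mul, Complex.norm_exp, Complex.norm_exp]
  simp

lemma RectFun.im_bound (hf : RectFun ℓ η f) {c : ℝ} (hc : |c| < π / 2) :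
    π * |(f c).im| ≤ (1 + 4 * Real.exp (-2 * ℓ)) * wm f ℓ η + 2 * η * ℓ := by
  obtain ⟨ρ, hρ, h1⟩ := hf.expand hc
  have h2 : ∀ K : ℕ, π * |(f c).im| ≤ (1 + 4 * Real.exp (-2 * ℓ)) * wm f ℓ η + 2 * η * ℓ +
      ‖ρ (K + 1)‖ := by
    intro K
    have h3 := congrArg Complex.im (h1 (K + 1))
    rw [Complex.im_ofReal_mul, Complex.add_im, Complex.add_im] at h3
    have h4 := hf.side_im hc
    have h5 : |(∑ j ∈ Finset.range (K + 1),
        (cexp (-(I * (2 * j + 1 : ℤ) * c)) * md f (2 * j + 1) ℓ +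
        cexp (I * (2 * j + 1 : ℤ) * c) * md f (-(2 * j + 1)) (-ℓ))).im| ≤
        (1 + 4 * Real.exp (-2 * ℓ)) * wm f ℓ η := by
      refine (Complex.abs_im_le_norm _).trans ?_
      refine (norm_sum_le _ _).trans ?_
      refine (Finset.sum_le_sum fun j _ => norm_pair_le c j).trans ?_
      rw [Finset.sum_range_succ']
      have h6 := hf.sum_Pj K
      have h7 := hf.Pj_le 0
      simp only [Nat.cast_zero, mul_zero, zero_add, pow_zero, one_mul, mul_one] at h7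
      linarith
    have h8 := Complex.abs_im_le_norm (ρ (K + 1))
    have h9 : π * |(f c).im| = |π * (f c).im| := by
      rw [abs_mul, abs_of_pos Real.pi_pos]
    rw [h9, h3]
    refine (abs_add_le _ _).trans ?_
    have h10 := abs_add_le (∑ j ∈ Finset.range (K + 1),
        (cexp (-(I * (2 * j + 1 : ℤ) * c)) * md f (2 * j + 1) ℓ +
        cexp (I * (2 * j + 1 : ℤ) * c) * md f (-(2 * j + 1)) (-ℓ))).im (ρ (K + 1)).im
    linarith
  have h3 : Filter.Tendsto (fun K : ℕ => (1 + 4 * Real.exp (-2 * ℓ)) * wm f ℓ η + 2 * η * ℓ +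
      ‖ρ (K + 1)‖) Filter.atTop (nhds ((1 + 4 * Real.exp (-2 * ℓ)) * wm f ℓ η + 2 * η * ℓ + 0)) := by
    apply Filter.Tendsto.const_add
    have := (hρ.comp (Filter.tendsto_add_atTop_nat 1)).norm
    simpa [Function.comp_def] using this
  rw [add_zero] at h3
  exact ge_of_tendsto' h3 h2

lemma RectFun.re_bound (hf : RectFun ℓ η f) :
    tm f ℓ - 4 * Real.exp (-2 * ℓ) * wm f ℓ η - 2 * η * ℓ ^ 2 ≤ π * (f 0).re := by
  obtain ⟨ρ, hρ, h1⟩ := hf.expand (c := 0) (by rw [abs_zero]; linarith [Real.pi_pos])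
  have h2 : ∀ K : ℕ, tm f ℓ - 4 * Real.exp (-2 * ℓ) * wm f ℓ η - 2 * η * ℓ ^ 2 ≤
      π * (f 0).re + ‖ρ (K + 1)‖ := by
    intro K
    have h3 := h1 (K + 1)
    rw [Finset.sum_range_succ'] at h3
    have h3' := congrArg Complex.re h3
    rw [Complex.re_ofReal_mul, Complex.add_re, Complex.add_re, Complex.add_re] at h3'
    have h4 := (Complex.abs_re_le_norm _).trans hf.side_re
    have h5 : |(∑ j ∈ Finset.range K,
        (cexp (-(I * (2 * (j + 1 : ℕ) + 1 : ℤ) * (0 : ℝ))) * md f (2 * (j + 1 : ℕ) + 1) ℓ +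
        cexp (I * (2 * (j + 1 : ℕ) + 1 : ℤ) * (0 : ℝ)) * md f (-(2 * (j + 1 : ℕ) + 1)) (-ℓ))).re| ≤
        4 * Real.exp (-2 * ℓ) * wm f ℓ η := by
      refine (Complex.abs_re_le_norm _).trans ?_
      refine (norm_sum_le _ _).trans ?_
      refine (Finset.sum_le_sum fun j _ => norm_pair_le 0 (j + 1)).trans ?_
      exact hf.sum_Pj K
    have h6 : (cexp (-(I * (2 * (0 : ℕ) + 1 : ℤ) * (0 : ℝ))) * md f (2 * (0 : ℕ) + 1) ℓ +
        cexp (I * (2 * (0 : ℕ) + 1 : ℤ) * (0 : ℝ)) * md f (-(2 * (0 : ℕ) + 1)) (-ℓ)).re = tm f ℓ := by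
      unfold tm
      simp
    have h7 := Complex.abs_re_le_norm (ρ (K + 1))
    have h8 := (abs_le.1 h5).1
    have h9 := (abs_le.1 h7).1
    have h10 := (abs_le.1 h4).1
    rw [h6] at h3'
    have h11 : (f ((0 : ℝ) : ℂ)).re = (f 0).re := by simp
    rw [h11] at h3'
    linarith
  have h3 : Filter.Tendsto (fun K : ℕ => π * (f 0).re + ‖ρ (K + 1)‖) Filter.atTop
      (nhds (π * (f 0).re + 0)) := by
    apply Filter.Tendsto.const_add
    have := (hρ.comp (Filter.tendsto_add_atTop_nat 1)).norm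
    simpa [Function.comp_def] using this
  rw [add_zero] at h3
  exact ge_of_tendsto' h3 h2

/-- the rectangle lemma, interior points -/
lemma RectFun.cone_aux (hf : RectFun ℓ η f) {c : ℝ} (hc : |c| < π / 2) :
    |(f c).im| ≤ (1 + 12 * Real.exp (-2 * ℓ)) * (f 0).re + 16 * (ℓ ^ 2 + 1) * η := by
  have hℓ : 2 ≤ ℓ := hf.hℓ
  have hη := hf.hη
  have h1 := hf.im_bound hc
  have h2 := hf.re_bound
  have hq := hf.q_le
  have hw := hf.wm_nonneg
  have hwd : wm f ℓ η * (1 - Real.exp (-2 * ℓ)) =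
      (1 + Real.exp (-2 * ℓ)) * tm f ℓ + 16 * η * (ℓ ^ 2 + 1) := by
    unfold wm
    rw [div_mul_cancel₀]
    intro h
    linarith
  set q := Real.exp (-2 * ℓ) with hqd
  have hq0 : 0 < q := Real.exp_pos _
  set w := wm f ℓ η
  set t := tm f ℓ
  have hpi := Real.pi_gt_three
  set b := 16 * η * (ℓ ^ 2 + 1) with hb
  have hb0 : 0 ≤ b := by positivity
  -- lower bound for t
  have h3 : (1 - 2 * q) * w - b ≤ t := by
    have h4 : (1 + q) * ((1 - 2 * q) * w - b) ≤ (1 + q) * t := by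
      have h5 : (1 + q) * t = w * (1 - q) - b := by linarith
      rw [h5]
      have h6 : 0 ≤ q * q * w := by positivity
      have h7 : 0 ≤ q * b := by positivity
      nlinarith
    exact le_of_mul_le_mul_left h4 (by linarith)
  have h4 : (1 - 6 * q) * w - b - 2 * η * ℓ ^ 2 ≤ π * (f 0).re := by nlinarith
  have h5 : π * |(f c).im| ≤ (1 + 12 * q) * (π * (f 0).re + b + 2 * η * ℓ ^ 2) + 2 * η * ℓ := by
    have h6 : (1 + 4 * q) * w ≤ (1 + 12 * q) * ((1 - 6 * q) * w) := by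
      have h7 : 0 ≤ q * w * (1 - 36 * q) := by
        apply mul_nonneg (by positivity)
        linarith
      nlinarith
    have h8 : (1 + 12 * q) * ((1 - 6 * q) * w) ≤ (1 + 12 * q) * (π * (f 0).re + b + 2 * η * ℓ ^ 2) := by
      apply mul_le_mul_of_nonneg_left _ (by linarith)
      linarith
    linarith
  have h6 : (1 + 12 * q) * (b + 2 * η * ℓ ^ 2) + 2 * η * ℓ ≤ π * (16 * (ℓ ^ 2 + 1) * η) := by
    have h7 : (1 + 12 * q) * (b + 2 * η * ℓ ^ 2) ≤ (5 / 4) * (b + 2 * η * ℓ ^ 2) := by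
      apply mul_le_mul_of_nonneg_right _ (by positivity)
      linarith
    have h8 : ℓ ≤ ℓ ^ 2 + 1 := by nlinarith
    have h9 : η * ℓ ≤ η * (ℓ ^ 2 + 1) := mul_le_mul_of_nonneg_left h8 hη
    have h10 : η * ℓ ^ 2 ≤ η * (ℓ ^ 2 + 1) := mul_le_mul_of_nonneg_left (by linarith) hη
    have h11 : 3 * (16 * (ℓ ^ 2 + 1) * η) ≤ π * (16 * (ℓ ^ 2 + 1) * η) :=
      mul_le_mul_of_nonneg_right hpi.le (by positivity)
    rw [hb] at h7 ⊢
    linarith
  have h7 : π * |(f c).im| ≤ π * ((1 + 12 * q) * (f 0).re + 16 * (ℓ ^ 2 + 1) * η) := by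
    linarith
  exact le_of_mul_le_mul_left h7 Real.pi_pos

/-- the rectangle lemma -/
theorem RectFun.cone (hf : RectFun ℓ η f) :
    |(f ((π / 2 : ℝ) : ℂ)).im| ≤
      (1 + 12 * Real.exp (-2 * ℓ)) * (f 0).re + 16 * (ℓ ^ 2 + 1) * η := by
  have hℓ : 0 < ℓ := by linarith [hf.hℓ]
  have hpi : (0:ℝ) < π / 2 := by linarith [Real.pi_pos]
  have hmem : ((π / 2 : ℝ) : ℂ) ∈ Rect ℓ := by
    have := hf.mem_bd (x := π / 2) (y := 0) (by rw [abs_of_pos hpi]) (by rw [abs_zero]; linarith)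
    simpa using this
  have hc : ContinuousAt (fun c : ℝ => |(f (c : ℂ)).im|) (π / 2) := by
    apply ContinuousAt.abs
    apply Complex.continuous_im.continuousAt.comp
    exact ContinuousAt.comp (g := f) (f := fun c : ℝ => (c : ℂ)) (hf.diff _ hmem).continuousAt
      Complex.continuous_ofReal.continuousAt
  have h1 : Filter.Tendsto (fun c : ℝ => |(f (c : ℂ)).im|) (nhdsWithin (π / 2) (Iio (π / 2)))
      (nhds |(f ((π / 2 : ℝ) : ℂ)).im|) := hc.tendsto.mono_left nhdsWithin_le_nhds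
  refine le_of_tendsto h1 ?_
  have h2 : Ioo (-(π / 2)) (π / 2) ∈ nhdsWithin (π / 2) (Iio (π / 2)) :=
    Ioo_mem_nhdsLT (by linarith)
  filter_upwards [h2] with c hc'
  exact hf.cone_aux (abs_lt.2 hc')

end MP6bd
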