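import Mathlib
import Pool.Agent.Lib.MP_6bd702_sv.RectCone

open Complex
open scoped Real

/-!
# The class of functions on the strip `|Re z| ≤ π / 2`

`z = 3 (w - π / 6)`; the sides `Re z = ± π / 2` are `Re w = 0`, `Re w = π / 3`.
-/

namespace MP6bd

/-- functions on the strip `|Re z| ≤ π/2`, almost unimodular on the sides up to height `ℓ` -/
structure CF (ℓ δ η : ℝ) (G : ℂ → ℂ) : Prop where
  diff : ∀ z : ℂ, |z.re| < 5 * π / 6 → DifferentiableAt ℂ G z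
  symm : ∀ z : ℂ, |z.re| ≤ π / 2 → G (-(starRingEnd ℂ) z) = (starRingEnd ℂ) (G z)
  bdd : ∃ C : ℝ, ∀ z : ℂ, |z.re| ≤ π / 2 → ‖G z‖ ≤ C
  side_le : ∀ y : ℝ, ‖G ((π / 2 : ℝ) + y * I)‖ ≤ Real.exp (δ / 2 * Real.cosh (2 * y / 3))
  side_near : ∀ y : ℝ, |y| ≤ ℓ → Real.exp (-(η * |y|)) ≤ ‖G ((π / 2 : ℝ) + y * I)‖ ∧
    ‖G ((π / 2 : ℝ) + y * I)‖ ≤ Real.exp (η * |y|)
  zeros : ∀ z ∈ Rect ℓ, G z = 0 → |Real.sin z.re| ≤ Real.exp (-ℓ)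

end MP6bd
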