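import Mathlib
import Pool.Agent.Lib.MP_6bd702_sv.CF

open Complex Set
open scoped Real

/-!
# The maximum principle in the class `CF`
-/

namespace MP6bd

variable {ℓ δ η : ℝ} {G : ℂ → ℂ}

lemma abs_re_strip {z : ℂ} (h : |z.re| ≤ π / 2) : |z.re| < 5 * π / 6 := by
  have := Real.pi_pos
  linarith

lemma CF.norm_left (hG : CF ℓ δ η G) (y : ℝ) :
    ‖G ((-(π / 2) : ℝ) + y * I)‖ = ‖G ((π / 2 : ℝ) + y * I)‖ := by
  have hpi : (0:ℝ) < π / 2 := by linarith [Real.pi_pos]
  have h := hG.symm ((π / 2 : ℝ) + y * I) (by simp [abs_of_pos hpi])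
  have h2 : -(starRingEnd ℂ) (((π / 2 : ℝ) : ℂ) + y * I) = ((-(π / 2) : ℝ) : ℂ) + y * I := by
    rw [map_add, Complex.conj_ofReal, map_mul, Complex.conj_ofReal, Complex.conj_I]
    push_cast
    ring
  rw [h2] at h
  rw [h, Complex.norm_conj]

lemma re_cos_two_thirds (z : ℂ) : (Complex.cos (2 * z / 3)).re =
    Real.cos (2 * z.re / 3) * Real.cosh (2 * z.im / 3) := by
  have h : (2 * z / 3 : ℂ) = ((2 * z.re / 3 : ℝ) : ℂ) + ((2 * z.im / 3 : ℝ) : ℂ) * I := by
    conv_lhs => rw [← Complex.re_add_im z]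
    push_cast
    ring
  rw [h, Complex.cos_add_mul_I, ← Complex.ofReal_cos, ← Complex.ofReal_cosh, ← Complex.ofReal_sin,
    ← Complex.ofReal_sinh]
  simp only [sub_re, mul_re, ofReal_re, ofReal_im, I_re, I_im, mul_zero, sub_zero, mul_im,
    zero_mul, add_zero]

theorem CF.max (hG : CF ℓ δ η G) (hδ : 0 ≤ δ) {z : ℂ} (hz : |z.re| ≤ π / 2) :
    ‖G z‖ ≤ Real.exp (δ * Real.cosh (2 * z.im / 3)) := by
  have hpi : (0:ℝ) < π / 2 := by linarith [Real.pi_pos]
  have hpp := Real.pi_pos
  set F : ℂ → ℂ := fun z => G z * cexp (-(δ * Complex.cos (2 * z / 3))) with hF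
  have hnorm : ∀ z : ℂ, ‖F z‖ = ‖G z‖ * Real.exp (-(δ * (Real.cos (2 * z.re / 3) *
      Real.cosh (2 * z.im / 3)))) := by
    intro z
    rw [hF]
    simp only
    rw [norm_mul, Complex.norm_exp, Complex.neg_re, Complex.re_ofReal_mul, re_cos_two_thirds]
  have hcos : ∀ x : ℝ, |x| ≤ π / 2 → 1 / 2 ≤ Real.cos (2 * x / 3) := by
    intro x hx
    rw [← Real.cos_pi_div_three, ← Real.cos_abs (2 * x / 3)]
    apply Real.cos_le_cos_of_nonneg_of_le_pi (abs_nonneg _) (by linarith)
    rw [abs_div, abs_mul, abs_two, abs_of_pos (by norm_num : (0:ℝ) < 3)]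
    linarith
  obtain ⟨C, hC⟩ := hG.bdd
  have hC0 : 0 ≤ C := (norm_nonneg _).trans (hC 0 (by simp [hpi.le]))
  have hsub : closure (Complex.re ⁻¹' Ioo (-(π / 2)) (π / 2)) ⊆ {z : ℂ | |z.re| ≤ π / 2} := by
    apply closure_minimal
    · rintro z ⟨h1, h2⟩
      exact abs_le.2 ⟨h1.le, h2.le⟩
    · exact isClosed_le (continuous_abs.comp Complex.continuous_re) continuous_const
  have hFd : ∀ z : ℂ, |z.re| ≤ π / 2 → DifferentiableAt ℂ F z := by
    intro z hz
    exact (hG.diff z (abs_re_strip hz)).mul (by fun_prop)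
  have hside : ∀ z : ℂ, |z.re| = π / 2 → ‖F z‖ ≤ 1 := by
    intro z hz
    have h1 : ‖G z‖ ≤ Real.exp (δ / 2 * Real.cosh (2 * z.im / 3)) := by
      rcases (abs_eq hpi.le).1 hz with h | h
      · have h2 := hG.side_le z.im
        rw [← h, Complex.re_add_im] at h2
        exact h2
      · have h2 := hG.side_le z.im
        rw [← hG.norm_left, ← h, Complex.re_add_im] at h2
        exact h2
    rw [hnorm]
    have h3 : Real.cos (2 * z.re / 3) = 1 / 2 := by
      rw [← Real.cos_abs, abs_div, abs_mul, abs_two, hz, abs_of_pos (by norm_num : (0:ℝ) < 3),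
        ← Real.cos_pi_div_three]
      congr 1
      ring
    rw [h3]
    calc _ ≤ Real.exp (δ / 2 * Real.cosh (2 * z.im / 3)) *
          Real.exp (-(δ * (1 / 2 * Real.cosh (2 * z.im / 3)))) :=
          mul_le_mul_of_nonneg_right h1 (Real.exp_pos _).le
      _ = 1 := by
        rw [← Real.exp_add]
        rw [show δ / 2 * Real.cosh (2 * z.im / 3) + -(δ * (1 / 2 * Real.cosh (2 * z.im / 3))) = 0
          by ring, Real.exp_zero]
  have hmain : ‖F z‖ ≤ 1 := by
    refine PhragmenLindelof.vertical_strip (f := F) (a := -(π / 2)) (b := π / 2) ⟨?_, ?_⟩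
      ⟨0, ?_, 0, ?_⟩ ?_ ?_ (abs_le.1 hz).1 (abs_le.1 hz).2
    · rintro w ⟨h1, h2⟩
      exact (hFd w (abs_le.2 ⟨h1.le, h2.le⟩)).differentiableWithinAt
    · intro w hw
      exact (hFd w (hsub hw)).continuousAt.continuousWithinAt
    · apply div_pos Real.pi_pos; linarith
    · apply Asymptotics.IsBigO.of_bound C
      apply Filter.Eventually.filter_mono inf_le_right
      rw [Filter.eventually_principal]
      rintro w ⟨h1, h2⟩
      have hw : |w.re| ≤ π / 2 := abs_le.2 ⟨h1.le, h2.le⟩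
      rw [hnorm]
      simp only [zero_mul, Real.exp_zero, norm_one, mul_one]
      calc _ ≤ C * 1 := by
            apply mul_le_mul (hC w hw) _ (Real.exp_pos _).le hC0
            rw [Real.exp_le_one_iff]
            have h3 := hcos w.re hw
            have h4 : 0 ≤ δ * (Real.cos (2 * w.re / 3) * Real.cosh (2 * w.im / 3)) := by
              have := Real.cosh_pos (2 * w.im / 3)
              apply mul_nonneg hδ
              apply mul_nonneg _ this.le
              linarith
            linarith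
        _ = C := mul_one C
    · intro w hw
      exact hside w (by rw [hw, abs_neg, abs_of_pos hpi])
    · intro w hw
      exact hside w (by rw [hw, abs_of_pos hpi])
  rw [hnorm] at hmain
  have h5 : ‖G z‖ ≤ Real.exp (δ * (Real.cos (2 * z.re / 3) * Real.cosh (2 * z.im / 3))) := by
    rw [Real.exp_neg] at hmain
    have h6 := Real.exp_pos (δ * (Real.cos (2 * z.re / 3) * Real.cosh (2 * z.im / 3)))
    rwa [mul_inv_le_iff₀ h6, one_mul] at hmain
  refine h5.trans ?_
  rw [Real.exp_le_exp]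
  apply mul_le_mul_of_nonneg_left _ hδ
  have := Real.cosh_pos (2 * z.im / 3)
  calc _ ≤ 1 * Real.cosh (2 * z.im / 3) := mul_le_mul_of_nonneg_right (Real.cos_le_one _) this.le
    _ = _ := one_mul _

end MP6bd
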