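import Mathlib
import Pool.Agent.Lib.MP_6bd702_sv.CFMax

open Complex Set
open scoped Real

/-!
# The logarithm of a zero free function in the class `CF`
-/

namespace MP6bd

variable {ℓ δ η : ℝ} {G : ℂ → ℂ}

lemma rect_eq (ℓ : ℝ) : Rect ℓ = Icc (-(π / 2)) (π / 2) ×ℂ Icc (-ℓ) ℓ := by
  ext z
  simp only [Rect, mem_ofPred_eq, mem_reProdIm, mem_Icc, abs_le]

lemma rect_compact (ℓ : ℝ) : IsCompact (Rect ℓ) := by
  rw [rect_eq]
  exact isCompact_Icc.reProdIm isCompact_Icc

lemma rect_convex (ℓ : ℝ) : Convex ℝ (Rect ℓ) := by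
  rw [rect_eq]
  exact ((convex_Icc (-(π / 2)) (π / 2)).linear_preimage Complex.reLm).inter
    ((convex_Icc (-ℓ) ℓ).linear_preimage Complex.imLm)

/-- a continuous real function with integer values which starts at `0` -/
lemma int_path {ψ : ℝ → ℝ} (hc : ContinuousOn ψ (Icc 0 1)) (h0 : ψ 0 = 0)
    (hint : ∀ t ∈ Icc (0:ℝ) 1, ∃ n : ℤ, ψ t = n) : ψ 1 = 0 := by
  obtain ⟨n, hn⟩ := hint 1 (by simp)
  by_contra hne
  have hn0 : n ≠ 0 := by
    rintro rfl
    apply hne
    rw [hn]; simp
  rcases lt_or_gt_of_ne hn0 with h | h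
  · have h1 : (n : ℝ) ≤ -1 := by
      have : n ≤ -1 := by omega
      exact_mod_cast this
    have h2 := intermediate_value_Icc' (by norm_num : (0:ℝ) ≤ 1) hc
    have h3 : (-1/2 : ℝ) ∈ Icc (ψ 1) (ψ 0) := by
      rw [hn, h0]; constructor <;> linarith
    obtain ⟨t, ht, ht2⟩ := h2 h3
    obtain ⟨m, hm⟩ := hint t ht
    rw [hm] at ht2
    have h4 : (2 * m : ℝ) = -1 := by linarith
    have h5 : 2 * m = -1 := by exact_mod_cast h4
    omega
  · have h1 : (1 : ℝ) ≤ n := by
      have : 1 ≤ n := by omega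
      exact_mod_cast this
    have h2 := intermediate_value_Icc (by norm_num : (0:ℝ) ≤ 1) hc
    have h3 : (1/2 : ℝ) ∈ Icc (ψ 0) (ψ 1) := by
      rw [hn, h0]; constructor <;> linarith
    obtain ⟨t, ht, ht2⟩ := h2 h3
    obtain ⟨m, hm⟩ := hint t ht
    rw [hm] at ht2
    have h4 : (2 * m : ℝ) = 1 := by linarith
    have h5 : 2 * m = 1 := by exact_mod_cast h4
    omega

lemma exists_log {g : ℂ → ℂ} (ℓ : ℝ) (hℓ : 0 ≤ ℓ)
    (hd : ∀ z : ℂ, |z.re| < 5 * π / 6 → DifferentiableAt ℂ g z)
    (h0 : ∀ z ∈ Rect ℓ, g z ≠ 0) :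
    ∃ f : ℂ → ℂ, (∀ z ∈ Rect ℓ, DifferentiableAt ℂ f z) ∧ ∀ z ∈ Rect ℓ, cexp (f z) = g z := by
  have hpp := Real.pi_pos
  have hpi : (0:ℝ) < π / 2 := by linarith [Real.pi_pos]
  set V : Set ℂ := {z : ℂ | |z.re| < 5 * π / 6} with hV
  have hVo : IsOpen V := isOpen_lt (continuous_abs.comp Complex.continuous_re) continuous_const
  have hgc : ContinuousOn g V := fun z hz => (hd z hz).continuousAt.continuousWithinAt
  have hto : IsOpen (V ∩ g ⁻¹' {0}ᶜ) := hgc.isOpen_inter_preimage hVo isOpen_compl_singleton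
  have hsub : Rect ℓ ⊆ V ∩ g ⁻¹' {0}ᶜ := fun z hz => ⟨abs_re_strip hz.1, h0 z hz⟩
  obtain ⟨r, hr, hrs⟩ := (rect_compact ℓ).exists_thickening_subset_open hto hsub
  set U := Metric.thickening r (Rect ℓ) with hU
  have hUo : IsOpen U := Metric.isOpen_thickening
  have hRU : Rect ℓ ⊆ U := Metric.self_subset_thickening hr _
  have hUc : Convex ℝ U := (rect_convex ℓ).thickening r
  have hne : U.Nonempty := ⟨0, hRU ⟨by simpa using hpi.le, by simpa using hℓ⟩⟩
  have hUs : IsSimplyConnected U := by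
    have : ContractibleSpace U := hUc.contractibleSpace hne
    show SimplyConnectedSpace U
    infer_instance
  obtain ⟨f, hfc, hfe⟩ := exists_continuousOn_eqOn_exp_comp hUs hUo
    (hgc.mono fun z hz => (hrs hz).1) (by
      rintro ⟨z, hz, hz0⟩
      exact (hrs hz).2 hz0)
  refine ⟨f, ?_, fun z hz => hfe (hRU hz)⟩
  intro z hz
  have hzU : z ∈ U := hRU hz
  have hfca : ContinuousAt f z := hfc.continuousAt (hUo.mem_nhds hzU)
  have hgz : g z ≠ 0 := h0 z hz
  have hev : ∀ᶠ w in nhds z, f w = f z + Complex.log (g w / g z) := by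
    have h1 : ∀ᶠ w in nhds z, |(f w - f z).im| < π := by
      have h2 : ContinuousAt (fun w => |(f w - f z).im|) z := by
        apply ContinuousAt.abs
        exact Complex.continuous_im.continuousAt.comp (hfca.sub continuousAt_const)
      apply h2.eventually_lt continuousAt_const
      simp [hpp]
    filter_upwards [h1, hUo.mem_nhds hzU] with w hw1 hw2
    have h3 : g w / g z = cexp (f w - f z) := by
      rw [Complex.exp_sub]
      have e1 : cexp (f w) = g w := hfe hw2
      have e2 : cexp (f z) = g z := hfe hzU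
      rw [e1, e2]
    rw [h3, Complex.log_exp (abs_lt.1 hw1).1 (abs_lt.1 hw1).2.le]
    ring
  refine DifferentiableAt.congr_of_eventuallyEq ?_ hev
  apply DifferentiableAt.const_add
  apply DifferentiableAt.clog
  · exact (hd z (abs_re_strip hz.1)).div_const _
  · rw [div_self hgz]
    exact Complex.one_mem_slitPlane

/-- the conclusion: the phase is bounded by the energy -/
def Concl (ℓ η : ℝ) (G : ℂ → ℂ) : Prop :=
  ∃ k : ℝ, G ((-(π / 2) : ℝ) : ℂ) * (‖G 0‖ : ℂ) = G 0 * cexp (I * k) ∧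
    |k| ≤ (1 + 12 * Real.exp (-2 * ℓ)) * (-Real.log ‖G 0‖) + 16 * (ℓ ^ 2 + 1) * η

theorem CF.zero_free (hG : CF ℓ δ η G) (hℓ : 2 ≤ ℓ) (hδ : 0 ≤ δ) (hη : 0 ≤ η)
    (hδη : δ * Real.cosh ℓ ≤ η) (h0 : ∀ z ∈ Rect ℓ, G z ≠ 0) : Concl ℓ η G := by
  have hpp := Real.pi_pos
  have hpi : (0:ℝ) < π / 2 := by linarith [Real.pi_pos]
  have hℓ0 : 0 ≤ ℓ := by linarith
  obtain ⟨f0, hf0d, hf0e⟩ := exists_log ℓ hℓ0 hG.diff h0
  have hz0 : (0 : ℂ) ∈ Rect ℓ := ⟨by simpa using hpi.le, by simpa using hℓ0⟩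
  -- normalised logarithm
  set f : ℂ → ℂ := fun z => -(f0 z - (f0 0).im * I) with hf
  set u : ℂ := cexp (-((f0 0).im * I)) with hu
  have hunorm : ‖u‖ = 1 := by
    rw [hu, ← neg_mul, ← Complex.ofReal_neg]
    exact Complex.norm_exp_ofReal_mul_I _
  have hfe : ∀ z ∈ Rect ℓ, cexp (-(f z)) = G z * u := by
    intro z hz
    rw [hf, hu]
    simp only [neg_neg]
    rw [sub_eq_add_neg, Complex.exp_add, hf0e z hz]
  have hre : ∀ z ∈ Rect ℓ, (f z).re = -Real.log ‖G z‖ := by
    intro z hz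
    have h1 := congrArg norm (hfe z hz)
    rw [norm_mul, hunorm, mul_one, Complex.norm_exp, Complex.neg_re] at h1
    rw [← h1, Real.log_exp, neg_neg]
  have hf00 : (f 0).im = 0 := by rw [hf]; simp
  have hG0real : (starRingEnd ℂ) (G 0) = G 0 := by
    have := hG.symm 0 (by simpa using hpi.le)
    rw [map_zero, neg_zero] at this
    exact this.symm
  have hG0 : G 0 ≠ 0 := h0 0 hz0
  have hu0 : G 0 * u = (‖G 0‖ : ℂ) := by
    rw [← hfe 0 hz0]
    have h1 : f 0 = (((f 0).re : ℝ) : ℂ) := by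
      apply Complex.ext <;> simp [hf00]
    rw [h1, hre 0 hz0, ← Complex.ofReal_neg, neg_neg, ← Complex.ofReal_exp,
      Real.exp_log (norm_pos_iff.2 hG0)]
  have hureal : (starRingEnd ℂ) u = u := by
    have h1 := congrArg (starRingEnd ℂ) hu0
    rw [map_mul, hG0real, Complex.conj_ofReal, ← hu0] at h1
    exact mul_left_cancel₀ hG0 h1
  have hsymm : ∀ z ∈ Rect ℓ, f (-(starRingEnd ℂ) z) = (starRingEnd ℂ) (f z) := by
    intro z hz
    have hmem : ∀ t ∈ Icc (0:ℝ) 1, (t : ℂ) * z ∈ Rect ℓ := by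
      intro t ht
      constructor
      · rw [Complex.re_ofReal_mul, abs_mul, abs_of_nonneg ht.1]
        nlinarith [hz.1, abs_nonneg z.re, ht.2]
      · rw [Complex.im_ofReal_mul, abs_mul, abs_of_nonneg ht.1]
        nlinarith [hz.2, abs_nonneg z.im, ht.2]
    have hmem' : ∀ w ∈ Rect ℓ, -(starRingEnd ℂ) w ∈ Rect ℓ := by
      intro w hw
      refine ⟨?_, ?_⟩
      · simpa using hw.1
      · simpa using hw.2
    set D : ℂ → ℂ := fun w => f (-(starRingEnd ℂ) w) - (starRingEnd ℂ) (f w) with hD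
    have hDe : ∀ w ∈ Rect ℓ, cexp (D w) = 1 := by
      intro w hw
      have e1 := hfe _ (hmem' w hw)
      have e2 := congrArg (starRingEnd ℂ) (hfe w hw)
      rw [← Complex.exp_conj, map_neg, map_mul, hureal] at e2
      rw [hG.symm w hw.1, ← e2] at e1
      have e3 : cexp (D w) = cexp (-(starRingEnd ℂ) (f w)) / cexp (-f (-(starRingEnd ℂ) w)) := by
        rw [← Complex.exp_sub, hD]
        congr 1
        ring
      rw [e3, e1, div_self (Complex.exp_ne_zero _)]
    have hDre : ∀ w ∈ Rect ℓ, ∃ n : ℤ, D w = n * (2 * π * I) := by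
      intro w hw
      exact Complex.exp_eq_one_iff.1 (hDe w hw)
    have hpath := int_path (ψ := fun t : ℝ => (D (t * z)).im / (2 * π)) ?_ ?_ ?_
    · obtain ⟨n, hn⟩ := hDre z hz
      simp only [Complex.ofReal_one, one_mul] at hpath
      rw [hn] at hpath
      have hn0 : (n : ℝ) = 0 := by
        have h2 : ((n : ℂ) * (2 * π * I)).im = n * (2 * π) := by simp
        rw [h2] at hpath
        field_simp at hpath
        exact_mod_cast hpath
      have hn1 : n = 0 := by exact_mod_cast hn0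
      rw [hn1] at hn
      simp only [Int.cast_zero, zero_mul] at hn
      rw [hD] at hn
      exact sub_eq_zero.1 hn
    · apply ContinuousOn.div_const
      intro t ht
      have hw := hmem t ht
      have c1 : ContinuousAt f (t * z) :=
        (((hf0d _ hw).sub_const _).neg).continuousAt
      have c2 : ContinuousAt f (-(starRingEnd ℂ) (t * z)) :=
        (((hf0d _ (hmem' _ hw)).sub_const _).neg).continuousAt
      have c3 : ContinuousAt (fun t : ℝ => (t : ℂ) * z) t := by fun_prop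
      have c4 : ContinuousAt D (t * z) := by
        rw [hD]
        apply ContinuousAt.sub
        · exact ContinuousAt.comp (g := f) (f := fun w => -(starRingEnd ℂ) w) c2
            (Complex.continuous_conj.neg.continuousAt)
        · exact ContinuousAt.comp (g := (starRingEnd ℂ)) (f := f)
            Complex.continuous_conj.continuousAt c1
      exact (Complex.continuous_im.continuousAt.comp
        (ContinuousAt.comp (g := D) (f := fun t : ℝ => (t : ℂ) * z) c4 c3)).continuousWithinAt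
    · have : D 0 = 0 := by
        rw [hD]
        simp only [map_zero, neg_zero]
        have h1 : f 0 = (((f 0).re : ℝ) : ℂ) := by
          apply Complex.ext <;> simp [hf00]
        rw [h1, Complex.conj_ofReal]
        ring
      simp [this]
    · intro t ht
      obtain ⟨n, hn⟩ := hDre _ (hmem t ht)
      refine ⟨n, ?_⟩
      rw [hn]
      have h2 : ((n : ℂ) * (2 * π * I)).im = n * (2 * π) := by simp
      rw [h2]
      field_simp
  have hrf : RectFun ℓ η f := by
    refine ⟨hℓ, hη, ?_, hsymm, ?_, ?_⟩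
    · intro z hz
      exact ((hf0d _ hz).sub_const _).neg
    · intro z hz
      rw [hre z hz]
      have h1 := hG.max hδ hz.1
      have h2 : Real.log ‖G z‖ ≤ δ * Real.cosh (2 * z.im / 3) := by
        rw [Real.log_le_iff_le_exp (norm_pos_iff.2 (h0 z hz))]
        exact h1
      have h3 : Real.cosh (2 * z.im / 3) ≤ Real.cosh ℓ := by
        rw [Real.cosh_le_cosh, abs_div, abs_mul, abs_two, abs_of_pos (by norm_num : (0:ℝ) < 3),
          abs_of_nonneg hℓ0]
        have := hz.2
        have := abs_nonneg z.im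
        linarith
      have h4 := mul_le_mul_of_nonneg_left h3 hδ
      linarith
    · intro y hy
      have hmem : ((π / 2 : ℝ) : ℂ) + y * I ∈ Rect ℓ := by
        constructor
        · simp [abs_of_pos hpi]
        · simpa using hy
      rw [hre _ hmem, abs_neg]
      obtain ⟨h1, h2⟩ := hG.side_near y hy
      have h3 := norm_pos_iff.2 (h0 _ hmem)
      rw [abs_le]
      constructor
      · rw [Real.le_log_iff_exp_le h3]
        exact h1
      · rw [Real.log_le_iff_le_exp h3]
        exact h2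
  have hcone := hrf.cone
  refine ⟨(f ((π / 2 : ℝ) : ℂ)).im, ?_, ?_⟩
  · have hmem : ((π / 2 : ℝ) : ℂ) ∈ Rect ℓ := by
      constructor
      · simp [abs_of_pos hpi]
      · simpa using hℓ0
    have hmem2 : ((-(π / 2) : ℝ) : ℂ) ∈ Rect ℓ := by
      constructor
      · simp [abs_of_pos hpi]
      · simpa using hℓ0
    have h1 := hsymm _ hmem
    have h2 : -(starRingEnd ℂ) (((π / 2 : ℝ) : ℂ)) = ((-(π / 2) : ℝ) : ℂ) := by
      rw [Complex.conj_ofReal]; push_cast; ring
    rw [h2] at h1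
    have h3 : (f ((π / 2 : ℝ) : ℂ)).re = 0 := by
      have h4 := hrf.side 0 (by simpa using hℓ0)
      simp only [abs_zero, mul_zero, Complex.ofReal_zero, zero_mul, add_zero] at h4
      exact abs_eq_zero.1 (le_antisymm h4 (abs_nonneg _))
    have h5 := hfe _ hmem2
    rw [h1] at h5
    have h6 : -(starRingEnd ℂ) (f ((π / 2 : ℝ) : ℂ)) = I * ((f ((π / 2 : ℝ) : ℂ)).im : ℝ) := by
      apply Complex.ext
      · rw [Complex.neg_re, Complex.conj_re, h3]; simp
      · simp
    rw [h6] at h5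
    rw [h5, ← hu0]
    ring
  · rw [hre 0 hz0] at hcone
    exact hcone

end MP6bd
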