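import Mathlib
import Pool.Agent.Lib.MP_6bd702_sv.CFLog

open Complex Set
open scoped Real

/-!
# Division by a zero
-/

namespace MP6bd

variable {ℓ δ η : ℝ} {G : ℂ → ℂ} {a : ℂ}

/-- `cot` factor -/
noncomputable def ca (a z : ℂ) : ℂ := I * (Complex.cos ((z - a) / 2) / Complex.sin ((z - a) / 2))

/-- `tan` factor -/
noncomputable def ta (a z : ℂ) : ℂ := -I * (Complex.sin ((z - a) / 2) / Complex.cos ((z - a) / 2))

/-- the quotient of `G` by the factor `ta a` -/
noncomputable def quo (G : ℂ → ℂ) (a z : ℂ) : ℂ :=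
  I * (2 * Complex.cos ((z - a) / 2)) * (dslope G a z / dslope Complex.sin 0 ((z - a) / 2))

lemma half_sin_ne {z : ℂ} (h : |z.re - a.re| < 2 * π) (hz : z ≠ a) :
    Complex.sin ((z - a) / 2) ≠ 0 := by
  apply sin_ne_zero_of_re
  · have : ((z - a) / 2).re = (z.re - a.re) / 2 := by
      rw [show (z - a) / 2 = (z - a) / (2 : ℝ) by norm_num, Complex.div_ofReal_re, Complex.sub_re]
    rw [this, abs_div, abs_two]
    linarith
  · intro h0
    apply hz
    have h1 : z - a = 0 := by linear_combination 2 * h0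
    linear_combination h1

lemma half_cos_ne {z : ℂ} (h : |z.re - a.re| < π) : Complex.cos ((z - a) / 2) ≠ 0 := by
  rw [← Complex.sin_pi_div_two_sub]
  apply sin_ne_zero_of_re
  · have : ((π : ℂ) / 2 - (z - a) / 2).re = (π - (z.re - a.re)) / 2 := by
      rw [show (π : ℂ) / 2 - (z - a) / 2 = ((π : ℝ) - (z - a)) / (2 : ℝ) by
        rw [Complex.ofReal_ofNat]; ring,
        Complex.div_ofReal_re, Complex.sub_re, Complex.sub_re, Complex.ofReal_re]
    rw [this, abs_lt]
    have := abs_lt.1 h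
    constructor <;> linarith
  · intro h0
    have h1 : z - a = (π : ℝ) := by push_cast; linear_combination -2 * h0
    have h2 := congrArg Complex.re h1
    rw [Complex.sub_re, Complex.ofReal_re] at h2
    rw [h2, abs_of_pos Real.pi_pos] at h
    exact lt_irrefl _ h

lemma quo_of_ne (hGa : G a = 0) {z : ℂ} (hs : Complex.sin ((z - a) / 2) ≠ 0) :
    quo G a z = ca a z * G z := by
  have hz : z - a ≠ 0 := by
    intro h
    rw [h] at hs
    simp at hs
  have hz' : z ≠ a := sub_ne_zero.1 hz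
  have hv : (z - a) / 2 ≠ 0 := div_ne_zero hz two_ne_zero
  unfold quo ca
  rw [dslope_of_ne _ hz', dslope_of_ne _ hv, slope_def_field, slope_def_field, hGa]
  simp only [Complex.sin_zero, sub_zero]
  field_simp

lemma ta_mul_ca {z : ℂ} (hs : Complex.sin ((z - a) / 2) ≠ 0) (hc : Complex.cos ((z - a) / 2) ≠ 0) :
    ta a z * ca a z = 1 := by
  unfold ta ca
  field_simp
  linear_combination -I_sq

lemma eq_ta_mul (hGa : G a = 0) {z : ℂ} (h : |z.re - a.re| < π) :
    G z = ta a z * quo G a z := by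
  by_cases hz : z = a
  · subst hz
    rw [hGa]
    unfold ta
    simp
  · have hs : Complex.sin ((z - a) / 2) ≠ 0 := half_sin_ne (by linarith [Real.pi_pos]) hz
    have hc : Complex.cos ((z - a) / 2) ≠ 0 := half_cos_ne h
    rw [quo_of_ne hGa hs, ← mul_assoc, ta_mul_ca hs hc, one_mul]

lemma dsin_ne {z : ℂ} (h : |z.re - a.re| < 2 * π) : dslope Complex.sin 0 ((z - a) / 2) ≠ 0 := by
  by_cases h0 : (z - a) / 2 = 0
  · rw [h0, dslope_same]
    simp
  · rw [dslope_of_ne _ h0, slope_def_field]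
    simp only [Complex.sin_zero, sub_zero]
    refine div_ne_zero (half_sin_ne h ?_) h0
    rintro rfl
    simp at h0

lemma differentiableAt_dslope_sin (z : ℂ) : DifferentiableAt ℂ (dslope Complex.sin 0) z := by
  have h := (Complex.differentiableOn_dslope (f := Complex.sin) (s := univ) (c := 0)
    Filter.univ_mem).2 Complex.differentiable_sin.differentiableOn
  exact (h z (mem_univ z)).differentiableAt Filter.univ_mem

lemma quo_diff (hG : ∀ z : ℂ, |z.re| < 5 * π / 6 → DifferentiableAt ℂ G z)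
    (ha : |a.re| < π / 6) {z : ℂ} (hz : |z.re| < 5 * π / 6) : DifferentiableAt ℂ (quo G a) z := by
  have hpp := Real.pi_pos
  set V : Set ℂ := {z : ℂ | |z.re| < 5 * π / 6} with hV
  have hVo : IsOpen V := isOpen_lt (continuous_abs.comp Complex.continuous_re) continuous_const
  have haV : a ∈ V := by
    show |a.re| < 5 * π / 6
    linarith
  have hd1 : DifferentiableAt ℂ (dslope G a) z := by
    have h := (Complex.differentiableOn_dslope (f := G) (s := V) (c := a) (hVo.mem_nhds haV)).2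
      (fun w hw => (hG w hw).differentiableWithinAt)
    exact (h z hz).differentiableAt (hVo.mem_nhds hz)
  have hd2 : DifferentiableAt ℂ (fun z => dslope Complex.sin 0 ((z - a) / 2)) z :=
    (differentiableAt_dslope_sin ((z - a) / 2)).comp z (by fun_prop)
  have hne : dslope Complex.sin 0 ((z - a) / 2) ≠ 0 := by
    apply dsin_ne
    calc |z.re - a.re| ≤ |z.re| + |a.re| := abs_sub _ _
      _ < 2 * π := by linarith
  unfold quo
  exact DifferentiableAt.mul (by fun_prop) (hd1.div hd2 hne)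

lemma norm_sin_sq' (x y : ℝ) : ‖Complex.sin (x + y * I)‖ ^ 2 = Real.sin x ^ 2 + Real.sinh y ^ 2 := by
  rw [Complex.sin_add_mul_I, ← Complex.ofReal_cos, ← Complex.ofReal_cosh, ← Complex.ofReal_sin,
    ← Complex.ofReal_sinh, ← Complex.ofReal_mul, ← Complex.ofReal_mul, ← Complex.normSq_eq_norm_sq,
    Complex.normSq_add_mul_I]
  have h3 := Real.cosh_sq y
  have h4 := Real.sin_sq_add_cos_sq x
  linear_combination (Real.sin x ^ 2) * h3 + (Real.sinh y ^ 2) * h4

lemma norm_cos_sq' (x y : ℝ) : ‖Complex.cos (x + y * I)‖ ^ 2 = Real.cos x ^ 2 + Real.sinh y ^ 2 := by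
  rw [Complex.cos_add_mul_I, ← Complex.ofReal_cos, ← Complex.ofReal_cosh, ← Complex.ofReal_sin,
    ← Complex.ofReal_sinh, ← Complex.ofReal_mul, ← Complex.ofReal_mul, ← Complex.normSq_eq_norm_sq]
  rw [sub_eq_add_neg, ← neg_mul, ← Complex.ofReal_neg, Complex.normSq_add_mul_I]
  have h3 := Real.cosh_sq y
  have h4 := Real.sin_sq_add_cos_sq x
  linear_combination (Real.cos x ^ 2) * h3 + (Real.sinh y ^ 2) * h4

lemma norm_ca_le {z : ℂ} (h : 1 ≤ |z.im - a.im|) : ‖ca a z‖ ≤ 3 := by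
  set x : ℝ := (z.re - a.re) / 2
  set y : ℝ := (z.im - a.im) / 2
  have hv : (z - a) / 2 = (x : ℂ) + y * I := by
    apply Complex.ext
    · rw [show (z - a) / 2 = (z - a) / (2 : ℝ) by norm_num, Complex.div_ofReal_re, Complex.sub_re]
      simp [x]
    · rw [show (z - a) / 2 = (z - a) / (2 : ℝ) by norm_num, Complex.div_ofReal_im, Complex.sub_im]
      simp [y]
  have hy : 1 / 2 ≤ |y| := by
    simp only [y]
    rw [abs_div, abs_two]
    linarith
  have hs := norm_sin_sq' x y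
  have hc := norm_cos_sq' x y
  rw [← hv] at hs hc
  have h1 : 1 / 4 ≤ Real.sinh y ^ 2 := by
    have h2 : 1 / 2 ≤ Real.sinh |y| := hy.trans (Real.self_le_sinh_iff.2 (abs_nonneg y))
    have h3 : Real.sinh y ^ 2 = Real.sinh |y| ^ 2 := by
      rcases abs_choice y with h | h
      · rw [h]
      · rw [h, Real.sinh_neg]; ring
    rw [h3]
    nlinarith
  have h2 : ‖Complex.cos ((z - a) / 2)‖ ^ 2 ≤ 9 * ‖Complex.sin ((z - a) / 2)‖ ^ 2 := by
    rw [hs, hc]
    have := Real.cos_sq_le_one x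
    nlinarith [sq_nonneg (Real.sin x)]
  have h3 : ‖Complex.cos ((z - a) / 2)‖ ≤ 3 * ‖Complex.sin ((z - a) / 2)‖ := by
    rw [← pow_le_pow_iff_left₀ (norm_nonneg _) (by positivity) two_ne_zero]
    rw [mul_pow]
    linarith [h2]
  unfold ca
  rw [norm_mul, norm_I, one_mul, norm_div]
  have h4 : 0 < ‖Complex.sin ((z - a) / 2)‖ := by
    rw [norm_pos_iff]
    intro h0
    rw [h0, norm_zero] at hs
    nlinarith [sq_nonneg (Real.sin x)]
  rw [div_le_iff₀ h4]
  exact h3

lemma quo_bdd (hG : ∀ z : ℂ, |z.re| < 5 * π / 6 → DifferentiableAt ℂ G z)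
    (hb : ∃ C : ℝ, ∀ z : ℂ, |z.re| ≤ π / 2 → ‖G z‖ ≤ C) (hGa : G a = 0) (ha : |a.re| < π / 6) :
    ∃ C : ℝ, ∀ z : ℂ, |z.re| ≤ π / 2 → ‖quo G a z‖ ≤ C := by
  have hpp := Real.pi_pos
  obtain ⟨C, hC⟩ := hb
  have hC0 : 0 ≤ C := (norm_nonneg _).trans (hC 0 (by simpa using (by linarith : (0:ℝ) ≤ π / 2)))
  have hK : IsCompact (Icc (-(π / 2)) (π / 2) ×ℂ Icc (a.im - 1) (a.im + 1)) :=
    isCompact_Icc.reProdIm isCompact_Icc
  obtain ⟨C', hC'⟩ := hK.exists_bound_of_continuousOn (f := quo G a) (by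
    rintro z ⟨h1, h2⟩
    exact (quo_diff hG ha (abs_re_strip (abs_le.2 h1))).continuousAt.continuousWithinAt)
  refine ⟨max (3 * C) C', ?_⟩
  intro z hz
  by_cases h : 1 ≤ |z.im - a.im|
  · have hza : z ≠ a := by
      rintro rfl
      simp at h
      linarith
    have hs : Complex.sin ((z - a) / 2) ≠ 0 := by
      apply half_sin_ne _ hza
      calc |z.re - a.re| ≤ |z.re| + |a.re| := abs_sub _ _
        _ < 2 * π := by linarith
    rw [quo_of_ne hGa hs, norm_mul]
    refine le_max_of_le_left ?_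
    exact mul_le_mul (norm_ca_le h) (hC z hz) (norm_nonneg _) (by norm_num)
  · refine le_max_of_le_right (hC' z ⟨abs_le.1 hz, ?_⟩)
    push Not at h
    have := abs_lt.1 h
    constructor <;> linarith [this.1, this.2]

lemma conj_half (a z : ℂ) : (-(starRingEnd ℂ) z - -(starRingEnd ℂ) a) / 2 =
    -(starRingEnd ℂ) ((z - a) / 2) := by
  rw [map_div₀, map_sub, Complex.conj_ofNat]
  ring

lemma ca_conj (a z : ℂ) : ca (-(starRingEnd ℂ) a) (-(starRingEnd ℂ) z) =
    (starRingEnd ℂ) (ca a z) := by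
  unfold ca
  rw [conj_half, Complex.cos_neg, Complex.sin_neg, Complex.cos_conj, Complex.sin_conj, map_mul,
    map_div₀, Complex.conj_I, div_neg]
  ring

/-- two functions continuous at a point and equal near it are equal there -/
lemma eq_of_punctured {F₁ F₂ : ℂ → ℂ} {b : ℂ} (h1 : ContinuousAt F₁ b) (h2 : ContinuousAt F₂ b)
    (h : ∀ᶠ z in nhdsWithin b {b}ᶜ, F₁ z = F₂ z) : F₁ b = F₂ b := by
  have t1 : Filter.Tendsto F₁ (nhdsWithin b {b}ᶜ) (nhds (F₁ b)) :=
    h1.tendsto.mono_left nhdsWithin_le_nhds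
  have t2 : Filter.Tendsto F₂ (nhdsWithin b {b}ᶜ) (nhds (F₂ b)) :=
    h2.tendsto.mono_left nhdsWithin_le_nhds
  exact tendsto_nhds_unique (t1.congr' h) t2

/-- the value of the cosine and sine on the right side -/
lemma side_vals (a : ℂ) (y : ℝ) :
    Complex.cos (((((π / 2 : ℝ) : ℂ) + y * I) - -(starRingEnd ℂ) a) / 2) =
      (starRingEnd ℂ) (Complex.sin (((((π / 2 : ℝ) : ℂ) + y * I) - a) / 2)) ∧
    Complex.sin (((((π / 2 : ℝ) : ℂ) + y * I) - -(starRingEnd ℂ) a) / 2) =
      (starRingEnd ℂ) (Complex.cos (((((π / 2 : ℝ) : ℂ) + y * I) - a) / 2)) := by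
  have h : (((((π / 2 : ℝ) : ℂ) + y * I) - -(starRingEnd ℂ) a) / 2) =
      π / 2 - (starRingEnd ℂ) (((((π / 2 : ℝ) : ℂ) + y * I) - a) / 2) := by
    rw [map_div₀, map_sub, map_add, Complex.conj_ofReal, map_mul, Complex.conj_ofReal,
      Complex.conj_I, Complex.conj_ofNat]
    push_cast
    ring
  rw [h, Complex.cos_pi_div_two_sub, Complex.sin_pi_div_two_sub, Complex.sin_conj,
    Complex.cos_conj]
  exact ⟨rfl, rfl⟩

lemma norm_ca_side (ha : |a.re| < π / 6) (y : ℝ) :
    ‖ca a (((π / 2 : ℝ) : ℂ) + y * I)‖ * ‖ca (-(starRingEnd ℂ) a) (((π / 2 : ℝ) : ℂ) + y * I)‖ = 1 := by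
  have hpp := Real.pi_pos
  obtain ⟨h1, h2⟩ := side_vals a y
  have hre : ((((π / 2 : ℝ) : ℂ) + y * I)).re = π / 2 := by simp
  have ha' := abs_lt.1 ha
  have hlt : |((((π / 2 : ℝ) : ℂ) + y * I)).re - a.re| < π := by
    rw [hre, abs_lt]
    constructor <;> linarith [ha'.1, ha'.2]
  have hc := half_cos_ne hlt
  have hs : Complex.sin (((((π / 2 : ℝ) : ℂ) + y * I) - a) / 2) ≠ 0 := by
    apply half_sin_ne (by linarith)
    intro h
    rw [h] at hre
    rw [hre] at ha'
    linarith [ha'.2]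
  unfold ca
  rw [h1, h2]
  simp only [norm_mul, norm_I, one_mul, norm_div, Complex.norm_conj]
  have n1 := norm_pos_iff.2 hc
  have n2 := norm_pos_iff.2 hs
  field_simp

end MP6bd
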