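import Mathlib

open scoped Real

/-!
# The phase of one zero against its energy

`e = 1/2 log((cosh y + S)/(cosh y - S))` satisfies `sinh e = S / sqrt(cosh² y - S²)`.
`κ = arccos (sinh y / sqrt(sinh² y + S²))`. If `e ≥ π/2` nothing to prove. Otherwise
`sinh e < 2.31`, so `y > 0` and with `τ = 1/S² - 1 ≤ 1/50` one gets
`tan κ = S / sinh y ≤ (1 + 3 τ) sinh e`; then `arctan (λ s) ≤ λ arctan s` and
`arctan (sinh e) ≤ e`.
-/

set_option autoImplicit false

namespace MP6bd

lemma arctan_sinh_le {e : ℝ} (he : 0 ≤ e) : Real.arctan (Real.sinh e) ≤ e := by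
  have hd : ∀ x : ℝ, HasDerivAt (fun x => x - Real.arctan (Real.sinh x))
      (1 - 1 / (1 + Real.sinh x ^ 2) * Real.cosh x) x := by
    intro x
    exact (hasDerivAt_id x).sub ((Real.hasDerivAt_arctan _).comp x (Real.hasDerivAt_sinh x))
  have hm : Monotone (fun x => x - Real.arctan (Real.sinh x)) := by
    refine monotone_of_deriv_nonneg (fun x => (hd x).differentiableAt) fun x => ?_
    rw [(hd x).deriv]
    have h1 : 1 + Real.sinh x ^ 2 = Real.cosh x ^ 2 := by
      rw [Real.cosh_sq]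
      ring
    have h2 := Real.one_le_cosh x
    rw [h1, sub_nonneg, one_div, inv_mul_le_iff₀ (by positivity)]
    nlinarith
  have := hm he
  simp only [Real.sinh_zero, Real.arctan_zero, sub_zero] at this
  linarith

lemma arctan_mul_le {c s : ℝ} (hc : 1 ≤ c) (hs : 0 ≤ s) :
    Real.arctan (c * s) ≤ c * Real.arctan s := by
  have hd : ∀ x : ℝ, HasDerivAt (fun x => c * Real.arctan x - Real.arctan (c * x))
      (c * (1 / (1 + x ^ 2)) - 1 / (1 + (c * x) ^ 2) * (c * 1)) x := by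
    intro x
    exact ((Real.hasDerivAt_arctan x).const_mul c).sub
      ((Real.hasDerivAt_arctan _).comp x ((hasDerivAt_id x).const_mul c))
  have hm : Monotone (fun x => c * Real.arctan x - Real.arctan (c * x)) := by
    refine monotone_of_deriv_nonneg (fun x => (hd x).differentiableAt) fun x => ?_
    rw [(hd x).deriv, mul_one, mul_comm (1 / (1 + (c * x) ^ 2)) c, ← mul_sub]
    refine mul_nonneg (by linarith) ?_
    rw [sub_nonneg]
    refine one_div_le_one_div_of_le (by positivity) ?_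
    have : x ^ 2 ≤ (c * x) ^ 2 := by
      rw [mul_pow]
      have h1 : 1 ≤ c ^ 2 := one_le_pow₀ hc
      nlinarith [sq_nonneg x]
    linarith
  have := hm hs
  simp only [Real.arctan_zero, mul_zero, sub_zero] at this
  linarith

lemma sinh_pi_div_two_lt : Real.sinh (π / 2) < 2.31 := by
  have hpi : π / 2 ≤ 1.5708 := by
    have := Real.pi_lt_d4
    linarith
  have h1 : Real.sinh (π / 2) ≤ Real.sinh 1.5708 := Real.sinh_le_sinh.2 hpi
  have h2 : Real.exp 0.5708 ≤ 1.7703 := by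
    have := Real.exp_bound' (x := 0.5708) (by norm_num) (by norm_num) (n := 4) (by norm_num)
    refine this.trans ?_
    norm_num [Finset.sum_range_succ, Nat.factorial]
  have h3 : Real.exp 1.5708 < 4.82 := by
    have e : (1.5708 : ℝ) = 1 + 0.5708 := by norm_num
    rw [e, Real.exp_add]
    have h4 := Real.exp_one_lt_d9
    have h5 := Real.exp_pos 1
    have h6 := Real.exp_pos 0.5708
    nlinarith
  have h4 : 0.2 < Real.exp (-1.5708) := by
    rw [Real.exp_neg, lt_inv_comm₀ (by norm_num) (Real.exp_pos _)]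
    refine h3.trans_le ?_
    norm_num
  have h5 : Real.sinh 1.5708 < 2.31 := by
    rw [Real.sinh_eq]
    linarith
  linarith

lemma phase_aux {A Y τ : ℝ} (hτ0 : 0 ≤ τ) (hτ : τ ≤ 1 / 50) (hY : 0 ≤ Y)
    (h : A < 2.31 ^ 2 * (Y + τ * A)) : A ≤ (6 + 9 * τ) * Y := by
  have h4 : A * (1 - 2.31 ^ 2 * τ) ≤ 2.31 ^ 2 * Y := by linarith
  have h5 : 0 < 1 - 2.31 ^ 2 * τ := by linarith
  have h6 : 2.31 ^ 2 ≤ (6 + 9 * τ) * (1 - 2.31 ^ 2 * τ) := by nlinarith
  have h8 := mul_le_mul_of_nonneg_right h6 hY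
  have h9 : A * (1 - 2.31 ^ 2 * τ) ≤ (6 + 9 * τ) * Y * (1 - 2.31 ^ 2 * τ) := by
    calc A * (1 - 2.31 ^ 2 * τ) ≤ 2.31 ^ 2 * Y := h4
      _ ≤ (6 + 9 * τ) * (1 - 2.31 ^ 2 * τ) * Y := h8
      _ = (6 + 9 * τ) * Y * (1 - 2.31 ^ 2 * τ) := by ring
  exact le_of_mul_le_mul_right h9 h5

theorem phase_le {S y : ℝ} (hS0 : 0 < S) (hS1 : S ≤ 1) (hτ : 1 / S ^ 2 - 1 ≤ 1 / 50)
    (hy : 0 ≤ y) (hpos : 0 < y ∨ S < 1) :
    ∃ κ : ℝ, 0 ≤ κ ∧ κ ≤ π / 2 ∧
      Real.cos κ = Real.sinh y / Real.sqrt (Real.sinh y ^ 2 + S ^ 2) ∧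
      Real.sin κ = S / Real.sqrt (Real.sinh y ^ 2 + S ^ 2) ∧
      κ ≤ (1 + 3 * (1 / S ^ 2 - 1)) *
        (1 / 2 * Real.log ((Real.cosh y + S) / (Real.cosh y - S))) := by
  have hsy : 0 ≤ Real.sinh y := Real.sinh_nonneg_iff.2 hy
  have hcy : 1 ≤ Real.cosh y := Real.one_le_cosh y
  have hSc : S < Real.cosh y := by
    rcases hpos with h | h
    · exact hS1.trans_lt (Real.one_lt_cosh.2 h.ne')
    · exact h.trans_le hcy
  have hsq : 0 < Real.sinh y ^ 2 + S ^ 2 := by positivity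
  set D := Real.sqrt (Real.sinh y ^ 2 + S ^ 2) with hD
  have hD0 : 0 < D := Real.sqrt_pos.2 hsq
  have hD2 : D ^ 2 = Real.sinh y ^ 2 + S ^ 2 := Real.sq_sqrt hsq.le
  have hle1 : Real.sinh y / D ≤ 1 := by
    rw [div_le_one hD0]
    exact Real.le_sqrt_of_sq_le (by nlinarith)
  have hge0 : 0 ≤ Real.sinh y / D := by positivity
  have hcos : Real.cos (Real.arccos (Real.sinh y / D)) = Real.sinh y / D :=
    Real.cos_arccos (by linarith) hle1
  have hsin : Real.sin (Real.arccos (Real.sinh y / D)) = S / D := by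
    rw [Real.sin_arccos, Real.sqrt_eq_iff_mul_self_eq]
    · rw [div_pow, hD2]
      field_simp
      nlinarith
    · rw [div_pow, hD2, sub_nonneg, div_le_one hsq]
      nlinarith
    · positivity
  refine ⟨Real.arccos (Real.sinh y / D), Real.arccos_nonneg _,
    Real.arccos_le_pi_div_two.2 hge0, hcos, hsin, ?_⟩
  set κ := Real.arccos (Real.sinh y / D) with hκ
  have hκ2 : κ ≤ π / 2 := Real.arccos_le_pi_div_two.2 hge0
  have hκ0 : 0 ≤ κ := Real.arccos_nonneg _
  set τ := 1 / S ^ 2 - 1 with hτd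
  have hτ0 : 0 ≤ τ := by
    rw [hτd, sub_nonneg, le_div_iff₀ (by positivity), one_mul]
    nlinarith
  set e := 1 / 2 * Real.log ((Real.cosh y + S) / (Real.cosh y - S)) with he
  have hq1 : 1 ≤ (Real.cosh y + S) / (Real.cosh y - S) := by
    rw [le_div_iff₀ (by linarith)]
    linarith
  have he0 : 0 ≤ e := by
    rw [he]
    have := Real.log_nonneg hq1
    linarith
  by_cases hbig : π / 2 ≤ e
  · nlinarith
  push Not at hbig
  -- the value of `sinh e`
  set P := Real.sqrt (Real.cosh y ^ 2 - S ^ 2) with hP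
  have hPpos : 0 < Real.cosh y ^ 2 - S ^ 2 := by nlinarith
  have hP0 : 0 < P := Real.sqrt_pos.2 hPpos
  have hP2 : P ^ 2 = Real.cosh y ^ 2 - S ^ 2 := Real.sq_sqrt hPpos.le
  have hexp2 : Real.exp e ^ 2 = (Real.cosh y + S) / (Real.cosh y - S) := by
    rw [← Real.exp_nat_mul, he]
    have : ((2 : ℕ) : ℝ) * (1 / 2 * Real.log ((Real.cosh y + S) / (Real.cosh y - S))) =
        Real.log ((Real.cosh y + S) / (Real.cosh y - S)) := by
      push_cast
      ring
    rw [this, Real.exp_log (by linarith)]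
  have hexp : Real.exp e = (Real.cosh y + S) / P := by
    have h1 : Real.exp e ^ 2 = ((Real.cosh y + S) / P) ^ 2 := by
      rw [hexp2, div_pow, hP2, div_eq_div_iff (by linarith) (by positivity)]
      ring
    have h2 : 0 ≤ (Real.cosh y + S) / P := by positivity
    exact (pow_left_inj₀ (Real.exp_pos e).le h2 two_ne_zero).1 h1
  have hsinh : Real.sinh e = S / P := by
    rw [Real.sinh_eq, Real.exp_neg, hexp]
    field_simp
    rw [hP2]
    ring
  have hs231 : S / P < 2.31 := by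
    rw [← hsinh]
    exact (Real.sinh_lt_sinh.2 hbig).trans sinh_pi_div_two_lt
  have hP2' : P ^ 2 = Real.sinh y ^ 2 + (1 - S ^ 2) := by
    rw [hP2, Real.cosh_sq]
    ring
  have hSτ : 1 - S ^ 2 = τ * S ^ 2 := by
    rw [hτd]
    field_simp
  have hS2 : S ^ 2 < 2.31 ^ 2 * (Real.sinh y ^ 2 + τ * S ^ 2) := by
    rw [← hSτ, ← hP2']
    have h1 : S < 2.31 * P := by
      rwa [div_lt_iff₀ hP0] at hs231
    have h2 : S ^ 2 < (2.31 * P) ^ 2 := pow_lt_pow_left₀ h1 hS0.le two_ne_zero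
    rwa [mul_pow] at h2
  have hsy2 : 0 < Real.sinh y ^ 2 := by nlinarith
  have hsy' : 0 < Real.sinh y := by
    rcases hsy.lt_or_eq with h | h
    · exact h
    · rw [← h] at hsy2
      norm_num at hsy2
  -- `tan κ ≤ (1 + 3 τ) sinh e`
  have hkey : S / Real.sinh y ≤ (1 + 3 * τ) * (S / P) := by
    rw [div_le_iff₀ hsy', mul_assoc, div_mul_eq_mul_div, ← mul_div_assoc, le_div_iff₀ hP0]
    have h1 : P ≤ (1 + 3 * τ) * Real.sinh y := by
      have h2 : P ^ 2 ≤ ((1 + 3 * τ) * Real.sinh y) ^ 2 := by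
        rw [hP2', hSτ, mul_pow]
        have h3 : S ^ 2 ≤ (6 + 9 * τ) * Real.sinh y ^ 2 :=
           phase_aux hτ0 hτ hsy2.le hS2
        have h10 := mul_le_mul_of_nonneg_left h3 hτ0
        linarith
      exact (pow_le_pow_iff_left₀ hP0.le (by positivity) two_ne_zero).1 h2
    nlinarith
  have htan : Real.tan κ = S / Real.sinh y := by
    rw [Real.tan_eq_sin_div_cos, hcos, hsin]
    field_simp
  have hκlt : κ < π / 2 := by
    rw [hκ, Real.arccos_lt_pi_div_two]
    positivity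
  have hκa : κ = Real.arctan (S / Real.sinh y) := by
    rw [← htan, Real.arctan_tan (by linarith [Real.pi_pos]) hκlt]
  rw [hκa]
  calc Real.arctan (S / Real.sinh y) ≤ Real.arctan ((1 + 3 * τ) * (S / P)) :=
        Real.arctan_mono hkey
    _ ≤ (1 + 3 * τ) * Real.arctan (S / P) :=
        arctan_mul_le (by linarith) (by positivity)
    _ = (1 + 3 * τ) * Real.arctan (Real.sinh e) := by rw [hsinh]
    _ ≤ (1 + 3 * τ) * e := mul_le_mul_of_nonneg_left (arctan_sinh_le he0) (by positivity)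

end MP6bd
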