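import Mathlib
import Pool.Agent.Lib.MP_6bd702_sv.CFQuo
import Pool.Agent.Lib.MP_6bd702_sv.Phase

open Complex Set
open scoped Real

/-!
# The quotient stays in the class
-/

namespace MP6bd

variable {ℓ δ η : ℝ} {G : ℂ → ℂ} {a : ℂ}

lemma exp_neg_lt_half (hℓ : 2 ≤ ℓ) : Real.exp (-ℓ) < 1 / 2 := by
  have h1 : Real.exp (-ℓ) ≤ Real.exp (-1) := by rw [Real.exp_le_exp]; linarith
  have h2 := Real.exp_neg_one_lt_d9
  linarith

lemma re_lt_of_sin (hℓ : 2 ≤ ℓ) {x : ℝ} (hx : |x| ≤ π / 2) (h : |Real.sin x| ≤ Real.exp (-ℓ)) :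
    |x| < π / 6 := by
  have hpp := Real.pi_pos
  by_contra hc
  push Not at hc
  have h1 : Real.sin (π / 6) ≤ Real.sin |x| :=
    Real.sin_le_sin_of_le_of_le_pi_div_two (by linarith) hx hc
  rw [Real.sin_pi_div_six] at h1
  have h2 : |Real.sin x| = Real.sin |x| := by
    rcases abs_choice x with h' | h'
    · rw [h']
      exact abs_of_nonneg (by rw [← h']; linarith)
    · rw [h', Real.sin_neg]
      have h3 : Real.sin |x| = -Real.sin x := by rw [h', Real.sin_neg]
      exact abs_of_nonpos (by linarith)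
  have := exp_neg_lt_half hℓ
  linarith

lemma st_re (a : ℂ) : (-(starRingEnd ℂ) a).re = -a.re := by simp

lemma st_st (a : ℂ) : -(starRingEnd ℂ) (-(starRingEnd ℂ) a) = a := by
  rw [map_neg, Complex.conj_conj, neg_neg]

lemma symm_extend {H : ℂ → ℂ} (hd : ∀ z : ℂ, |z.re| < 5 * π / 6 → DifferentiableAt ℂ H z)
    {a b : ℂ} (ha : |a.re| < π / 6) (hb : |b.re| < π / 6)
    (h : ∀ z : ℂ, |z.re| ≤ π / 2 → z ≠ a → z ≠ b →
      H (-(starRingEnd ℂ) z) = (starRingEnd ℂ) (H z)) :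
    ∀ z : ℂ, |z.re| ≤ π / 2 → H (-(starRingEnd ℂ) z) = (starRingEnd ℂ) (H z) := by
  have hpp := Real.pi_pos
  have key : ∀ c : ℂ, |c.re| < π / 6 → H (-(starRingEnd ℂ) c) = (starRingEnd ℂ) (H c) := by
    intro c hc
    have hc1 : |c.re| < 5 * π / 6 := by linarith
    have hc2 : |(-(starRingEnd ℂ) c).re| < 5 * π / 6 := by rw [st_re, abs_neg]; exact hc1
    apply eq_of_punctured (F₁ := fun z => H (-(starRingEnd ℂ) z))
      (F₂ := fun z => (starRingEnd ℂ) (H z))
    · exact ContinuousAt.comp (g := H) (f := fun w => -(starRingEnd ℂ) w) (hd _ hc2).continuousAt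
        (Complex.continuous_conj.neg.continuousAt)
    · exact ContinuousAt.comp (g := (starRingEnd ℂ)) (f := H)
        Complex.continuous_conj.continuousAt (hd _ hc1).continuousAt
    · have h1 : ∀ᶠ z in nhds c, |z.re| ≤ π / 2 := by
        have h2 : ContinuousAt (fun z : ℂ => |z.re|) c :=
          (continuous_abs.comp Complex.continuous_re).continuousAt
        filter_upwards [h2.eventually_lt continuousAt_const (show |c.re| < π / 2 by linarith)] with z hz
        exact hz.le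
      have h3 : ∀ᶠ z in nhdsWithin c {c}ᶜ, z ≠ a := by
        by_cases hca : c = a
        · rw [← hca]
          filter_upwards [self_mem_nhdsWithin] with z hz
          exact hz
        · exact nhdsWithin_le_nhds (isOpen_ne.mem_nhds hca)
      have h4 : ∀ᶠ z in nhdsWithin c {c}ᶜ, z ≠ b := by
        by_cases hcb : c = b
        · rw [← hcb]
          filter_upwards [self_mem_nhdsWithin] with z hz
          exact hz
        · exact nhdsWithin_le_nhds (isOpen_ne.mem_nhds hcb)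
      filter_upwards [nhdsWithin_le_nhds h1, h3, h4] with z hz1 hz2 hz3
      exact h z hz1 hz2 hz3
  intro z hz
  by_cases hza : z = a
  · rw [hza]; exact key a ha
  · by_cases hzb : z = b
    · rw [hzb]; exact key b hb
    · exact h z hz hza hzb

lemma sin_half_ne' (ha : |a.re| < π / 6) {z : ℂ} (hz : |z.re| ≤ π / 2) (hza : z ≠ a) :
    Complex.sin ((z - a) / 2) ≠ 0 := by
  apply half_sin_ne _ hza
  have := Real.pi_pos
  calc |z.re - a.re| ≤ |z.re| + |a.re| := abs_sub _ _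
    _ < 2 * π := by linarith

lemma re_sub_lt (ha : |a.re| < π / 6) {z : ℂ} (hz : |z.re| ≤ π / 2) : |z.re - a.re| < π := by
  have := Real.pi_pos
  calc |z.re - a.re| ≤ |z.re| + |a.re| := abs_sub _ _
    _ < π := by linarith

lemma st_ne {z : ℂ} (h : z ≠ -(starRingEnd ℂ) a) : -(starRingEnd ℂ) z ≠ a := by
  intro h1
  apply h
  rw [← h1, st_st]

lemma quo_norm_side (hGa : G a = 0) (ha : |a.re| < π / 6) (y : ℝ) :
    ‖quo G a (((π / 2 : ℝ) : ℂ) + y * I)‖ =
      ‖ca a (((π / 2 : ℝ) : ℂ) + y * I)‖ * ‖G (((π / 2 : ℝ) : ℂ) + y * I)‖ := by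
  have hpp := Real.pi_pos
  have hre : ((((π / 2 : ℝ) : ℂ) + y * I)).re = π / 2 := by simp
  rw [quo_of_ne hGa, norm_mul]
  apply sin_half_ne' ha
  · rw [hre, abs_of_pos (by linarith)]
  · intro h
    rw [h] at hre
    rw [hre, abs_of_pos (by linarith)] at ha
    linarith

theorem CF.quo_centre (hG : CF ℓ δ η G) (hGa : G a = 0) (ha : a.re = 0) :
    CF ℓ δ η (quo G a) := by
  have hpp := Real.pi_pos
  have ha6 : |a.re| < π / 6 := by rw [ha, abs_zero]; linarith
  have hst : -(starRingEnd ℂ) a = a := by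
    apply Complex.ext
    · simp [ha]
    · simp
  have hd : ∀ z : ℂ, |z.re| < 5 * π / 6 → DifferentiableAt ℂ (quo G a) z :=
    fun z hz => quo_diff hG.diff ha6 hz
  have hside : ∀ y : ℝ, ‖quo G a (((π / 2 : ℝ) : ℂ) + y * I)‖ =
      ‖G (((π / 2 : ℝ) : ℂ) + y * I)‖ := by
    intro y
    rw [quo_norm_side hGa ha6]
    have h := norm_ca_side ha6 y
    rw [hst] at h
    have h2 : ‖ca a (((π / 2 : ℝ) : ℂ) + y * I)‖ = 1 := by
      nlinarith [norm_nonneg (ca a (((π / 2 : ℝ) : ℂ) + y * I))]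
    rw [h2, one_mul]
  refine ⟨hd, ?_, quo_bdd hG.diff hG.bdd hGa ha6, ?_, ?_, ?_⟩
  · apply symm_extend hd ha6 ha6
    intro z hz hza _
    have hz' : |(-(starRingEnd ℂ) z).re| ≤ π / 2 := by rw [st_re, abs_neg]; exact hz
    rw [quo_of_ne hGa (sin_half_ne' ha6 hz hza),
      quo_of_ne hGa (sin_half_ne' ha6 hz' (st_ne (by rw [hst]; exact hza))), map_mul, hG.symm z hz,
      ← ca_conj, hst]
  · intro y
    rw [hside]
    exact hG.side_le y
  · intro y hy
    rw [hside]
    exact hG.side_near y hy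
  · intro z hz h0
    apply hG.zeros z hz
    rw [eq_ta_mul hGa (re_sub_lt ha6 hz.1), h0, mul_zero]

theorem CF.quo_st (hG : CF ℓ δ η G) (ha6 : |a.re| < π / 6) (hGa : G a = 0) (ha : a.re ≠ 0) :
    quo G a (-(starRingEnd ℂ) a) = 0 := by
  have hpp := Real.pi_pos
  have hst6 : |(-(starRingEnd ℂ) a).re| < π / 6 := by rw [st_re, abs_neg]; exact ha6
  have h1 : G (-(starRingEnd ℂ) a) = 0 := by
    rw [hG.symm a (by linarith), hGa, map_zero]
  have hne : -(starRingEnd ℂ) a ≠ a := by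
    intro h
    have := congrArg Complex.re h
    rw [st_re] at this
    apply ha
    linarith
  rw [quo_of_ne hGa (sin_half_ne' ha6 (by linarith) hne), h1, mul_zero]

theorem CF.quo_pair (hG : CF ℓ δ η G) (ha6 : |a.re| < π / 6) (hGa : G a = 0) (ha : a.re ≠ 0) :
    CF ℓ δ η (quo (quo G a) (-(starRingEnd ℂ) a)) := by
  have hpp := Real.pi_pos
  set b := -(starRingEnd ℂ) a with hb
  have hb6 : |b.re| < π / 6 := by rw [hb, st_re, abs_neg]; exact ha6
  have hst : -(starRingEnd ℂ) b = a := by rw [hb, st_st]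
  have h0 : quo G a b = 0 := hG.quo_st ha6 hGa ha
  have hd1 : ∀ z : ℂ, |z.re| < 5 * π / 6 → DifferentiableAt ℂ (quo G a) z :=
    fun z hz => quo_diff hG.diff ha6 hz
  have hd : ∀ z : ℂ, |z.re| < 5 * π / 6 → DifferentiableAt ℂ (quo (quo G a) b) z :=
    fun z hz => quo_diff hd1 hb6 hz
  have hside : ∀ y : ℝ, ‖quo (quo G a) b (((π / 2 : ℝ) : ℂ) + y * I)‖ =
      ‖G (((π / 2 : ℝ) : ℂ) + y * I)‖ := by
    intro y
    rw [quo_norm_side h0 hb6, quo_norm_side hGa ha6, ← mul_assoc,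
      mul_comm ‖ca b _‖, norm_ca_side ha6 y, one_mul]
  refine ⟨hd, ?_, quo_bdd hd1 (quo_bdd hG.diff hG.bdd hGa ha6) h0 hb6, ?_, ?_, ?_⟩
  · apply symm_extend hd ha6 hb6
    intro z hz hza hzb
    have hz' : |(-(starRingEnd ℂ) z).re| ≤ π / 2 := by rw [st_re, abs_neg]; exact hz
    have hza' : -(starRingEnd ℂ) z ≠ a := st_ne (by rw [← hb]; exact hzb)
    have hzb' : -(starRingEnd ℂ) z ≠ b := st_ne (by rw [hst]; exact hza)
    rw [quo_of_ne h0 (sin_half_ne' hb6 hz' hzb'), quo_of_ne hGa (sin_half_ne' ha6 hz' hza'),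
      quo_of_ne h0 (sin_half_ne' hb6 hz hzb), quo_of_ne hGa (sin_half_ne' ha6 hz hza), map_mul,
      map_mul, hG.symm z hz, ← ca_conj a z, ← ca_conj b z, hst]
    rw [← hb]
    ring
  · intro y
    rw [hside]
    exact hG.side_le y
  · intro y hy
    rw [hside]
    exact hG.side_near y hy
  · intro z hz hz0
    apply hG.zeros z hz
    rw [eq_ta_mul hGa (re_sub_lt ha6 hz.1), eq_ta_mul h0 (re_sub_lt hb6 hz.1), hz0, mul_zero,
      mul_zero]

lemma tan_half (x y : ℝ) (h : Real.cos x + Real.cosh y ≠ 0) :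
    Complex.sin ((x + y * I) / 2) / Complex.cos ((x + y * I) / 2) =
      ((Real.sin x : ℝ) + (Real.sinh y : ℝ) * I) / ((Real.cos x + Real.cosh y : ℝ) : ℂ) := by
  set v : ℂ := (x + y * I) / 2
  set u : ℂ := (x - y * I) / 2
  have hv : (x : ℂ) = v + u := by simp only [v, u]; ring
  have hw : (y : ℂ) * I = v - u := by simp only [v, u]; ring
  have h1 : ((Real.sin x : ℝ) : ℂ) + (Real.sinh y : ℝ) * I = 2 * Complex.sin v * Complex.cos u := by
    have e1 : ((Real.sin x : ℝ) : ℂ) = Complex.sin (v + u) := by rw [Complex.ofReal_sin, hv]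
    have e2 : ((Real.sinh y : ℝ) : ℂ) * I = Complex.sin (v - u) := by
      rw [← hw, Complex.sin_mul_I, Complex.ofReal_sinh]
    rw [e1, e2, Complex.sin_add, Complex.sin_sub]
    ring
  have h2 : ((Real.cos x + Real.cosh y : ℝ) : ℂ) = 2 * Complex.cos v * Complex.cos u := by
    have e1 : ((Real.cos x : ℝ) : ℂ) = Complex.cos (v + u) := by rw [Complex.ofReal_cos, hv]
    have e2 : ((Real.cosh y : ℝ) : ℂ) = Complex.cos (v - u) := by
      rw [← hw, Complex.cos_mul_I, Complex.ofReal_cosh]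
    rw [Complex.ofReal_add, e1, e2, Complex.cos_add, Complex.cos_sub]
    ring
  have h3 : ((Real.cos x + Real.cosh y : ℝ) : ℂ) ≠ 0 := by exact_mod_cast h
  rw [h1, h2]
  rw [h2] at h3
  have h4 : Complex.cos v ≠ 0 := by
    intro h0; rw [h0] at h3; simp at h3
  have h5 : Complex.cos u ≠ 0 := by
    intro h0; rw [h0] at h3; simp at h3
  field_simp

lemma ta_formula (a z : ℂ) (x y : ℝ) (hz : z - a = x + y * I) (h : Real.cos x + Real.cosh y ≠ 0) :
    ta a z = ((Real.sinh y : ℝ) - (Real.sin x : ℝ) * I) / ((Real.cos x + Real.cosh y : ℝ) : ℂ) := by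
  unfold ta
  rw [hz, tan_half x y h]
  rw [mul_div_assoc']
  congr 1
  linear_combination -(Real.sinh y : ℂ) * I_sq

end MP6bd
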