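import Mathlib
import Pool.Agent.Lib.MP_6bd702_sv.CFPair

open Complex Set
open scoped Real

/-!
# Removing one zero, and the induction on the energy
-/

namespace MP6bd

variable {ℓ δ η : ℝ} {G : ℂ → ℂ} {a : ℂ}

lemma log_ratio_ge {c S : ℝ} (hS : 0 ≤ S) (hc : S < c) :
    2 * S / c ≤ Real.log ((c + S) / (c - S)) := by
  have hc0 : 0 < c := by linarith
  have h1 : 0 ≤ 2 * S / (c - S) := div_nonneg (by linarith) (by linarith)
  have h2 := Real.le_log_one_add_of_nonneg h1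
  have h3 : 1 + 2 * S / (c - S) = (c + S) / (c - S) := by
    have : c - S ≠ 0 := by linarith
    field_simp
    ring
  have h4 : 2 * (2 * S / (c - S)) / (2 * S / (c - S) + 2) = 2 * S / c := by
    have : c - S ≠ 0 := by linarith
    have h5 : 2 * S / (c - S) + 2 = 2 * c / (c - S) := by field_simp; ring
    rw [h5]
    field_simp
  rw [h3, h4] at h2
  exact h2

lemma omega_neg {S y κ : ℝ} (hy : y ≤ 0)
    (hc : Real.cos κ = Real.sinh |y| / Real.sqrt (Real.sinh |y| ^ 2 + S ^ 2))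
    (hs : Real.sin κ = S / Real.sqrt (Real.sinh |y| ^ 2 + S ^ 2)) :
    ((-Real.sinh y : ℝ) + (S : ℝ) * I) / ((Real.sqrt (Real.sinh |y| ^ 2 + S ^ 2) : ℝ) : ℂ) =
      cexp (I * κ) := by
  rw [mul_comm I, Complex.exp_mul_I, ← Complex.ofReal_cos, ← Complex.ofReal_sin, hc, hs,
    abs_of_nonpos hy, Real.sinh_neg]
  push_cast
  ring

lemma omega_pos {S y κ : ℝ} (hy : 0 ≤ y)
    (hc : Real.cos κ = Real.sinh |y| / Real.sqrt (Real.sinh |y| ^ 2 + S ^ 2))
    (hs : Real.sin κ = S / Real.sqrt (Real.sinh |y| ^ 2 + S ^ 2)) :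
    ((-Real.sinh y : ℝ) + (S : ℝ) * I) / ((Real.sqrt (Real.sinh |y| ^ 2 + S ^ 2) : ℝ) : ℂ) =
      -cexp (I * ((-κ : ℝ) : ℂ)) := by
  rw [mul_comm I, Complex.exp_mul_I, ← Complex.ofReal_cos, ← Complex.ofReal_sin, Real.cos_neg,
    Real.sin_neg, hc, hs, abs_of_nonneg hy]
  push_cast
  ring

/-- the data of the removal of one zero or of a pair -/
def Removal (ℓ δ η : ℝ) (G : ℂ → ℂ) : Prop :=
  ∃ (H : ℂ → ℂ) (b0 b1 : ℂ) (k : ℝ), CF ℓ δ η H ∧ G 0 = b0 * H 0 ∧
    G ((-(π / 2) : ℝ) : ℂ) = b1 * H ((-(π / 2) : ℝ) : ℂ) ∧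
    b1 * (‖b0‖ : ℂ) = b0 * cexp (I * k) ∧
    |k| ≤ (1 + 12 * Real.exp (-2 * ℓ)) * (-Real.log ‖b0‖) ∧ 1 / Real.cosh ℓ ≤ -Real.log ‖b0‖

lemma cosh_le_of_mem {z : ℂ} (hz : z ∈ Rect ℓ) (hℓ : 2 ≤ ℓ) : Real.cosh z.im ≤ Real.cosh ℓ := by
  rw [Real.cosh_le_cosh, abs_of_nonneg (by linarith : (0:ℝ) ≤ ℓ)]
  exact hz.2

theorem CF.remove_centre (hG : CF ℓ δ η G) (hℓ : 2 ≤ ℓ) (ha : a ∈ Rect ℓ) (hGa : G a = 0)
    (hG0 : G 0 ≠ 0) (hre : a.re = 0) : Removal ℓ δ η G := by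
  have hpp := Real.pi_pos
  have ha6 : |a.re| < π / 6 := by rw [hre, abs_zero]; linarith
  set y := a.im with hy
  have hy0 : y ≠ 0 := by
    intro h
    apply hG0
    have h0 : a = 0 := by
      apply Complex.ext
      · simp [hre]
      · simp [← hy, h]
    rw [h0] at hGa
    exact hGa
  have haeq : a = (y : ℂ) * I := by
    apply Complex.ext
    · simp [hre]
    · simp [hy]
  have hcosh : 1 < Real.cosh y := Real.one_lt_cosh.2 hy0
  have hb0 : ta a 0 = ((-(Real.sinh y / (1 + Real.cosh y)) : ℝ) : ℂ) := by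
    rw [ta_formula a 0 0 (-y) (by rw [haeq]; push_cast; ring)
      (by rw [Real.cos_zero, Real.cosh_neg]; linarith)]
    rw [Real.sinh_neg, Real.sin_zero, Real.cos_zero, Real.cosh_neg]
    push_cast
    ring
  have hb1 : ta a ((-(π / 2) : ℝ) : ℂ) =
      ((-Real.sinh y : ℝ) + ((1 : ℝ) : ℂ) * I) / ((Real.cosh y : ℝ) : ℂ) := by
    rw [ta_formula a ((-(π / 2) : ℝ) : ℂ) (-(π / 2)) (-y) (by rw [haeq]; push_cast; ring)
      (by rw [Real.cos_neg, Real.cos_pi_div_two, Real.cosh_neg]; linarith)]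
    rw [Real.sinh_neg, Real.sin_neg, Real.sin_pi_div_two, Real.cos_neg, Real.cos_pi_div_two,
      Real.cosh_neg, zero_add]
    push_cast
    ring
  have hnb : ‖ta a 0‖ = |Real.sinh y| / (1 + Real.cosh y) := by
    rw [hb0, Complex.norm_real, Real.norm_eq_abs, abs_neg, abs_div,
      abs_of_pos (by linarith : (0:ℝ) < 1 + Real.cosh y)]
  have hnb2 : ‖ta a 0‖ ^ 2 = ((Real.cosh y + 1) / (Real.cosh y - 1))⁻¹ := by
    rw [hnb, div_pow, sq_abs, inv_div]
    have h1 : Real.cosh y - 1 ≠ 0 := by linarith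
    have h2 : Real.cosh y + 1 ≠ 0 := by linarith
    have h3 := Real.cosh_sq y
    have h4 : Real.sinh y ^ 2 = (Real.cosh y - 1) * (Real.cosh y + 1) := by linarith
    rw [h4]
    field_simp
    ring
  have hlog : -Real.log ‖ta a 0‖ = 1 / 2 * Real.log ((Real.cosh y + 1) / (Real.cosh y - 1)) := by
    have h1 := congrArg Real.log hnb2
    rw [Real.log_pow, Real.log_inv] at h1
    push_cast at h1
    linarith
  have hlow := log_ratio_ge (c := Real.cosh y) (S := 1) (by norm_num) hcosh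
  have hcl := cosh_le_of_mem ha hℓ
  rw [← hy] at hcl
  have hlow2 : 1 / Real.cosh ℓ ≤ -Real.log ‖ta a 0‖ := by
    rw [hlog]
    have h1 : 1 / Real.cosh ℓ ≤ 1 / Real.cosh y :=
      one_div_le_one_div_of_le (by linarith) hcl
    have h2 : 2 * 1 / Real.cosh y = 2 * (1 / Real.cosh y) := by ring
    rw [h2] at hlow
    linarith
  have hpos : 0 < -Real.log ‖ta a 0‖ :=
    lt_of_lt_of_le (one_div_pos.2 (Real.cosh_pos ℓ)) hlow2
  obtain ⟨κ, hκ0, _, hκc, hκs, hκ⟩ := phase_le (S := 1) (y := |y|) one_pos le_rfl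
    (by norm_num) (abs_nonneg y) (Or.inl (abs_pos.2 hy0))
  rw [Real.cosh_abs] at hκ
  have hκ2 : κ ≤ -Real.log ‖ta a 0‖ := by
    rw [hlog]
    norm_num at hκ ⊢
    linarith
  have hr : Real.sqrt (Real.sinh |y| ^ 2 + 1 ^ 2) = Real.cosh y := by
    rw [one_pow, ← Real.cosh_sq, Real.cosh_abs]
    exact Real.sqrt_sq (Real.cosh_pos y).le
  have hq : 0 < Real.exp (-2 * ℓ) := Real.exp_pos _
  have hfin : κ ≤ (1 + 12 * Real.exp (-2 * ℓ)) * (-Real.log ‖ta a 0‖) := by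
    nlinarith
  have hH := hG.quo_centre hGa hre
  have e0 : G 0 = ta a 0 * quo G a 0 := eq_ta_mul hGa (re_sub_lt ha6 (by simpa using (by linarith : (0:ℝ) ≤ π / 2)))
  have e1 : G ((-(π / 2) : ℝ) : ℂ) = ta a ((-(π / 2) : ℝ) : ℂ) * quo G a ((-(π / 2) : ℝ) : ℂ) :=
    eq_ta_mul hGa (re_sub_lt ha6 (by rw [Complex.ofReal_re, abs_neg, abs_of_pos (by linarith)]))
  rcases lt_or_gt_of_ne hy0 with hneg | hpos'
  · refine ⟨quo G a, ta a 0, ta a ((-(π / 2) : ℝ) : ℂ), κ, hH, e0, e1, ?_, ?_, hlow2⟩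
    · have h1 := omega_neg (S := 1) hneg.le hκc hκs
      rw [hr] at h1
      rw [hb1, h1, hnb, hb0, abs_of_neg (by simpa using hneg), mul_comm]
      congr 1
      push_cast
      ring
    · rw [abs_of_nonneg hκ0]; exact hfin
  · refine ⟨quo G a, ta a 0, ta a ((-(π / 2) : ℝ) : ℂ), -κ, hH, e0, e1, ?_, ?_, hlow2⟩
    · have h1 := omega_pos (S := 1) hpos'.le hκc hκs
      rw [hr] at h1
      rw [hb1, h1, hnb, hb0, abs_of_pos (by simpa using hpos'), mul_comm]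
      push_cast
      ring
    · rw [abs_neg, abs_of_nonneg hκ0]; exact hfin

theorem CF.remove_pair (hG : CF ℓ δ η G) (hℓ : 2 ≤ ℓ) (ha : a ∈ Rect ℓ) (hGa : G a = 0)
    (hre : a.re ≠ 0) : Removal ℓ δ η G := by
  have hpp := Real.pi_pos
  have hz := hG.zeros a ha hGa
  have ha6 : |a.re| < π / 6 := re_lt_of_sin hℓ ha.1 hz
  have ha6' := abs_lt.1 ha6
  set b := -(starRingEnd ℂ) a with hb
  have hb6 : |b.re| < π / 6 := by rw [hb, st_re, abs_neg]; exact ha6
  set y := a.im with hy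
  set x := a.re with hx
  have haeq : a = (x : ℂ) + (y : ℂ) * I := (Complex.re_add_im a).symm
  have hbeq : b = -(x : ℂ) + (y : ℂ) * I := by
    rw [hb]
    apply Complex.ext
    · simp [hx]
    · simp [hy]
  set S := Real.cos x with hS
  have hS1 : Real.cos (π / 3) ≤ S := by
    rw [hS, ← Real.cos_abs x]
    exact Real.cos_le_cos_of_nonneg_of_le_pi (abs_nonneg x) (by linarith) (by linarith)
  rw [Real.cos_pi_div_three] at hS1
  have hsb : -1 < Real.sin x ∧ Real.sin x < 1 := by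
    have h1 := exp_neg_lt_half hℓ
    have h2 := abs_le.1 hz
    constructor <;> linarith [h2.1, h2.2]
  have hsin0 : Real.sin x ≠ 0 := by
    intro h
    apply hre
    rw [Real.sin_eq_zero_iff_of_lt_of_lt (by linarith [ha6'.1]) (by linarith [ha6'.2])] at h
    exact h
  have hss : Real.sin x ^ 2 = 1 - S ^ 2 := by
    have := Real.sin_sq_add_cos_sq x
    rw [hS]; linarith
  have hsin2 : 0 < Real.sin x ^ 2 := by positivity
  have hSlt : S < 1 := by nlinarith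
  have hc1 : 1 ≤ Real.cosh y := Real.one_le_cosh y
  have hcosh2 := Real.cosh_sq y
  -- bound on sin²
  have hq : Real.sin x ^ 2 ≤ Real.exp (-2 * ℓ) := by
    have h1 : Real.exp (-2 * ℓ) = Real.exp (-ℓ) ^ 2 := by
      rw [← Real.exp_nat_mul]; congr 1; push_cast; ring
    rw [h1, ← sq_abs (Real.sin x)]
    exact pow_le_pow_left₀ (abs_nonneg _) hz 2
  have hq53 : Real.exp (-2 * ℓ) ≤ 1 / 53 := by
    have h1 : Real.exp (-2 * ℓ) ≤ Real.exp (-4) := by rw [Real.exp_le_exp]; linarith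
    have h2 : Real.exp (-4) ≤ 1 / 53 := by
      rw [Real.exp_neg, inv_eq_one_div]
      apply one_div_le_one_div_of_le (by norm_num)
      have h3 : Real.exp 4 = Real.exp 1 ^ 4 := by rw [← Real.exp_nat_mul]; norm_num
      rw [h3]
      have h4 := Real.exp_one_gt_d9
      calc (53 : ℝ) ≤ 2.7 ^ 4 := by norm_num
        _ ≤ Real.exp 1 ^ 4 := by
          apply pow_le_pow_left₀ (by norm_num)
          linarith
    linarith
  have hτ : 1 / S ^ 2 - 1 = Real.sin x ^ 2 / S ^ 2 := by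
    rw [hss]
    have : S ^ 2 ≠ 0 := by positivity
    field_simp
  have hS2 : 52 / 53 ≤ S ^ 2 := by linarith
  have hτ1 : 1 / S ^ 2 - 1 ≤ 1 / 50 := by
    rw [hτ, div_le_iff₀ (by positivity)]
    linarith
  have hτ2 : 3 * (1 / S ^ 2 - 1) ≤ 12 * Real.exp (-2 * ℓ) := by
    rw [hτ]
    have : Real.sin x ^ 2 / S ^ 2 ≤ 4 * Real.exp (-2 * ℓ) := by
      rw [div_le_iff₀ (by positivity)]
      nlinarith [Real.exp_pos (-2 * ℓ)]
    linarith
  have hcs : S < Real.cosh y := by linarith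
  have h0ca : Real.cos (-x) + Real.cosh (-y) ≠ 0 := by
    rw [Real.cos_neg, Real.cosh_neg, ← hS]; linarith
  have h0cb : Real.cos x + Real.cosh (-y) ≠ 0 := by
    rw [Real.cosh_neg, ← hS]; linarith
  have hta0 : ta a 0 = ((-Real.sinh y : ℝ) + (Real.sin x : ℝ) * I) / ((S + Real.cosh y : ℝ) : ℂ) := by
    rw [ta_formula a 0 (-x) (-y) (by rw [haeq]; push_cast; ring) h0ca]
    rw [Real.sinh_neg, Real.sin_neg, Real.cos_neg, Real.cosh_neg, ← hS]
    push_cast
    ring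
  have htb0 : ta b 0 = ((-Real.sinh y : ℝ) - (Real.sin x : ℝ) * I) / ((S + Real.cosh y : ℝ) : ℂ) := by
    rw [ta_formula b 0 x (-y) (by rw [hbeq]; push_cast; ring) h0cb]
    rw [Real.sinh_neg, Real.cosh_neg]
  have hSc : ((S + Real.cosh y : ℝ) : ℂ) ≠ 0 := by
    exact_mod_cast (by linarith : S + Real.cosh y ≠ 0)
  have hb0 : ta a 0 * ta b 0 = (((Real.cosh y - S) / (Real.cosh y + S) : ℝ) : ℂ) := by
    rw [hta0, htb0]
    have h1 : ((-Real.sinh y : ℝ) + (Real.sin x : ℝ) * I) * ((-Real.sinh y : ℝ) - (Real.sin x : ℝ) * I) =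
        (((Real.cosh y - S) * (Real.cosh y + S) : ℝ) : ℂ) := by
      have h2 : (Real.cosh y - S) * (Real.cosh y + S) = Real.sinh y ^ 2 + Real.sin x ^ 2 := by
        rw [hss]; linarith
      rw [h2]
      push_cast
      linear_combination (-(Complex.sin x ^ 2)) * I_sq
    rw [div_mul_div_comm, h1, ← Complex.ofReal_mul, ← Complex.ofReal_div]
    congr 1
    have h3 : Real.cosh y + S ≠ 0 := by linarith
    have h4 : S + Real.cosh y ≠ 0 := by linarith
    field_simp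
    ring
  have hta1 : ta a ((-(π / 2) : ℝ) : ℂ) =
      ((-Real.sinh y : ℝ) + (S : ℝ) * I) / ((-Real.sin x + Real.cosh y : ℝ) : ℂ) := by
    have e1 : Real.sin (-(π / 2) - x) = -S := by
      rw [show -(π / 2) - x = -(x + π / 2) by ring, Real.sin_neg, Real.sin_add_pi_div_two]
    have e2 : Real.cos (-(π / 2) - x) = -Real.sin x := by
      rw [show -(π / 2) - x = -(x + π / 2) by ring, Real.cos_neg, Real.cos_add_pi_div_two]
    rw [ta_formula a ((-(π / 2) : ℝ) : ℂ) (-(π / 2) - x) (-y) (by rw [haeq]; push_cast; ring)]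
    · rw [e1, e2, Real.sinh_neg, Real.cosh_neg]
      push_cast
      ring
    · rw [e2, Real.cosh_neg]
      linarith [hsb.2]
  have htb1 : ta b ((-(π / 2) : ℝ) : ℂ) =
      ((-Real.sinh y : ℝ) + (S : ℝ) * I) / ((Real.sin x + Real.cosh y : ℝ) : ℂ) := by
    have e1 : Real.sin (-(π / 2) + x) = -S := by
      rw [show -(π / 2) + x = -(π / 2 - x) by ring, Real.sin_neg, Real.sin_pi_div_two_sub]
    have e2 : Real.cos (-(π / 2) + x) = Real.sin x := by
      rw [show -(π / 2) + x = -(π / 2 - x) by ring, Real.cos_neg, Real.cos_pi_div_two_sub]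
    rw [ta_formula b ((-(π / 2) : ℝ) : ℂ) (-(π / 2) + x) (-y) (by rw [hbeq]; push_cast; ring)]
    · rw [e1, e2, Real.sinh_neg, Real.cosh_neg]
      push_cast
      ring
    · rw [e2, Real.cosh_neg]
      linarith [hsb.1]
  have hta1' : ((-Real.sin x + Real.cosh y : ℝ) : ℂ) ≠ 0 := by
    exact_mod_cast (by linarith [hsb.2] : -Real.sin x + Real.cosh y ≠ 0)
  have htb1' : ((Real.sin x + Real.cosh y : ℝ) : ℂ) ≠ 0 := by
    exact_mod_cast (by linarith [hsb.1] : Real.sin x + Real.cosh y ≠ 0)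
  set r := Real.sqrt (Real.sinh |y| ^ 2 + S ^ 2) with hr
  have hr2 : r ^ 2 = Real.sinh y ^ 2 + S ^ 2 := by
    rw [hr, Real.sq_sqrt (by positivity)]
    rcases abs_choice y with h | h
    · rw [h]
    · rw [h, Real.sinh_neg]; ring
  have hr0 : (r : ℂ) ≠ 0 := by
    have : 0 < r := Real.sqrt_pos.2 (by positivity)
    exact_mod_cast this.ne'
  set ω : ℂ := ((-Real.sinh y : ℝ) + (S : ℝ) * I) / (r : ℂ) with hω
  have hb1 : ta a ((-(π / 2) : ℝ) : ℂ) * ta b ((-(π / 2) : ℝ) : ℂ) = ω ^ 2 := by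
    rw [hta1, htb1, hω, div_pow, div_mul_div_comm]
    have h1 : ((-Real.sin x + Real.cosh y : ℝ) : ℂ) * ((Real.sin x + Real.cosh y : ℝ) : ℂ) =
        (r : ℂ) ^ 2 := by
      rw [← Complex.ofReal_mul, ← Complex.ofReal_pow, hr2]
      congr 1
      nlinarith
    rw [h1]
    ring
  have hβ : 0 < (Real.cosh y - S) / (Real.cosh y + S) := div_pos (by linarith) (by linarith)
  have hnb : ‖ta a 0 * ta b 0‖ = (Real.cosh y - S) / (Real.cosh y + S) := by
    rw [hb0, Complex.norm_real, Real.norm_of_nonneg hβ.le]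
  have hlog : -Real.log ‖ta a 0 * ta b 0‖ = Real.log ((Real.cosh y + S) / (Real.cosh y - S)) := by
    rw [hnb, ← Real.log_inv, inv_div]
  have hlow := log_ratio_ge (c := Real.cosh y) (S := S) (by linarith) hcs
  have hcl := cosh_le_of_mem ha hℓ
  rw [← hy] at hcl
  have hlow2 : 1 / Real.cosh ℓ ≤ -Real.log ‖ta a 0 * ta b 0‖ := by
    rw [hlog]
    have h1 : 1 / Real.cosh ℓ ≤ 1 / Real.cosh y :=
      one_div_le_one_div_of_le (by linarith) hcl
    have h2 : 1 / Real.cosh y ≤ 2 * S / Real.cosh y :=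
      div_le_div_of_nonneg_right (by linarith) (by linarith)
    linarith
  have hpos : 0 < -Real.log ‖ta a 0 * ta b 0‖ :=
    lt_of_lt_of_le (one_div_pos.2 (Real.cosh_pos ℓ)) hlow2
  obtain ⟨κ, hκ0, _, hκc, hκs, hκ⟩ := phase_le (S := S) (y := |y|) (by linarith) hSlt.le
    hτ1 (abs_nonneg y) (Or.inr hSlt)
  rw [Real.cosh_abs] at hκ
  have hfin : 2 * κ ≤ (1 + 12 * Real.exp (-2 * ℓ)) * (-Real.log ‖ta a 0 * ta b 0‖) := by
    rw [hlog] at hpos ⊢
    nlinarith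
  have h0 : quo G a b = 0 := hG.quo_st ha6 hGa hre
  have hH := hG.quo_pair ha6 hGa hre
  rw [← hb] at hH
  have e0 : G 0 = (ta a 0 * ta b 0) * quo (quo G a) b 0 := by
    rw [mul_assoc, ← eq_ta_mul h0 (re_sub_lt hb6 (by simpa using (by linarith : (0:ℝ) ≤ π / 2))),
      ← eq_ta_mul hGa (re_sub_lt ha6 (by simpa using (by linarith : (0:ℝ) ≤ π / 2)))]
  have hpr : |(((-(π / 2) : ℝ) : ℂ)).re| ≤ π / 2 := by
    rw [Complex.ofReal_re, abs_neg, abs_of_pos (by linarith)]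
  have e1 : G ((-(π / 2) : ℝ) : ℂ) = (ta a ((-(π / 2) : ℝ) : ℂ) * ta b ((-(π / 2) : ℝ) : ℂ)) *
      quo (quo G a) b ((-(π / 2) : ℝ) : ℂ) := by
    rw [mul_assoc, ← eq_ta_mul h0 (re_sub_lt hb6 hpr), ← eq_ta_mul hGa (re_sub_lt ha6 hpr)]
  rcases le_total y 0 with hneg | hpos'
  · refine ⟨quo (quo G a) b, _, _, 2 * κ, hH, e0, e1, ?_, ?_, hlow2⟩
    · have h1 := omega_neg (S := S) hneg hκc hκs
      rw [← hr, ← hω] at h1
      rw [hb1, h1, hnb, hb0, ← Complex.exp_nat_mul, mul_comm]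
      congr 2
      push_cast
      ring
    · rw [abs_of_nonneg (by linarith)]; exact hfin
  · refine ⟨quo (quo G a) b, _, _, -(2 * κ), hH, e0, e1, ?_, ?_, hlow2⟩
    · have h1 := omega_pos (S := S) hpos' hκc hκs
      rw [← hr, ← hω] at h1
      rw [hb1, h1, hnb, hb0, neg_sq, ← Complex.exp_nat_mul, mul_comm]
      congr 2
      push_cast
      ring
    · rw [abs_neg, abs_of_nonneg (by linarith)]; exact hfin

/-- the full cone in the class `CF` -/
theorem CF.concl (hℓ : 2 ≤ ℓ) (hδ : 0 ≤ δ) (hη : 0 ≤ η) (hδη : δ * Real.cosh ℓ ≤ η) :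
    ∀ n : ℕ, ∀ G : ℂ → ℂ, CF ℓ δ η G → G 0 ≠ 0 → δ - n * (1 / Real.cosh ℓ) < Real.log ‖G 0‖ →
      Concl ℓ η G := by
  intro n
  have hpp := Real.pi_pos
  induction n with
  | zero =>
    intro G hG hG0 h
    exfalso
    have h1 := hG.max hδ (z := 0) (by simpa using (by linarith : (0:ℝ) ≤ π / 2))
    have h2 : Real.log ‖G 0‖ ≤ δ * Real.cosh (2 * (0:ℂ).im / 3) := by
      rw [Real.log_le_iff_le_exp (norm_pos_iff.2 hG0)]
      exact h1
    simp at h h2
    linarith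
  | succ n ih =>
    intro G hG hG0 h
    by_cases hz : ∀ z ∈ Rect ℓ, G z ≠ 0
    · exact hG.zero_free hℓ hδ hη hδη hz
    · push Not at hz
      obtain ⟨a, ha, hGa⟩ := hz
      have hrem : Removal ℓ δ η G := by
        by_cases hre : a.re = 0
        · exact hG.remove_centre hℓ ha hGa hG0 hre
        · exact hG.remove_pair hℓ ha hGa hre
      obtain ⟨H, b0, b1, k, hH, e0, e1, e2, hk, hlow⟩ := hrem
      have hb0 : b0 ≠ 0 := by
        rintro rfl
        rw [zero_mul] at e0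
        exact hG0 e0
      have hH0 : H 0 ≠ 0 := by
        intro h0
        rw [h0, mul_zero] at e0
        exact hG0 e0
      have hlog : Real.log ‖G 0‖ = Real.log ‖b0‖ + Real.log ‖H 0‖ := by
        rw [e0, norm_mul, Real.log_mul (norm_ne_zero_iff.2 hb0) (norm_ne_zero_iff.2 hH0)]
      have h3 : δ - n * (1 / Real.cosh ℓ) < Real.log ‖H 0‖ := by
        push_cast at h
        linarith
      obtain ⟨k', hk1, hk2⟩ := ih H hH hH0 h3
      refine ⟨k + k', ?_, ?_⟩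
      · rw [e1]
        have h4 : (‖G 0‖ : ℂ) = (‖b0‖ : ℂ) * (‖H 0‖ : ℂ) := by
          rw [e0, norm_mul]; push_cast; rfl
        rw [h4, e0]
        have h5 : cexp (I * ((k + k' : ℝ) : ℂ)) = cexp (I * k) * cexp (I * k') := by
          rw [← Complex.exp_add]; congr 1; push_cast; ring
        rw [h5]
        linear_combination (H ((-(π / 2) : ℝ) : ℂ) * (‖H 0‖ : ℂ)) * e2 + (b0 * cexp (I * k)) * hk1
      · rw [hlog]
        refine (abs_add_le _ _).trans ?_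
        linarith

theorem CF.cone (hG : CF ℓ δ η G) (hℓ : 2 ≤ ℓ) (hδ : 0 ≤ δ) (hη : 0 ≤ η)
    (hδη : δ * Real.cosh ℓ ≤ η) (hG0 : G 0 ≠ 0) : Concl ℓ η G := by
  have hc : 0 < 1 / Real.cosh ℓ := one_div_pos.2 (Real.cosh_pos ℓ)
  obtain ⟨n, hn⟩ := exists_nat_gt ((δ - Real.log ‖G 0‖) / (1 / Real.cosh ℓ))
  apply CF.concl hℓ hδ hη hδη n G hG hG0
  rw [div_lt_iff₀ hc] at hn
  linarith

end MP6bd
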