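import Mathlib

/-!
# Eigenvalue functions of the six-vertex transfer matrix at `Δ = 1/2`

`EigFun N Λ`: the properties of an eigenvalue function `Λ(w)` of the normalised transfer matrix
`t(w)` of the six-vertex model (weights `sin (π/3 - w)`, `sin w`, `sin (π/3)` divided by
`sin (π/3 + w)`) on a circle with `N` sites that are used in the analytic part of step 1.
-/

open Complex

namespace MP6bd

/-- The properties of an eigenvalue function of the transfer matrix used in the analytic part. -/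
structure EigFun (N : ℕ) (Λ : ℂ → ℂ) : Prop where
  diff : DifferentiableOn ℂ Λ {w : ℂ | -(Real.pi / 3) < w.re ∧ w.re < 2 * Real.pi / 3}
  refl : ∀ w : ℂ, 0 ≤ w.re → w.re ≤ Real.pi / 3 →
    Λ ((Real.pi / 3 : ℝ) - (starRingEnd ℂ) w) = (starRingEnd ℂ) (Λ w)
  bdd : ∃ C : ℝ, ∀ w : ℂ, 0 ≤ w.re → w.re ≤ Real.pi / 3 → ‖Λ w‖ ≤ C
  fusion : ∀ w : ℂ, 0 ≤ w.re → w.re ≤ Real.pi / 6 →
    ‖Λ w * Λ (w + (Real.pi / 3 : ℝ)) - 1‖ ≤ 3 * ‖Complex.tan (3 * w / 2)‖ ^ N

end MP6bd
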