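import Mathlib
import Pool.Agent.Lib.MP_6bd702_sv.CF
import Pool.Agent.Lib.MP_6bd702_sv.EigFun
import Pool.Agent.Lib.SixB.S1LemB

open Complex
open scoped Real

/-!
# Eigenvalue functions belong to the class `CF` for large `N`

Recipe. `G z = Λ (π/6 + z/3)`. On the side `z = -π/2 + i y` (i.e. `w = i y/3`) `refl` and
`fusion` give `| ‖G‖² - 1 | ≤ 3 tanh(|y|/2)^N`, and the right side has the same norm by `refl`.
`side_le`: with `Y` such that `δ/2 cosh(2Y/3) ≥ log 2` use `‖G‖² ≤ 4` for `|y| ≥ Y`, and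
`‖G‖² ≤ 1 + 3 tanh(Y/2)^N ≤ exp δ` for `|y| ≤ Y`. `side_near`: `tanh^N ≤ (|y|/2) tanh(ℓ/2)^(N-1)`.
`zeros`: by `refl` one may take `Re z ≤ 0`; then `1 ≤ 3 ‖tan((z + π/2)/2)‖^N` and
`‖tan((z + π/2)/2)‖² = (cosh y - sin |x|)/(cosh y + sin |x|)`, which is at most
`(cosh ℓ - e)/(cosh ℓ + e)` if `sin |x| ≥ e := exp (-ℓ)` and `|y| ≤ ℓ`.
-/

namespace MP6bd

private lemma tanh_lt_one' (x : ℝ) : Real.tanh x < 1 := by
  rw [Real.tanh_eq_sinh_div_cosh, div_lt_one (Real.cosh_pos _)]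
  exact Real.sinh_lt_cosh x

private lemma tanh_nonneg' {x : ℝ} (hx : 0 ≤ x) : 0 ≤ Real.tanh x := by
  rw [Real.tanh_eq_sinh_div_cosh]
  exact div_nonneg (Real.sinh_nonneg_iff.2 hx) (Real.cosh_pos _).le

private lemma tanh_mono' {x y : ℝ} (h : x ≤ y) : Real.tanh x ≤ Real.tanh y := by
  rw [Real.tanh_eq_sinh_div_cosh, Real.tanh_eq_sinh_div_cosh, div_le_div_iff₀ (Real.cosh_pos _)
    (Real.cosh_pos _)]
  have h1 : 0 ≤ Real.sinh (y - x) := Real.sinh_nonneg_iff.2 (by linarith)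
  rw [Real.sinh_sub] at h1
  linarith

/-- `tanh x ≤ x` for `x ≥ 0` (from `(1 - e^{-2x})/(1 + e^{-2x})`) -/
private lemma tanh_le_self' {x : ℝ} (hx : 0 ≤ x) : Real.tanh x ≤ x := by
  -- `sinh x ≤ x cosh x`
  rw [Real.tanh_eq_sinh_div_cosh, div_le_iff₀ (Real.cosh_pos _)]
  have hmono : MonotoneOn (fun t : ℝ => t * Real.cosh t - Real.sinh t) (Set.Ici 0) := by
    apply monotoneOn_of_deriv_nonneg (convex_Ici 0)
    · fun_prop
    · fun_prop
    · intro t ht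
      rw [interior_Ici] at ht
      have h1 : HasDerivAt (fun t : ℝ => t * Real.cosh t - Real.sinh t)
          (1 * Real.cosh t + t * Real.sinh t - Real.cosh t) t :=
        ((hasDerivAt_id t).mul (Real.hasDerivAt_cosh t)).sub (Real.hasDerivAt_sinh t)
      rw [h1.deriv]
      have h2 : 0 ≤ t * Real.sinh t :=
        mul_nonneg (le_of_lt ht) (Real.sinh_nonneg_iff.2 (le_of_lt ht))
      linarith
  have h := hmono (Set.mem_Ici.2 le_rfl) (Set.mem_Ici.2 hx) hx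
  simp at h
  exact h

private lemma right_norm {N : ℕ} {Λ : ℂ → ℂ} (h : EigFun N Λ) (y : ℝ) :
    ‖Λ ((π / 6 : ℝ) + ((π / 2 : ℝ) + y * I) / 3)‖ = ‖Λ (((y / 3 : ℝ) : ℂ) * I)‖ := by
  have e : (((π / 6 : ℝ) : ℂ) + (((π / 2 : ℝ) : ℂ) + y * I) / 3) =
      ((y / 3 : ℝ) : ℂ) * I + (π / 3 : ℝ) := by
    push_cast; ring
  rw [e, h.right_eq, RCLike.norm_conj]

private lemma side' {N : ℕ} {Λ : ℂ → ℂ} (h : EigFun N Λ) (y : ℝ) :
    |‖Λ (((y / 3 : ℝ) : ℂ) * I)‖ ^ 2 - 1| ≤ 3 * Real.tanh (|y| / 2) ^ N := by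
  have h1 := h.side (y / 3)
  have e : 3 * |y / 3| / 2 = |y| / 2 := by
    rw [abs_div, abs_of_pos (by norm_num : (0 : ℝ) < 3)]; ring
  rwa [e] at h1

private lemma one_sub_ge {u : ℝ} (h1 : u ≤ 1 / 2) (h0 : 0 ≤ u) : Real.exp (-(2 * u)) ≤ 1 - u := by
  have h2 : Real.exp (-(2 * u)) = (Real.exp (2 * u))⁻¹ := Real.exp_neg _
  rw [h2]
  have h3 : 1 + 2 * u ≤ Real.exp (2 * u) := by
    have := Real.add_one_le_exp (2 * u); linarith
  rw [inv_le_comm₀ (Real.exp_pos _) (by linarith)]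
  refine le_trans ?_ h3
  rw [inv_le_iff_one_le_mul₀ (by linarith)]
  nlinarith

theorem cf_of_eigFun {ℓ δ η : ℝ} (hℓ : 2 ≤ ℓ) (hδ : 0 < δ) (hη : 0 < η) :
    ∃ N₀ : ℕ, ∀ N : ℕ, N₀ ≤ N → ∀ Λ : ℂ → ℂ, EigFun N Λ →
      CF ℓ δ η (fun z : ℂ => Λ ((π / 6 : ℝ) + z / 3)) := by
  have hpi := Real.pi_pos
  -- the constants
  obtain ⟨Y, hY0, hY⟩ : ∃ Y : ℝ, 0 ≤ Y ∧ 2 ≤ Real.exp (δ / 2 * Real.cosh (2 * Y / 3)) := by
    refine ⟨3 / 2 * (4 / δ), by positivity, ?_⟩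
    have e1 : 2 * (3 / 2 * (4 / δ)) / 3 = 4 / δ := by ring
    rw [e1]
    have e2 : 4 / δ ≤ 2 * Real.cosh (4 / δ) := by
      rw [Real.cosh_eq]
      have e3 := Real.add_one_le_exp (4 / δ)
      have e4 := Real.exp_pos (-(4 / δ))
      linarith
    have e3 : 1 ≤ δ / 2 * Real.cosh (4 / δ) := by
      have e4 : δ / 4 * (4 / δ) = 1 := by field_simp
      calc (1 : ℝ) = δ / 4 * (4 / δ) := e4.symm
        _ ≤ δ / 4 * (2 * Real.cosh (4 / δ)) := by gcongr
        _ = _ := by ring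
    have e4 := Real.add_one_le_exp (δ / 2 * Real.cosh (4 / δ))
    linarith
  obtain ⟨θ, hθ⟩ : ∃ θ, θ = Real.tanh (Y / 2) := ⟨_, rfl⟩
  have hθ0 : 0 ≤ θ := by rw [hθ]; exact tanh_nonneg' (by positivity)
  have hθ1 : θ < 1 := by rw [hθ]; exact tanh_lt_one' _
  obtain ⟨ρ, hρ⟩ : ∃ ρ, ρ = Real.tanh (ℓ / 2) := ⟨_, rfl⟩
  have hρ0 : 0 ≤ ρ := by rw [hρ]; exact tanh_nonneg' (by linarith)
  have hρ1 : ρ < 1 := by rw [hρ]; exact tanh_lt_one' _
  obtain ⟨κ, hκ⟩ : ∃ κ, κ = Real.exp (-ℓ) / Real.cosh ℓ := ⟨_, rfl⟩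
  have hκ0 : 0 < κ := by rw [hκ]; exact div_pos (Real.exp_pos _) (Real.cosh_pos _)
  have hexp : 0 < Real.exp δ - 1 := by
    have := Real.add_one_lt_exp hδ.ne'
    linarith
  have c1 : ∀ᶠ N : ℕ in Filter.atTop, 3 * θ ^ N ≤ Real.exp δ - 1 := by
    have h1 : Filter.Tendsto (fun N : ℕ => 3 * θ ^ N) Filter.atTop (nhds (3 * 0)) :=
      (tendsto_pow_atTop_nhds_zero_of_lt_one hθ0 hθ1).const_mul 3
    rw [mul_zero] at h1
    exact h1.eventually (ge_mem_nhds hexp)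
  have c2 : ∀ᶠ N : ℕ in Filter.atTop, 3 / 2 * ρ ^ N ≤ min η (1 / (2 * ℓ)) := by
    have h1 : Filter.Tendsto (fun N : ℕ => 3 / 2 * ρ ^ N) Filter.atTop (nhds (3 / 2 * 0)) :=
      (tendsto_pow_atTop_nhds_zero_of_lt_one hρ0 hρ1).const_mul _
    rw [mul_zero] at h1
    exact h1.eventually (ge_mem_nhds (lt_min hη (by positivity)))
  have c3 : ∀ᶠ N : ℕ in Filter.atTop, 2 < (N : ℝ) * κ := by
    have h1 : Filter.Tendsto (fun N : ℕ => (N : ℝ) * κ) Filter.atTop Filter.atTop :=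
      tendsto_natCast_atTop_atTop.atTop_mul_const hκ0
    exact h1.eventually (Filter.eventually_gt_atTop 2)
  obtain ⟨N₁, hN₁⟩ := Filter.eventually_atTop.1 (c1.and (c2.and c3))
  refine ⟨N₁ + 2, fun N hN Λ h => ?_⟩
  obtain ⟨d1, _, d3⟩ := hN₁ N (by omega)
  obtain ⟨_, d2, _⟩ := hN₁ (N - 1) (by omega)
  have hN1 : 1 ≤ N := by omega
  have hre : ∀ z : ℂ, (((π / 6 : ℝ) : ℂ) + z / 3).re = π / 6 + z.re / 3 := by
    intro z
    have : z / 3 = ((1 / 3 : ℝ) : ℂ) * z := by push_cast; ring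
    rw [this, Complex.add_re, Complex.ofReal_re, Complex.re_ofReal_mul]; ring
  have him : ∀ z : ℂ, (((π / 6 : ℝ) : ℂ) + z / 3).im = z.im / 3 := by
    intro z
    have : z / 3 = ((1 / 3 : ℝ) : ℂ) * z := by push_cast; ring
    rw [this, Complex.add_im, Complex.ofReal_im, Complex.im_ofReal_mul]; ring
  have hsymm : ∀ z : ℂ, |z.re| ≤ π / 2 → Λ ((π / 6 : ℝ) + (-(starRingEnd ℂ) z) / 3) =
      (starRingEnd ℂ) (Λ ((π / 6 : ℝ) + z / 3)) := by
    intro z hz
    have hz' := abs_le.1 hz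
    rw [← h.refl _ (by rw [hre]; linarith) (by rw [hre]; linarith)]
    congr 1
    have : z / 3 = ((1 / 3 : ℝ) : ℂ) * z := by push_cast; ring
    rw [this, map_add, map_mul, Complex.conj_ofReal, Complex.conj_ofReal]
    push_cast
    ring
  -- the zeros on the left half
  have hzero : ∀ z : ℂ, -(π / 2) ≤ z.re → z.re ≤ 0 → |z.im| ≤ ℓ → Λ ((π / 6 : ℝ) + z / 3) = 0 →
      |Real.sin z.re| ≤ Real.exp (-ℓ) := by
    intro z h1 h2 h3 h4
    by_contra hcon
    rw [not_le] at hcon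
    have h5 := h.fusion ((π / 6 : ℝ) + z / 3) (by rw [hre]; linarith) (by rw [hre]; linarith)
    rw [h4, zero_mul, zero_sub, norm_neg, norm_one] at h5
    have hs : |Real.sin z.re| = Real.cos (3 * (((π / 6 : ℝ) : ℂ) + z / 3).re) := by
      rw [hre]
      have e1 : 3 * (π / 6 + z.re / 3) = z.re + π / 2 := by ring
      rw [e1, Real.cos_add_pi_div_two, abs_of_nonpos]
      exact Real.sin_nonpos_of_nonpos_of_neg_pi_le h2 (by linarith)
    have hc : Real.cosh (3 * (((π / 6 : ℝ) : ℂ) + z / 3).im) ≤ Real.cosh ℓ := by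
      rw [him, ← Real.cosh_abs]
      have e1 : 3 * (z.im / 3) = z.im := by ring
      rw [e1, Real.cosh_le_cosh, abs_abs]
      exact h3.trans (le_abs_self ℓ)
    have h6 := norm_tan_sq (((π / 6 : ℝ) : ℂ) + z / 3)
    rw [← hs] at h6
    obtain ⟨c, hc'⟩ : ∃ c, c = Real.cosh (3 * (((π / 6 : ℝ) : ℂ) + z / 3).im) := ⟨_, rfl⟩
    rw [← hc'] at h6 hc
    have hc1 : 1 ≤ c := by rw [hc']; exact Real.one_le_cosh _
    obtain ⟨s, hs'⟩ : ∃ s, s = |Real.sin z.re| := ⟨_, rfl⟩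
    rw [← hs'] at h6 hcon
    have hs0 : 0 < s := (Real.exp_pos _).trans hcon
    have e1 := one_sub_div_le (z := s / c) (by positivity)
    have e2 : (1 - s / c) / (1 + s / c) = (c - s) / (c + s) := by
      have h7 : c ≠ 0 := by linarith
      have h8 : c + s ≠ 0 := by linarith
      field_simp
    rw [e2, ← h6] at e1
    have e3 : κ ≤ s / c := by
      rw [hκ]
      exact div_le_div₀ hs0.le hcon.le (by linarith) hc
    have e4 : ‖Complex.tan (3 * (((π / 6 : ℝ) : ℂ) + z / 3) / 2)‖ ≤ Real.exp (-κ) := by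
      have e5 : ‖Complex.tan (3 * (((π / 6 : ℝ) : ℂ) + z / 3) / 2)‖ ^ 2 ≤ (Real.exp (-κ)) ^ 2 := by
        refine e1.trans ?_
        rw [← Real.exp_nat_mul]
        apply Real.exp_le_exp.2
        push_cast
        linarith
      exact le_of_sq_le_sq e5 (Real.exp_pos _).le
    have e6 : ‖Complex.tan (3 * (((π / 6 : ℝ) : ℂ) + z / 3) / 2)‖ ^ N ≤ Real.exp (-(N * κ)) := by
      calc _ ≤ (Real.exp (-κ)) ^ N := pow_le_pow_left₀ (norm_nonneg _) e4 N
        _ = _ := by rw [← Real.exp_nat_mul]; congr 1; ring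
    have e7 : Real.exp (-(N * κ)) ≤ Real.exp (-2) := Real.exp_le_exp.2 (by linarith)
    have e8 : (6 : ℝ) ≤ Real.exp 2 := by
      have : Real.exp 2 = Real.exp 1 * Real.exp 1 := by rw [← Real.exp_add]; norm_num
      rw [this]
      have := Real.exp_one_gt_d9
      nlinarith
    have e9 : Real.exp (-2) ≤ 1 / 6 := by
      rw [Real.exp_neg, one_div]
      exact inv_anti₀ (by norm_num) e8
    linarith
  refine ⟨?_, ?_, ?_, ?_, ?_, ?_⟩
  · -- differentiability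
    intro z hz
    have hz' := abs_lt.1 hz
    have hD : IsOpen {w : ℂ | -(π / 3) < w.re ∧ w.re < 2 * π / 3} :=
      (isOpen_lt continuous_const Complex.continuous_re).inter
        (isOpen_lt Complex.continuous_re continuous_const)
    have h1 : (((π / 6 : ℝ) : ℂ) + z / 3) ∈ {w : ℂ | -(π / 3) < w.re ∧ w.re < 2 * π / 3} := by
      constructor
      · rw [hre]; linarith
      · rw [hre]; linarith
    have h2 : DifferentiableAt ℂ Λ (((π / 6 : ℝ) : ℂ) + z / 3) :=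
      h.diff.differentiableAt (hD.mem_nhds h1)
    exact h2.comp z (by fun_prop)
  · exact fun z hz => hsymm z hz
  · obtain ⟨C, hC⟩ := h.bdd
    refine ⟨C, fun z hz => ?_⟩
    have hz' := abs_le.1 hz
    exact hC _ (by rw [hre]; linarith) (by rw [hre]; linarith)
  · intro y
    show ‖Λ ((π / 6 : ℝ) + ((π / 2 : ℝ) + y * I) / 3)‖ ≤ _
    rw [right_norm h]
    have h1 := (abs_le.1 (side' h y)).2
    have ht0 := tanh_nonneg' (x := |y| / 2) (by positivity)
    rcases le_total |y| Y with hy | hy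
    · have h2 : Real.tanh (|y| / 2) ^ N ≤ θ ^ N := by
        apply pow_le_pow_left₀ ht0
        rw [hθ]
        exact tanh_mono' (by linarith)
      have h3 : ‖Λ (((y / 3 : ℝ) : ℂ) * I)‖ ^ 2 ≤ (Real.exp (δ / 2)) ^ 2 := by
        rw [← Real.exp_nat_mul]
        have : ((2 : ℕ) : ℝ) * (δ / 2) = δ := by push_cast; ring
        rw [this]
        linarith
      refine (le_of_sq_le_sq h3 (Real.exp_pos _).le).trans (Real.exp_le_exp.2 ?_)
      have := Real.one_le_cosh (2 * y / 3)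
      nlinarith
    · have h2 : Real.tanh (|y| / 2) ^ N ≤ 1 := pow_le_one₀ ht0 (tanh_lt_one' _).le
      have h3 : ‖Λ (((y / 3 : ℝ) : ℂ) * I)‖ ^ 2 ≤ 2 ^ 2 := by linarith
      refine (le_of_sq_le_sq h3 (by norm_num)).trans (hY.trans (Real.exp_le_exp.2 ?_))
      have : Real.cosh (2 * Y / 3) ≤ Real.cosh (2 * y / 3) := by
        rw [Real.cosh_le_cosh, abs_of_nonneg (by positivity), abs_div, abs_mul,
          abs_of_pos (by norm_num : (0 : ℝ) < 2), abs_of_pos (by norm_num : (0 : ℝ) < 3)]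
        linarith
      gcongr
  · intro y hy
    show Real.exp (-(η * |y|)) ≤ ‖Λ ((π / 6 : ℝ) + ((π / 2 : ℝ) + y * I) / 3)‖ ∧
      ‖Λ ((π / 6 : ℝ) + ((π / 2 : ℝ) + y * I) / 3)‖ ≤ _
    rw [right_norm h]
    have h1 := abs_le.1 (side' h y)
    have hy0 := abs_nonneg y
    have ht0 := tanh_nonneg' (x := |y| / 2) (by positivity)
    have h2 : Real.tanh (|y| / 2) ^ N ≤ |y| / 2 * ρ ^ (N - 1) := by
      obtain ⟨M, hM⟩ : ∃ M, N = M + 1 := ⟨N - 1, by omega⟩
      rw [hM, pow_succ, Nat.add_sub_cancel, mul_comm]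
      have h3 : Real.tanh (|y| / 2) ^ M ≤ ρ ^ M := by
        apply pow_le_pow_left₀ ht0
        rw [hρ]
        exact tanh_mono' (by linarith)
      have h4 := tanh_le_self' (x := |y| / 2) (by positivity)
      exact mul_le_mul h4 h3 (by positivity) (by positivity)
    obtain ⟨r, hr⟩ : ∃ r, r = 3 / 2 * ρ ^ (N - 1) := ⟨_, rfl⟩
    rw [← hr] at d2
    have hr0 : 0 ≤ r := by rw [hr]; positivity
    have hr1 : r ≤ η := d2.trans (min_le_left _ _)
    have hr2 : r ≤ 1 / (2 * ℓ) := d2.trans (min_le_right _ _)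
    have h3 : 3 * Real.tanh (|y| / 2) ^ N ≤ r * |y| := by
      rw [hr]; nlinarith
    have hu : r * |y| ≤ 1 / 2 := by
      calc r * |y| ≤ 1 / (2 * ℓ) * ℓ := by gcongr
        _ = 1 / 2 := by
          have : ℓ ≠ 0 := by linarith
          field_simp
    constructor
    · have h4 := one_sub_ge hu (by positivity)
      have h5 : (Real.exp (-(η * |y|))) ^ 2 ≤ ‖Λ (((y / 3 : ℝ) : ℂ) * I)‖ ^ 2 := by
        rw [← Real.exp_nat_mul]
        have h6 : Real.exp (((2 : ℕ) : ℝ) * -(η * |y|)) ≤ Real.exp (-(2 * (r * |y|))) := by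
          apply Real.exp_le_exp.2
          push_cast
          nlinarith
        refine h6.trans ?_
        linarith
      exact le_of_sq_le_sq h5 (norm_nonneg _)
    · have h5 : ‖Λ (((y / 3 : ℝ) : ℂ) * I)‖ ^ 2 ≤ (Real.exp (η * |y|)) ^ 2 := by
        rw [← Real.exp_nat_mul]
        have h6 : 1 + r * |y| ≤ Real.exp (r * |y|) := by
          have := Real.add_one_le_exp (r * |y|); linarith
        have h7 : Real.exp (r * |y|) ≤ Real.exp (((2 : ℕ) : ℝ) * (η * |y|)) := by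
          apply Real.exp_le_exp.2
          push_cast
          nlinarith
        refine le_trans ?_ (h6.trans h7)
        linarith
      exact le_of_sq_le_sq h5 (Real.exp_pos _).le
  · intro z hz hz0
    obtain ⟨h1, h2⟩ := hz
    have h1' := abs_le.1 h1
    have hz0' : Λ ((π / 6 : ℝ) + z / 3) = 0 := hz0
    rcases le_total z.re 0 with h3 | h3
    · exact hzero z h1'.1 h3 h2 hz0
    · have h4 := hzero (-(starRingEnd ℂ) z) (by simp; linarith) (by simp; exact h3)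
        (by simpa using h2) (by rw [hsymm z h1, hz0', map_zero])
      have e : (-(starRingEnd ℂ) z).re = -z.re := by simp
      rw [e, Real.sin_neg, abs_neg] at h4
      exact h4

end MP6bd
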