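import Pool.Agent.Lib.MP_6bd702_sv.Bounds
import Pool.Agent.Lib.MP_6bd702_sv.EigFun

/-!
# The transfer matrices commute; eigenvalue functions
-/

set_option autoImplicit false

namespace Pool.Agent.SixV

open Matrix Finset
open scoped Real ComplexConjugate Matrix.Norms.L2Operator

/-- The entire version of the transfer matrix. -/
noncomputable def TE (N : ℕ) (w : ℂ) : Matrix (Fin N → Bool) (Fin N → Bool) ℂ :=
  tm (R (Complex.sin (π / 3 - w)) (Complex.sin w) kap) N

lemma R_smul (x a b c : ℂ) (s' s : Bool) : R (x * a) (x * b) (x * c) s' s = x • R a b c s' s := by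
  ext x' x
  simp only [R, Matrix.smul_apply, of_apply, smul_eq_mul]
  split_ifs <;> simp

lemma T_eq_TE (N : ℕ) (w : ℂ) : T N w = (Complex.sin (π / 3 + w))⁻¹ ^ N • TE N w := by
  unfold T TE
  rw [← tm_smul]
  congr 1
  funext s' s
  rw [← R_smul]
  unfold wa wb wc
  congr 1
  · rw [div_eq_inv_mul]
  · rw [div_eq_inv_mul]
  · rw [div_eq_inv_mul]

lemma TE_eq_T (N : ℕ) {w : ℂ} (h : Complex.sin (π / 3 + w) ≠ 0) :
    TE N w = Complex.sin (π / 3 + w) ^ N • T N w := by
  rw [T_eq_TE, smul_smul, ← mul_pow, mul_inv_cancel₀ h, one_pow, one_smul]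

lemma differentiable_TE (N : ℕ) : Differentiable ℂ (TE N) := by
  intro w
  refine differentiableAt_matrix fun s' s => differentiableAt_tm ?_ s' s
  intro s' s x' x
  simp only [R, of_apply]
  split_ifs <;> fun_prop

lemma one_sub_eq {w w' : ℂ} (h : Complex.sin (π / 3 + w) ≠ 0)
    (h' : Complex.sin (π / 3 + w') ≠ 0) :
    1 - wa w' * wb w = kap * Complex.sin (π / 3 + (w' - w)) /
      (Complex.sin (π / 3 + w') * Complex.sin (π / 3 + w)) := by
  unfold wa wb
  rw [div_mul_div_comm, eq_div_iff (mul_ne_zero h' h), sub_mul, one_mul,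
    div_mul_cancel₀ _ (mul_ne_zero h' h), sin_add', sin_add', sin_sub', sin_add',
    Complex.sin_sub, Complex.cos_sub]
  linear_combination -(Complex.sin w' * Complex.sin w) * kap_sq

lemma sub_eq {w w' : ℂ} (h : Complex.sin (π / 3 + w) ≠ 0) (h' : Complex.sin (π / 3 + w') ≠ 0) :
    wa w' - wa w = -(kap * Complex.sin (w' - w)) /
      (Complex.sin (π / 3 + w') * Complex.sin (π / 3 + w)) := by
  unfold wa
  rw [div_sub_div _ _ h' h, sin_add', sin_add', sin_sub', sin_sub', Complex.sin_sub]
  congr 1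
  ring

theorem T_commute_near (N : ℕ) {w w' : ℂ} (h : Complex.sin (π / 3 + w) ≠ 0)
    (h' : Complex.sin (π / 3 + w') ≠ 0) (h1 : Complex.sin (π / 3 + (w' - w)) ≠ 0)
    (h2 : Complex.sin (π / 3 - (w' - w)) ≠ 0) : T N w * T N w' = T N w' * T N w := by
  have hk : kap ≠ 0 := by
    intro h
    have := kap_sq
    rw [h] at this
    norm_num at this
  refine tm_comm (wt_w h) (wt_w h') ?_ ?_ N
  · rw [one_sub_eq h h']
    exact div_ne_zero (mul_ne_zero hk h1) (mul_ne_zero h' h)
  · rw [sub_eq h h']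
    have e : (wc w * wc w') ^ 2 - (-(kap * Complex.sin (w' - w)) /
        (Complex.sin (π / 3 + w') * Complex.sin (π / 3 + w))) ^ 2 =
        kap ^ 2 * (Complex.sin (π / 3 + (w' - w)) * Complex.sin (π / 3 - (w' - w))) /
          (Complex.sin (π / 3 + w') * Complex.sin (π / 3 + w)) ^ 2 := by
      rw [sin_mul', ← kap_sq]
      unfold wc
      generalize Complex.sin (π / 3 + w) = p at *
      generalize Complex.sin (π / 3 + w') = q at *
      generalize Complex.sin (w' - w) = r at *
      field_simp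
    rw [e]
    exact div_ne_zero (mul_ne_zero (pow_ne_zero 2 hk) (mul_ne_zero h1 h2))
      (pow_ne_zero 2 (mul_ne_zero h' h))

lemma eventually_sin_ne {f : ℂ → ℂ} (hf : Continuous f) {w : ℂ} (h : Complex.sin (f w) ≠ 0) :
    ∀ᶠ z in nhds w, Complex.sin (f z) ≠ 0 :=
  (Complex.continuous_sin.comp hf).continuousAt.eventually_ne h

lemma sin_pi_ne : Complex.sin (π / 3) ≠ 0 := by
  intro h
  have := kap_sq
  unfold kap at this
  rw [h] at this
  norm_num at this

lemma TE_commute_aux (N : ℕ) {w : ℂ} (h : Complex.sin (π / 3 + w) ≠ 0) (w' : ℂ) :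
    TE N w * TE N w' - TE N w' * TE N w = 0 := by
  have hd : Differentiable ℂ (fun w' => TE N w * TE N w' - TE N w' * TE N w) :=
    ((differentiable_const _).mul (differentiable_TE N)).sub
      ((differentiable_TE N).mul (differentiable_const _))
  have ha : AnalyticOnNhd ℂ (fun w' => TE N w * TE N w' - TE N w' * TE N w) Set.univ :=
    fun z _ => hd.analyticAt z
  have h0 : AnalyticOnNhd ℂ
      (fun _ => 0 : ℂ → Matrix (Fin N → Bool) (Fin N → Bool) ℂ) Set.univ :=
    fun z _ => analyticAt_const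
  have he : (fun w' => TE N w * TE N w' - TE N w' * TE N w) =ᶠ[nhds w] (fun _ => 0) := by
    have e1 := eventually_sin_ne (f := fun z => π / 3 + z) (by fun_prop) h
    have e2 := eventually_sin_ne (f := fun z => π / 3 + (z - w)) (w := w) (by fun_prop)
      (by rw [sub_self, add_zero]; exact sin_pi_ne)
    have e3 := eventually_sin_ne (f := fun z => π / 3 - (z - w)) (w := w) (by fun_prop)
      (by rw [sub_self, sub_zero]; exact sin_pi_ne)
    filter_upwards [e1, e2, e3] with z h1 h2 h3
    rw [TE_eq_T N h, TE_eq_T N h1, smul_mul_smul_comm, smul_mul_smul_comm,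
      T_commute_near N h h1 h2 h3, mul_comm (Complex.sin (π / 3 + w) ^ N), sub_self]
  exact congrFun (ha.eq_of_eventuallyEq h0 he) w'

theorem TE_commute (N : ℕ) (w w' : ℂ) : TE N w * TE N w' = TE N w' * TE N w := by
  rw [← sub_eq_zero]
  have hd : Differentiable ℂ (fun w => TE N w * TE N w' - TE N w' * TE N w) :=
    ((differentiable_TE N).mul (differentiable_const _)).sub
      ((differentiable_const _).mul (differentiable_TE N))
  have ha : AnalyticOnNhd ℂ (fun w => TE N w * TE N w' - TE N w' * TE N w) Set.univ :=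
    fun z _ => hd.analyticAt z
  have h0 : AnalyticOnNhd ℂ
      (fun _ => 0 : ℂ → Matrix (Fin N → Bool) (Fin N → Bool) ℂ) Set.univ :=
    fun z _ => analyticAt_const
  have he : (fun w => TE N w * TE N w' - TE N w' * TE N w) =ᶠ[nhds 0] (fun _ => 0) := by
    have e1 := eventually_sin_ne (f := fun z => π / 3 + z) (w := 0) (by fun_prop)
      (by rw [add_zero]; exact sin_pi_ne)
    filter_upwards [e1] with z h1
    exact TE_commute_aux N h1 w'
  exact congrFun (ha.eq_of_eventuallyEq h0 he) w

/-- The transfer matrices commute. -/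
theorem T_commute (N : ℕ) (w w' : ℂ) : T N w * T N w' = T N w' * T N w := by
  rw [T_eq_TE, T_eq_TE, smul_mul_smul_comm, smul_mul_smul_comm, TE_commute,
    mul_comm ((Complex.sin (π / 3 + w))⁻¹ ^ N)]

/-! ### Eigenvalue functions -/

lemma norm_le_of_eigen {m : Type*} [Fintype m] [DecidableEq m] {A : Matrix m m ℂ} {v : m → ℂ}
    (hv : v ≠ 0) {x : ℂ} (h : A *ᵥ v = x • v) : ‖x‖ ≤ ‖A‖ := by
  have h1 := l2_opNorm_mulVec A (WithLp.toLp 2 v)
  have h2 : (A *ᵥ (WithLp.toLp 2 v).ofLp) = x • v := h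
  rw [h2] at h1
  have h3 : (EuclideanSpace.equiv m ℂ).symm (x • v) = x • (WithLp.toLp 2 v) := rfl
  have h4 : (WithLp.toLp 2 v : EuclideanSpace ℂ m) ≠ 0 := by
    intro h
    apply hv
    have := congrArg WithLp.ofLp h
    exact this
  have h5 : 0 < ‖(WithLp.toLp 2 v : EuclideanSpace ℂ m)‖ := norm_pos_iff.2 h4
  have h6 : ‖x‖ * ‖(WithLp.toLp 2 v : EuclideanSpace ℂ m)‖ ≤
      ‖A‖ * ‖(WithLp.toLp 2 v : EuclideanSpace ℂ m)‖ := by
    rw [← norm_smul]
    exact h1
  exact le_of_mul_le_mul_right h6 h5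

open scoped ComplexOrder in
lemma star_dotProduct_ne {m : Type*} [Fintype m] {v : m → ℂ} (hv : v ≠ 0) :
    star v ⬝ᵥ v ≠ 0 := fun h => hv (dotProduct_star_self_eq_zero.1 h)

lemma sin_ne_zero_of_re_pos {z : ℂ} (h1 : 0 < z.re) (h2 : z.re < π) : Complex.sin z ≠ 0 := by
  intro h
  have h3 := norm_sin_ge z
  rw [h, norm_zero, abs_of_pos (Real.sin_pos_of_pos_of_lt_pi h1 h2)] at h3
  exact absurd (Real.sin_pos_of_pos_of_lt_pi h1 h2) (not_lt.2 h3)

/-- The eigenvalue function of a joint eigenvector. -/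
theorem eigFun_of_joint {N : ℕ} {v : (Fin N → Bool) → ℂ} (hv : v ≠ 0) {Λ : ℂ → ℂ}
    (h : ∀ w : ℂ, -(π / 3) < w.re → w.re < 2 * π / 3 → T N w *ᵥ v = Λ w • v) :
    MP6bd.EigFun N Λ := by
  have hp := Real.pi_pos
  obtain ⟨i0, hi0⟩ := Function.ne_iff.1 hv
  rw [Pi.zero_apply] at hi0
  have hcast : ((π / 3 : ℝ) : ℂ) = (π : ℂ) / 3 := by push_cast; rfl
  refine ⟨?_, ?_, ?_, ?_⟩
  · intro w hw
    have hw' : w ∈ {w : ℂ | -(π / 3) < w.re ∧ w.re < 2 * π / 3} := hw
    have hopen : IsOpen {w : ℂ | -(π / 3) < w.re ∧ w.re < 2 * π / 3} :=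
      (isOpen_lt continuous_const Complex.continuous_re).inter
        (isOpen_lt Complex.continuous_re continuous_const)
    have h1 : Λ =ᶠ[nhds w] fun w => (∑ j, T N w i0 j * v j) / v i0 := by
      filter_upwards [hopen.mem_nhds hw'] with z hz
      have := congrFun (h z hz.1 hz.2) i0
      rw [Pi.smul_apply, smul_eq_mul, mulVec, dotProduct] at this
      rw [this, mul_div_cancel_right₀ _ hi0]
    have hs : Complex.sin (π / 3 + w) ≠ 0 :=
      sin_ne_zero_of_re_pos (by rw [re_pi_add]; linarith [hw'.1])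
        (by rw [re_pi_add]; linarith [hw'.2])
    have h2 : DifferentiableAt ℂ (fun w => (∑ j, T N w i0 j * v j) / v i0) w := by
      refine DifferentiableAt.div_const (DifferentiableAt.fun_sum fun j _ =>
        DifferentiableAt.mul_const ?_ _) _
      refine differentiableAt_tm (L := fun w => R (wa w) (wb w) (wc w)) ?_ i0 j
      intro s' s x' x
      have ha : DifferentiableAt ℂ wa w := by
        unfold wa
        fun_prop (disch := exact hs)
      have hb : DifferentiableAt ℂ wb w := by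
        unfold wb
        fun_prop (disch := exact hs)
      have hc : DifferentiableAt ℂ wc w := by
        unfold wc
        fun_prop (disch := exact hs)
      simp only [R, of_apply]
      split_ifs
      · exact ha
      · exact hb
      · exact hc
      · exact differentiableAt_const _
    exact (h2.congr_of_eventuallyEq h1).differentiableWithinAt
  · intro w h0 h1
    rw [hcast]
    have e1 := h w (by linarith) (by linarith)
    have e2 := h (π / 3 - conj w) (by rw [re_pi_sub, Complex.conj_re]; linarith)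
      (by rw [re_pi_sub, Complex.conj_re]; linarith)
    rw [← T_conjTranspose] at e2
    have e3 : star v ⬝ᵥ ((T N w)ᴴ *ᵥ v) = conj (Λ w) * (star v ⬝ᵥ v) := by
      rw [dotProduct_mulVec, ← star_mulVec, e1, star_smul, smul_dotProduct]
      rfl
    rw [e2, dotProduct_smul, smul_eq_mul] at e3
    exact mul_right_cancel₀ (star_dotProduct_ne hv) e3
  · refine ⟨2, fun w h0 h1 => ?_⟩
    exact (norm_le_of_eigen hv (h w (by linarith) (by linarith))).trans (norm_T_le_two N h0 h1)
  · intro w h0 h1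
    rw [hcast]
    have e1 := h w (by linarith) (by linarith)
    have e2 := h (w + π / 3) (by rw [add_comm, re_pi_add]; linarith)
      (by rw [add_comm, re_pi_add]; linarith)
    have s1 : Complex.sin (π / 3 + w) ≠ 0 :=
      sin_ne_zero_of_re (by rw [re_pi_add]; linarith) (by rw [re_pi_add]; linarith)
    have s2 : Complex.sin (π / 3 - w) ≠ 0 :=
      sin_ne_zero_of_re (by rw [re_pi_sub]; linarith) (by rw [re_pi_sub]; linarith)
    have e3 := congrArg (fun M => M *ᵥ v) (T_fusion N s1 s2)
    simp only [add_mulVec, one_mulVec] at e3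
    rw [← mulVec_mulVec, e2, mulVec_smul, e1, smul_smul] at e3
    have e4 : Y N w *ᵥ v = (Λ w * Λ (w + π / 3) - 1) • v := by
      rw [sub_smul, one_smul, mul_comm (Λ w), e3]
      abel
    exact (norm_le_of_eigen hv e4).trans (norm_Y_le N (by linarith) h1)

end Pool.Agent.SixV
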