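import Pool.Agent.Lib.MP_6bd702_sv.Rmat

/-!
# Crossing, adjoint, shift, arrow conservation
-/

set_option autoImplicit false

namespace Pool.Agent.SixV

open Matrix Finset
open scoped Kronecker

variable {α : Type*} [Fintype α] [DecidableEq α]

lemma mono_swap (L : Lax α) {N : ℕ} (s' s : Fin N → Bool) :
    mono (fun a b => L b a) s' s = mono L s s' := by
  induction N with
  | zero => simp
  | succ N ih => rw [mono_succ, mono_succ, ih]

theorem tm_transpose (L : Lax α) (N : ℕ) : (tm L N)ᵀ = tm (fun a b => L b a) N := by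
  ext s' s
  unfold tm
  rw [mono_swap]
  rfl

lemma mono_map_star (L : Lax α) {N : ℕ} (s' s : Fin N → Bool) :
    mono (fun a b => (L a b).map star) s' s = (mono L s' s).map star := by
  induction N with
  | zero => simp
  | succ N ih =>
    rw [mono_succ, mono_succ, ih]
    exact (Matrix.map_mul (L := L (s' 0) (s 0)) (M := mono L (Fin.tail s') (Fin.tail s))
      (f := starRingEnd ℂ)).symm

theorem tm_conjTranspose (L : Lax α) (N : ℕ) :
    (tm L N)ᴴ = tm (fun a b => (L b a).map star) N := by
  ext s' s
  have h := mono_swap (fun a b => (L a b).map star) s' s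
  rw [conjTranspose_apply]
  unfold tm
  rw [h, mono_map_star]
  simp [Matrix.trace]

/-- The flip of the auxiliary arrow. -/
def flipM : Matrix Bool Bool ℂ := of fun x' x => if x' = x then 0 else 1

lemma flipM_sq : flipM * flipM = 1 := by
  ext x' x
  rw [mul_apply, Fintype.sum_bool]
  cases x' <;> cases x <;> simp [flipM, Matrix.one_apply]

lemma flipM_R (a b c : ℂ) (s' s : Bool) : flipM * R a b c s s' = R b a c s' s * flipM := by
  ext x' x
  rw [mul_apply, mul_apply, Fintype.sum_bool, Fintype.sum_bool]
  cases s' <;> cases s <;> cases x' <;> cases x <;> simp [flipM, R]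

/-- Crossing. -/
theorem tm_R_transpose (a b c : ℂ) (N : ℕ) : (tm (R a b c) N)ᵀ = tm (R b a c) N := by
  rw [tm_transpose]
  exact tm_gauge flipM_sq flipM_sq (fun s' s => flipM_R a b c s' s) N

lemma R_map_star (a b c : ℂ) (s' s : Bool) :
    (R a b c s' s).map star = R (star a) (star b) (star c) s' s := by
  ext x' x
  simp only [R, map_apply, of_apply]
  split_ifs <;> simp

/-- Crossing and complex conjugation. -/
theorem tm_R_conjTranspose (a b c : ℂ) (N : ℕ) :
    (tm (R a b c) N)ᴴ = tm (R (star b) (star a) (star c)) N := by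
  rw [tm_conjTranspose, ← tm_R_transpose, tm_transpose]
  congr 1
  ext s' s
  rw [R_map_star]

/-! ### Arrow conservation -/

/-- The number of `true` entries. -/
def cnt {N : ℕ} (s : Fin N → Bool) : ℕ := ∑ j, (s j).toNat

lemma cnt_succ {N : ℕ} (s : Fin (N + 1) → Bool) :
    cnt s = (s 0).toNat + cnt (Fin.tail s) := by
  unfold cnt
  rw [Fin.sum_univ_succ]
  rfl

lemma mono_R_ne {a b c : ℂ} {N : ℕ} (s' s : Fin N → Bool) (x' x : Bool)
    (h : x'.toNat + cnt s' ≠ x.toNat + cnt s) : mono (R a b c) s' s x' x = 0 := by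
  induction N generalizing x' with
  | zero =>
    have h1 : x' ≠ x := by
      rintro rfl
      exact h (by simp [cnt])
    simp [h1]
  | succ N ih =>
    rw [mono_succ, mul_apply]
    refine Finset.sum_eq_zero fun y _ => ?_
    by_cases h1 : y.toNat + cnt (Fin.tail s') = x.toNat + cnt (Fin.tail s)
    · have h2 : R a b c (s' 0) (s 0) x' y = 0 := by
        rw [cnt_succ, cnt_succ] at h
        have h3 : x'.toNat + (s' 0).toNat ≠ y.toNat + (s 0).toNat := by
          intro h4
          exact h (by omega)
        revert h3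
        generalize s' 0 = p
        generalize s 0 = q
        cases p <;> cases q <;> cases x' <;> cases y <;> simp [R]
      rw [h2, zero_mul]
    · rw [ih _ _ _ h1, mul_zero]

/-- The transfer matrix conserves the number of arrows. -/
theorem tm_R_ne {a b c : ℂ} {N : ℕ} {s' s : Fin N → Bool} (h : cnt s' ≠ cnt s) :
    tm (R a b c) N s' s = 0 := by
  unfold tm
  refine Finset.sum_eq_zero fun x _ => mono_R_ne _ _ _ _ ?_
  intro h1
  exact h (by omega)

/-! ### The shift -/

lemma R_shift (s' s x' x : Bool) :
    R 1 0 1 s' s x' x = if x' = s ∧ s' = x then 1 else 0 := by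
  cases s' <;> cases s <;> cases x' <;> cases x <;> simp [R]

lemma mono_R_shift {N : ℕ} (s' s : Fin N → Bool) (x' x : Bool) :
    mono (R 1 0 1) s' s x' x =
      if (∀ j : Fin N, (Fin.cons x' s' : Fin (N + 1) → Bool) j.castSucc = s j) ∧
        (Fin.cons x' s' : Fin (N + 1) → Bool) (Fin.last N) = x then 1 else 0 := by
  induction N generalizing x' with
  | zero =>
    rw [mono_zero, Matrix.one_apply]
    have h : (Fin.cons x' s' : Fin 1 → Bool) (Fin.last 0) = x' := rfl
    rw [h]
    simp
  | succ N ih =>
    rw [mono_succ, mul_apply]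
    have h1 : ∀ y, R 1 0 1 (s' 0) (s 0) x' y * mono (R 1 0 1) (Fin.tail s') (Fin.tail s) y x =
        if y = s' 0 then (if x' = s 0 then mono (R 1 0 1) (Fin.tail s') (Fin.tail s) (s' 0) x
          else 0) else 0 := by
      intro y
      rw [R_shift]
      by_cases hy : y = s' 0
      · subst hy
        by_cases hx : x' = s 0
        · simp [hx]
        · simp [hx]
      · have hy' : ¬ s' 0 = y := fun h => hy h.symm
        simp [hy, hy']
    simp_rw [h1]
    rw [Finset.sum_ite_eq' univ (s' 0)]
    simp only [Finset.mem_univ, if_true]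
    rw [ih, Fin.cons_self_tail]
    have h2 : (Fin.cons x' s' : Fin (N + 2) → Bool) (Fin.last (N + 1)) = s' (Fin.last N) := by
      rw [← Fin.succ_last, Fin.cons_succ]
    rw [h2]
    have h3 : (∀ j : Fin (N + 1), (Fin.cons x' s' : Fin (N + 2) → Bool) j.castSucc = s j) ↔
        x' = s 0 ∧ ∀ j : Fin N, s' j.castSucc = Fin.tail s j := by
      constructor
      · intro h
        refine ⟨?_, fun j => ?_⟩
        · have := h 0
          simpa using this
        · have := h j.succ
          rw [← Fin.succ_castSucc, Fin.cons_succ] at this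
          exact this
      · rintro ⟨h4, h5⟩ j
        refine Fin.cases ?_ (fun i => ?_) j
        · simpa using h4
        · rw [← Fin.succ_castSucc, Fin.cons_succ]
          exact h5 i
    by_cases hx : x' = s 0
    · rw [if_pos hx]
      refine if_congr ?_ rfl rfl
      rw [h3]
      simp only [hx, true_and]
    · rw [if_neg hx, if_neg]
      rintro ⟨h4, -⟩
      exact hx (h3.1 h4).1

/-- The shift. -/
theorem tm_R_shift {n : ℕ} (s' s : Fin (n + 1) → Bool) :
    tm (R 1 0 1) (n + 1) s' s = if s' = fun j => s (j + 1) then 1 else 0 := by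
  unfold tm
  simp only [Matrix.trace, diag_apply, mono_R_shift]
  have h2 : ∀ x : Bool, (Fin.cons x s' : Fin (n + 2) → Bool) (Fin.last (n + 1)) =
      s' (Fin.last n) := by
    intro x
    rw [← Fin.succ_last, Fin.cons_succ]
  simp_rw [h2]
  have h3 : ∀ x : Bool, ((∀ j : Fin (n + 1), (Fin.cons x s' : Fin (n + 2) → Bool) j.castSucc = s j) ∧
      s' (Fin.last n) = x) ↔ (x = s' (Fin.last n) ∧ s' = fun j => s (j + 1)) := by
    intro x
    constructor
    · rintro ⟨h4, rfl⟩
      refine ⟨rfl, ?_⟩
      funext j
      refine Fin.lastCases ?_ (fun i => ?_) j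
      · have := h4 0
        rw [Fin.castSucc_zero, Fin.cons_zero] at this
        rw [Fin.last_add_one, ← this]
      · have := h4 i.succ
        rw [← Fin.succ_castSucc, Fin.cons_succ] at this
        rw [this, Fin.coeSucc_eq_succ]
    · rintro ⟨rfl, h4⟩
      refine ⟨fun j => ?_, rfl⟩
      refine Fin.cases ?_ (fun i => ?_) j
      · rw [Fin.castSucc_zero, Fin.cons_zero]
        have := congrFun h4 (Fin.last n)
        rw [this, Fin.last_add_one]
      · rw [← Fin.succ_castSucc, Fin.cons_succ]
        have := congrFun h4 i.castSucc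
        rw [this, Fin.coeSucc_eq_succ]
  simp_rw [h3]
  by_cases h : s' = fun j => s (j + 1)
  · simp [h]
  · simp [h]

end Pool.Agent.SixV
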