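import Mathlib
import Pool.Agent.Lib.MP_6bd702_sv.CFCone
import Pool.Agent.Lib.MP_6bd702_sv.CFofEig

open Complex Set
open scoped Real

/-!
# The full cone for the eigenvalue functions
-/

namespace MP6bd

/-- **The full cone.** For large `N` the momentum of every eigenvalue function is bounded by its
energy up to `ε`. -/
theorem full_cone {ε : ℝ} (hε : 0 < ε) :
    ∃ N₀ : ℕ, ∀ N : ℕ, N₀ ≤ N → ∀ Λ : ℂ → ℂ, EigFun N Λ → Λ ((π / 6 : ℝ) : ℂ) ≠ 0 →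
      ∃ k : ℝ, Λ 0 * (‖Λ ((π / 6 : ℝ) : ℂ)‖ : ℂ) = Λ ((π / 6 : ℝ) : ℂ) * cexp (I * k) ∧
        |k| ≤ -Real.log ‖Λ ((π / 6 : ℝ) : ℂ)‖ + ε := by
  set ℓ : ℝ := 2 + 48 / ε with hℓd
  have h48 : 0 < 48 / ε := by positivity
  have hℓ : 2 ≤ ℓ := by linarith
  have hq : 48 * Real.exp (-2 * ℓ) ≤ ε / 2 := by
    have h1 : 2 * ℓ + 1 ≤ Real.exp (2 * ℓ) := Real.add_one_le_exp _
    have h2 : Real.exp (-2 * ℓ) = (Real.exp (2 * ℓ))⁻¹ := by
      rw [← Real.exp_neg]; congr 1; ring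
    rw [h2]
    have h3 : (Real.exp (2 * ℓ))⁻¹ ≤ (2 * (48 / ε))⁻¹ := by
      apply inv_anti₀ (by positivity)
      linarith
    have h4 : 48 * (2 * (48 / ε))⁻¹ = ε / 2 := by field_simp
    linarith
  set η : ℝ := ε / (32 * (ℓ ^ 2 + 1)) with hηd
  have hη : 0 < η := by positivity
  have hη2 : 16 * (ℓ ^ 2 + 1) * η = ε / 2 := by
    rw [hηd]; field_simp; ring
  set δ : ℝ := η / Real.cosh ℓ with hδd
  have hδ : 0 < δ := div_pos hη (Real.cosh_pos ℓ)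
  have hδη : δ * Real.cosh ℓ ≤ η := by
    rw [hδd, div_mul_cancel₀ _ (Real.cosh_pos ℓ).ne']
  obtain ⟨N₀, hN₀⟩ := cf_of_eigFun hℓ hδ hη
  refine ⟨N₀, fun N hN Λ hΛ hne => ?_⟩
  have hG := hN₀ N hN Λ hΛ
  have e0 : (fun z : ℂ => Λ ((π / 6 : ℝ) + z / 3)) 0 = Λ ((π / 6 : ℝ) : ℂ) := by simp
  have e1 : (fun z : ℂ => Λ ((π / 6 : ℝ) + z / 3)) ((-(π / 2) : ℝ) : ℂ) = Λ 0 := by
    simp only
    congr 1
    push_cast
    ring
  obtain ⟨k, hk1, hk2⟩ := hG.cone hℓ hδ.le hη.le hδη (fun h => hne (e0 ▸ h))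
  rw [e0, e1] at hk1
  rw [e0, hη2] at hk2
  rcases le_total (-Real.log ‖Λ ((π / 6 : ℝ) : ℂ)‖) 4 with h4 | h4
  · refine ⟨k, hk1, ?_⟩
    have h5 : 12 * Real.exp (-2 * ℓ) * (-Real.log ‖Λ ((π / 6 : ℝ) : ℂ)‖) ≤
        12 * Real.exp (-2 * ℓ) * 4 :=
      mul_le_mul_of_nonneg_left h4 (by positivity)
    linarith
  · refine ⟨Complex.arg (cexp (I * k)), ?_, ?_⟩
    · have h5 := Complex.norm_mul_exp_arg_mul_I (cexp (I * k))
      have h6 : ‖cexp (I * k)‖ = 1 := by rw [mul_comm]; exact Complex.norm_exp_ofReal_mul_I k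
      rw [h6, Complex.ofReal_one, one_mul] at h5
      rw [mul_comm I ((Complex.arg (cexp (I * k)) : ℝ) : ℂ), h5]
      exact hk1
    · have h5 := Complex.abs_arg_le_pi (cexp (I * k))
      have := Real.pi_lt_d2
      linarith

end MP6bd
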