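import Pool.Agent.Lib.MP_6bd702_sv.Rmat

/-!
# Fusion

`t(w) t(w + π/3) = 1 + Y(w)`, where `Y(w)` is the transfer matrix of a Lax family on a three
dimensional auxiliary space.
-/

set_option autoImplicit false

namespace Pool.Agent.SixV

open Matrix Finset
open scoped Kronecker

/-- The fused family, without the common factor `b`. -/
noncomputable def Qt (a b c : ℂ) : Lax (Fin 3) := fun s' s =>
  match s', s with
  | false, false => !![-1, 0, 0; 0, -b / a, 0; 0, 0, 1 / a]
  | true, true => !![1 / a, 0, 0; 0, -b / a, 0; 0, 0, -1]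
  | false, true => !![0, 0, 0; -c / a, 0, 0; 0, -c / a, 0]
  | true, false => !![0, c / a, 0; 0, 0, c / a; 0, 0, 0]

/-- The fused family. -/
noncomputable def Q (a b c : ℂ) : Lax (Fin 3) := fun s' s => b • Qt a b c s' s

/-- The new coordinates of the auxiliary space. -/
def fS : Matrix (Unit ⊕ Fin 3) (Bool × Bool) ℂ := of fun i x =>
  match i with
  | Sum.inl _ => if x = (true, false) then 1 else 0
  | Sum.inr 0 => if x = (false, false) then 1 else 0
  | Sum.inr 1 => if x = (false, true) then 1 else if x = (true, false) then -1 else 0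
  | Sum.inr 2 => if x = (true, true) then 1 else 0

/-- The new basis of the auxiliary space. -/
def fS' : Matrix (Bool × Bool) (Unit ⊕ Fin 3) ℂ := of fun x i =>
  match i with
  | Sum.inl _ => if x = (false, true) ∨ x = (true, false) then 1 else 0
  | Sum.inr 0 => if x = (false, false) then 1 else 0
  | Sum.inr 1 => if x = (false, true) then 1 else 0
  | Sum.inr 2 => if x = (true, true) then 1 else 0

lemma fS'_mul_fS : fS' * fS = 1 := by
  ext ⟨u, v⟩ ⟨x, y⟩
  rw [mul_apply, Fintype.sum_sum_type, Fin.sum_univ_three]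
  cases u <;> cases v <;> cases x <;> cases y <;> simp [fS, fS', Matrix.one_apply]

lemma fS_mul_fS' : fS * fS' = 1 := by
  ext i j
  rw [mul_apply, Fintype.sum_prod_type]
  rcases i with ⟨⟩ | i <;> rcases j with ⟨⟩ | j
  · simp [fS, fS']
  · fin_cases j <;> simp [fS, fS', Matrix.one_apply]
  · fin_cases i <;> simp [fS, fS', Matrix.one_apply]
  · fin_cases i <;> fin_cases j <;> simp [fS, fS', Matrix.one_apply]

/-- The off-diagonal block. -/
noncomputable def fB (a b c : ℂ) (s' s : Bool) : Matrix Unit (Fin 3) ℂ :=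
  (fS * comp (R a b c) (R (-b / a) (1 / a) (c / a)) s' s * fS').toBlocks₁₂

lemma fusion_local {a b c : ℂ} (w : Wt a b c) (ha : a ≠ 0) (s' s : Bool) :
    fS * comp (R a b c) (R (-b / a) (1 / a) (c / a)) s' s * fS' =
      fromBlocks (idLax Unit s' s) (fB a b c s' s) 0 (Q a b c s' s) := by
  rw [← fromBlocks_toBlocks (fS * comp (R a b c) (R (-b / a) (1 / a) (c / a)) s' s * fS')]
  have hb : b = 1 - a := by linear_combination w.add
  have hc : c ^ 2 = 1 - a * b := w.sq
  subst hb
  have e1 : (fS * comp (R a (1 - a) c) (R (-(1 - a) / a) (1 / a) (c / a)) s' s * fS').toBlocks₁₁ =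
      idLax Unit s' s := by
    ext i j
    rw [toBlocks₁₁, of_apply, mul_apply, Fintype.sum_prod_type]
    simp only [mul_apply, Fintype.sum_prod_type, Fintype.sum_bool, comp, Matrix.add_apply,
      kroneckerMap_apply]
    cases s' <;> cases s <;> simp [fS, fS', R, idLax] <;> field_simp <;> try ring_nf
    all_goals try (rw [hc]; ring)
  have e2 : (fS * comp (R a (1 - a) c) (R (-(1 - a) / a) (1 / a) (c / a)) s' s * fS').toBlocks₂₁ =
      0 := by
    ext i j
    rw [toBlocks₂₁, of_apply, mul_apply, Fintype.sum_prod_type]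
    simp only [mul_apply, Fintype.sum_prod_type, Fintype.sum_bool, comp, Matrix.add_apply,
      kroneckerMap_apply]
    fin_cases i <;> cases s' <;> cases s <;> simp [fS, fS', R] <;> field_simp <;> try ring_nf
    all_goals try (rw [hc]; ring)
  have e3 : (fS * comp (R a (1 - a) c) (R (-(1 - a) / a) (1 / a) (c / a)) s' s * fS').toBlocks₂₂ =
      Q a (1 - a) c s' s := by
    ext i j
    rw [toBlocks₂₂, of_apply, mul_apply, Fintype.sum_prod_type]
    simp only [mul_apply, Fintype.sum_prod_type, Fintype.sum_bool, comp, Matrix.add_apply,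
      kroneckerMap_apply]
    fin_cases i <;> fin_cases j <;> cases s' <;> cases s <;>
      simp [fS, fS', R, Q, Qt] <;> field_simp <;> try ring_nf
    all_goals try (rw [hc]; ring)
  rw [e1, e2, e3]
  rfl

/-- Fusion. -/
theorem tm_fusion {a b c : ℂ} (w : Wt a b c) (ha : a ≠ 0) (N : ℕ) :
    tm (R a b c) N * tm (R (-b / a) (1 / a) (c / a)) N = 1 + b ^ N • tm (Qt a b c) N := by
  rw [tm_mul, tm_gauge (S := fS) (S' := fS')
    (L' := fun s' s => fS * comp (R a b c) (R (-b / a) (1 / a) (c / a)) s' s * fS')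
    fS'_mul_fS fS_mul_fS' ?_ N, tm_blocks (fusion_local w ha) N, ← tm_smul]
  · congr 1
    ext s' s
    unfold tm
    rw [mono_idLax, Matrix.one_apply]
    split_ifs <;> simp
  · intro s' s
    rw [Matrix.mul_assoc _ fS' fS, fS'_mul_fS, Matrix.mul_one]

end Pool.Agent.SixV
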