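import Mathlib

/-!
# Transfer matrices of Lax families

A Lax family is a family `L s' s` of matrices on an auxiliary space, `s`, `s'` boolean (lower and
upper arrow of a site).  `tm L N` is the transfer matrix of a ring of `N` sites.
-/

set_option autoImplicit false

namespace Pool.Agent.SixV

open Matrix Finset
open scoped Kronecker

variable {α β : Type*} [Fintype α] [Fintype β] [DecidableEq α] [DecidableEq β]

/-- A Lax family: blocks `L s' s` acting on the auxiliary space `α`. -/
abbrev Lax (α : Type*) := Bool → Bool → Matrix α α ℂ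

/-- The ordered product over the sites. -/
def mono (L : Lax α) : {N : ℕ} → (Fin N → Bool) → (Fin N → Bool) → Matrix α α ℂ
  | 0, _, _ => 1
  | _ + 1, s', s => L (s' 0) (s 0) * mono L (Fin.tail s') (Fin.tail s)

/-- The transfer matrix. -/
def tm (L : Lax α) (N : ℕ) : Matrix (Fin N → Bool) (Fin N → Bool) ℂ :=
  fun s' s => (mono L s' s).trace

@[simp] lemma mono_zero (L : Lax α) (s' s : Fin 0 → Bool) : mono L s' s = 1 := rfl

lemma mono_succ (L : Lax α) {N : ℕ} (s' s : Fin (N + 1) → Bool) :
    mono L s' s = L (s' 0) (s 0) * mono L (Fin.tail s') (Fin.tail s) := rfl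

lemma mono_cons (L : Lax α) {N : ℕ} (b' b : Bool) (s' s : Fin N → Bool) :
    mono L (Fin.cons b' s' : Fin (N + 1) → Bool) (Fin.cons b s : Fin (N + 1) → Bool) =
      L b' b * mono L s' s := by
  rw [mono_succ]
  simp

/-- Sums over `Fin (N + 1) → Bool`. -/
lemma sum_cons {M : Type*} [AddCommMonoid M] {N : ℕ} (f : (Fin (N + 1) → Bool) → M) :
    ∑ s, f s = ∑ b : Bool, ∑ s : Fin N → Bool, f (Fin.cons b s) := by
  rw [← (Fin.consEquiv (fun _ : Fin (N + 1) => Bool)).sum_comp, Fintype.sum_prod_type]
  rfl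

/-- Composition of Lax families. -/
def comp (L : Lax α) (L' : Lax β) : Lax (α × β) := fun s'' s => ∑ s', L s'' s' ⊗ₖ L' s' s

lemma sum_mono_kronecker (L : Lax α) (L' : Lax β) {N : ℕ} (s'' s : Fin N → Bool) :
    ∑ s', mono L s'' s' ⊗ₖ mono L' s' s = mono (comp L L') s'' s := by
  induction N with
  | zero => simp
  | succ N ih =>
    rw [sum_cons, mono_succ, ← ih]
    have h : ∀ (b : Bool) (s' : Fin N → Bool),
        mono L s'' (Fin.cons b s' : Fin (N + 1) → Bool) ⊗ₖ
          mono L' (Fin.cons b s' : Fin (N + 1) → Bool) s =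
        (L (s'' 0) b ⊗ₖ L' b (s 0)) * (mono L (Fin.tail s'') s' ⊗ₖ mono L' s' (Fin.tail s)) := by
      intro b s'
      rw [mono_succ, mono_succ, mul_kronecker_mul]
      simp
    simp_rw [h, ← Finset.mul_sum, ← Finset.sum_mul]
    rfl

theorem tm_mul (L : Lax α) (L' : Lax β) (N : ℕ) : tm L N * tm L' N = tm (comp L L') N := by
  ext s'' s
  rw [mul_apply]
  unfold tm
  rw [← sum_mono_kronecker, trace_sum]
  exact Finset.sum_congr rfl fun s' _ => (trace_kronecker _ _).symm

/-- Change of the auxiliary basis. -/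
lemma mono_gauge {L : Lax α} {L' : Lax β} {S : Matrix β α ℂ}
    (h : ∀ s' s, S * L s' s = L' s' s * S) {N : ℕ} (s' s : Fin N → Bool) :
    S * mono L s' s = mono L' s' s * S := by
  induction N with
  | zero => simp
  | succ N ih =>
    rw [mono_succ, mono_succ, ← Matrix.mul_assoc, h, Matrix.mul_assoc, ih, ← Matrix.mul_assoc]

theorem tm_gauge {L : Lax α} {L' : Lax β} {S : Matrix β α ℂ} {S' : Matrix α β ℂ}
    (h1 : S' * S = 1) (h2 : S * S' = 1) (h : ∀ s' s, S * L s' s = L' s' s * S) (N : ℕ) :
    tm L N = tm L' N := by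
  ext s' s
  unfold tm
  calc (mono L s' s).trace = (S' * (S * mono L s' s)).trace := by
        rw [← Matrix.mul_assoc, h1, Matrix.one_mul]
    _ = (S' * (mono L' s' s * S)).trace := by rw [mono_gauge h]
    _ = (mono L' s' s * S * S').trace := by rw [trace_mul_comm]
    _ = (mono L' s' s).trace := by rw [Matrix.mul_assoc, h2, Matrix.mul_one]

/-- Block triangular families. -/
lemma mono_blocks {L : Lax (α ⊕ β)} {A : Lax α} {B : Bool → Bool → Matrix α β ℂ} {D : Lax β}
    (h : ∀ s' s, L s' s = fromBlocks (A s' s) (B s' s) 0 (D s' s)) {N : ℕ}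
    (s' s : Fin N → Bool) :
    ∃ E, mono L s' s = fromBlocks (mono A s' s) E 0 (mono D s' s) := by
  induction N with
  | zero => exact ⟨0, by simp⟩
  | succ N ih =>
    obtain ⟨E, hE⟩ := ih (Fin.tail s') (Fin.tail s)
    refine ⟨A (s' 0) (s 0) * E + B (s' 0) (s 0) * mono D (Fin.tail s') (Fin.tail s), ?_⟩
    rw [mono_succ, hE, h, fromBlocks_multiply]
    simp only [Matrix.zero_mul, Matrix.mul_zero, add_zero, zero_add]
    rfl

theorem tm_blocks {L : Lax (α ⊕ β)} {A : Lax α} {B : Bool → Bool → Matrix α β ℂ} {D : Lax β}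
    (h : ∀ s' s, L s' s = fromBlocks (A s' s) (B s' s) 0 (D s' s)) (N : ℕ) :
    tm L N = tm A N + tm D N := by
  ext s' s
  obtain ⟨E, hE⟩ := mono_blocks h s' s
  unfold tm
  rw [hE]
  simp only [Matrix.trace, fromBlocks, diag_apply, of_apply, Fintype.sum_sum_type, Sum.elim_inl,
    Sum.elim_inr]
  rfl

/-- The trivial family. -/
def idLax (α : Type*) [DecidableEq α] : Lax α := fun s' s => if s' = s then 1 else 0

lemma mono_idLax {N : ℕ} (s' s : Fin N → Bool) :
    mono (idLax α) s' s = if s' = s then 1 else 0 := by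
  induction N with
  | zero =>
    have : s' = s := Subsingleton.elim _ _
    simp [this]
  | succ N ih =>
    rw [mono_succ, ih]
    unfold idLax
    by_cases h0 : s' 0 = s 0
    · by_cases h1 : Fin.tail s' = Fin.tail s
      · have h2 : s' = s := by
          rw [← Fin.cons_self_tail s', ← Fin.cons_self_tail s, h0, h1]
        rw [if_pos h0, if_pos h1, if_pos h2, Matrix.one_mul]
      · have h2 : s' ≠ s := fun h => h1 (by rw [h])
        rw [if_pos h0, if_neg h1, if_neg h2, Matrix.one_mul]
    · have h2 : s' ≠ s := fun h => h0 (by rw [h])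
      rw [if_neg h0, if_neg h2, Matrix.zero_mul]

/-- Scaling. -/
lemma mono_smul (c : ℂ) (L : Lax α) {N : ℕ} (s' s : Fin N → Bool) :
    mono (fun a b => c • L a b) s' s = c ^ N • mono L s' s := by
  induction N with
  | zero => simp
  | succ N ih =>
    rw [mono_succ, ih, mono_succ, smul_mul_smul_comm, pow_succ']

theorem tm_smul (c : ℂ) (L : Lax α) (N : ℕ) : tm (fun a b => c • L a b) N = c ^ N • tm L N := by
  ext s' s
  unfold tm
  rw [mono_smul, trace_smul]
  rfl

/-- Local isometry implies global isometry. -/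
lemma sum_mono_conjTranspose_mul {L : Lax α}
    (h : ∀ b c, ∑ b', (L b' b)ᴴ * L b' c = if b = c then 1 else 0) {N : ℕ}
    (s t : Fin N → Bool) :
    ∑ s', (mono L s' s)ᴴ * mono L s' t = if s = t then 1 else 0 := by
  induction N with
  | zero =>
    have : s = t := Subsingleton.elim _ _
    simp [this]
  | succ N ih =>
    rw [sum_cons]
    have h1 : ∀ (b : Bool) (s' : Fin N → Bool),
        (mono L (Fin.cons b s' : Fin (N + 1) → Bool) s)ᴴ *
          mono L (Fin.cons b s' : Fin (N + 1) → Bool) t =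
        (mono L s' (Fin.tail s))ᴴ * ((L b (s 0))ᴴ * L b (t 0)) * mono L s' (Fin.tail t) := by
      intro b s'
      rw [mono_succ, mono_succ, conjTranspose_mul]
      simp only [Fin.cons_zero, Fin.tail_cons, Matrix.mul_assoc]
    simp_rw [h1]
    rw [Finset.sum_comm]
    simp_rw [← Finset.sum_mul, ← Finset.mul_sum, h]
    by_cases h0 : s 0 = t 0
    · simp only [h0, if_true, Matrix.mul_one]
      rw [ih]
      by_cases h2 : Fin.tail s = Fin.tail t
      · have h3 : s = t := by rw [← Fin.cons_self_tail s, ← Fin.cons_self_tail t, h0, h2]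
        rw [if_pos h2, if_pos h3]
      · have h3 : s ≠ t := fun h => h2 (by rw [h])
        rw [if_neg h2, if_neg h3]
    · have h3 : s ≠ t := fun h => h0 (by rw [h])
      simp [h0, h3]

end Pool.Agent.SixV
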