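import Pool.Agent.Lib.MP_6bd702_sv.Cross
import Pool.Agent.Lib.MP_6bd702_sv.Fusion

/-!
# Operator norms of transfer matrices of locally isometric families
-/

set_option autoImplicit false

namespace Pool.Agent.SixV

open Matrix Finset
open scoped Kronecker Matrix.Norms.L2Operator

variable {α : Type*} [Fintype α] [DecidableEq α]

lemma l2_opNorm_le_of {m n : Type*} [Fintype m] [Fintype n] [DecidableEq n] (A : Matrix m n ℂ)
    {K : ℝ} (hK : 0 ≤ K) (h : ∀ v : n → ℂ, ∑ i, ‖(A *ᵥ v) i‖ ^ 2 ≤ K ^ 2 * ∑ i, ‖v i‖ ^ 2) :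
    ‖A‖ ≤ K := by
  rw [l2_opNorm_def]
  refine ContinuousLinearMap.opNorm_le_bound _ hK fun v => ?_
  have h1 := h v.ofLp
  rw [EuclideanSpace.norm_eq, EuclideanSpace.norm_eq]
  refine (Real.sqrt_le_sqrt ?_).trans (le_of_eq ?_) (b := Real.sqrt (K ^ 2 * ∑ i, ‖v i‖ ^ 2))
  · exact h1
  · rw [Real.sqrt_mul (sq_nonneg K), Real.sqrt_sq hK]

/-- The diagonal block. -/
def dblock (L : Lax α) (N : ℕ) (x : α) : Matrix (Fin N → Bool) (Fin N → Bool) ℂ :=
  of fun s' s => mono L s' s x x

lemma tm_eq_sum_dblock (L : Lax α) (N : ℕ) : tm L N = ∑ x, dblock L N x := by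
  ext s' s
  rw [Matrix.sum_apply]
  rfl

lemma norm_dblock_le {L : Lax α}
    (h : ∀ b c, ∑ b', (L b' b)ᴴ * L b' c = if b = c then 1 else 0) (N : ℕ) (x : α) :
    ‖dblock L N x‖ ≤ 1 := by
  refine l2_opNorm_le_of _ zero_le_one fun v => ?_
  rw [one_pow, one_mul]
  have h1 : ∀ s', ‖(dblock L N x *ᵥ v) s'‖ ^ 2 ≤ ∑ x', ‖∑ s, mono L s' s x' x * v s‖ ^ 2 := by
    intro s'
    refine Finset.single_le_sum (f := fun x' => ‖∑ s, mono L s' s x' x * v s‖ ^ 2)
      (fun _ _ => by positivity) (Finset.mem_univ x)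
  refine (Finset.sum_le_sum fun s' _ => h1 s').trans (le_of_eq ?_)
  have h2 : ∀ z : ℂ, ((‖z‖ ^ 2 : ℝ) : ℂ) = star z * z := by
    intro z
    rw [Complex.star_def, Complex.conj_mul']
    push_cast
    rfl
  apply Complex.ofReal_injective
  rw [Complex.ofReal_sum, Complex.ofReal_sum]
  simp_rw [Complex.ofReal_sum, h2]
  have h3 : ∀ s' x', star (∑ s, mono L s' s x' x * v s) * (∑ s, mono L s' s x' x * v s) =
      ∑ s, ∑ t, star (v s) * v t * (star (mono L s' s x' x) * mono L s' t x' x) := by
    intro s' x'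
    rw [star_sum, Finset.sum_mul_sum]
    refine Finset.sum_congr rfl fun s _ => Finset.sum_congr rfl fun t _ => ?_
    rw [star_mul']
    ring
  simp_rw [h3]
  have h4 : ∀ s t, ∑ s', ∑ x', star (v s) * v t * (star (mono L s' s x' x) * mono L s' t x' x) =
      star (v s) * v t * (if s = t then 1 else 0) := by
    intro s t
    have h5 := congrFun (congrFun (sum_mono_conjTranspose_mul h s t) x) x
    rw [Matrix.sum_apply] at h5
    simp only [mul_apply, conjTranspose_apply] at h5
    simp_rw [← Finset.mul_sum, h5]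
    split_ifs <;> simp
  calc ∑ s', ∑ x', ∑ s, ∑ t, star (v s) * v t * (star (mono L s' s x' x) * mono L s' t x' x)
      = ∑ s, ∑ t, ∑ s', ∑ x', star (v s) * v t *
          (star (mono L s' s x' x) * mono L s' t x' x) := by
        have e1 : ∀ s', ∑ x', ∑ s, ∑ t, star (v s) * v t *
            (star (mono L s' s x' x) * mono L s' t x' x) =
            ∑ s, ∑ t, ∑ x', star (v s) * v t *
            (star (mono L s' s x' x) * mono L s' t x' x) := by
          intro s'
          rw [Finset.sum_comm]
          refine Finset.sum_congr rfl fun s _ => ?_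
          rw [Finset.sum_comm]
        simp_rw [e1]
        rw [Finset.sum_comm]
        refine Finset.sum_congr rfl fun s _ => ?_
        rw [Finset.sum_comm]
    _ = ∑ s, star (v s) * v s := by
        simp_rw [h4]
        refine Finset.sum_congr rfl fun s _ => ?_
        simp

theorem norm_tm_le {L : Lax α}
    (h : ∀ b c, ∑ b', (L b' b)ᴴ * L b' c = if b = c then 1 else 0) (N : ℕ) :
    ‖tm L N‖ ≤ Fintype.card α := by
  rw [tm_eq_sum_dblock]
  refine (norm_sum_le _ _).trans ((Finset.sum_le_sum fun x _ => norm_dblock_le h N x).trans ?_)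
  simp

lemma R_iso {a b c : ℂ} (ha : star a * a = 1) (hbc : star b * b + star c * c = 1)
    (h0 : star b * c + star c * b = 0) (s t : Bool) :
    ∑ s', (R a b c s' s)ᴴ * R a b c s' t = if s = t then 1 else 0 := by
  ext x y
  rw [Matrix.sum_apply, Fintype.sum_bool]
  simp only [mul_apply, Fintype.sum_bool, conjTranspose_apply]
  simp only [Complex.star_def] at ha hbc h0
  cases s <;> cases t <;> cases x <;> cases y <;> simp [R] <;>
    first
      | exact ha
      | linear_combination hbc
      | linear_combination h0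
      | skip

/-- The fused family in terms of `r = b / a`. -/
def Qr (b c r : ℂ) : Lax (Fin 3) := fun s' s =>
  match s', s with
  | false, false => !![-b, 0, 0; 0, -(r * b), 0; 0, 0, r]
  | true, true => !![r, 0, 0; 0, -(r * b), 0; 0, 0, -b]
  | false, true => !![0, 0, 0; -(r * c), 0, 0; 0, -(r * c), 0]
  | true, false => !![0, r * c, 0; 0, 0, r * c; 0, 0, 0]

lemma Q_eq_Qr (a b c : ℂ) : Q a b c = Qr b c (b / a) := by
  ext s' s i j
  unfold Q
  rw [Matrix.smul_apply, smul_eq_mul]
  cases s' <;> cases s <;> fin_cases i <;> fin_cases j <;> simp [Qt, Qr] <;> ring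

lemma Qr_iso {b c r : ℂ} (hb : star b * b = 1) (h1 : star r * r * (1 + star c * c) = 1)
    (h0 : star b * c + star c = 0) (s t : Bool) :
    ∑ s', (Qr b c r s' s)ᴴ * Qr b c r s' t = if s = t then 1 else 0 := by
  have h0' : b * star c + c = 0 := by
    have : star (star b * c + star c) = 0 := by rw [h0, star_zero]
    rwa [star_add, star_mul', star_star, star_star] at this
  ext x y
  rw [Matrix.sum_apply, Fintype.sum_bool]
  simp only [mul_apply, Fin.sum_univ_three, conjTranspose_apply]
  simp only [Complex.star_def] at hb h1 h0 h0'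
  cases s <;> cases t <;> fin_cases x <;> fin_cases y <;>
    simp [Qr, Matrix.one_apply] <;>
    first
      | linear_combination hb
      | linear_combination h1
      | linear_combination h1 + ((starRingEnd ℂ) r * r) * hb
      | linear_combination ((starRingEnd ℂ) r * r) * h0
      | linear_combination -((starRingEnd ℂ) r * r) * h0
      | linear_combination ((starRingEnd ℂ) r * r) * h0'
      | linear_combination -((starRingEnd ℂ) r * r) * h0'
      | skip

lemma Q_iso {a b c : ℂ} (ha : a ≠ 0) (hb : star b * b = 1)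
    (hac : star a * a = 1 + star c * c) (h0 : star b * c + star c = 0) (s t : Bool) :
    ∑ s', (Q a b c s' s)ᴴ * Q a b c s' t = if s = t then 1 else 0 := by
  have ha' : star a ≠ 0 := star_ne_zero.2 ha
  rw [Q_eq_Qr]
  refine Qr_iso hb ?_ h0 s t
  rw [star_div₀, ← hac]
  field_simp
  linear_combination hb

end Pool.Agent.SixV
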