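import Pool.Agent.Lib.MP_6bd702_sv.Commute

/-!
# The transfer matrix at `w = π/6` (percolation point)
-/

set_option autoImplicit false

namespace Pool.Agent.SixV

open Matrix Finset
open scoped Real ComplexConjugate

/-- The row weights of percolation (real, each face divided by `2`): straight vertices have
weight `1 / 2`, vertices with turning arrows have weight `√3 / 2`. -/
noncomputable def rw6 (s' s x' x : Bool) : ℝ :=
  if x' = x ∧ s' = s then 1 / 2 else if x' = s ∧ s' = x then √3 / 2 else 0

lemma sin_pi_six_complex : Complex.sin (π / 6) = 1 / 2 := by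
  have : Complex.sin (π / 6) = ((Real.sin (π / 6) : ℝ) : ℂ) := by
    rw [Complex.ofReal_sin]
    push_cast
    rfl
  rw [this, Real.sin_pi_div_six]
  push_cast
  rfl

lemma sin_pi_third_add_sixth : Complex.sin (π / 3 + π / 6) = 1 := by
  have : (π / 3 + π / 6 : ℂ) = π / 2 := by ring
  rw [this, Complex.sin_pi_div_two]

lemma wa_pi_six : wa (π / 6) = 1 / 2 := by
  unfold wa
  rw [sin_pi_third_add_sixth, div_one, ← sin_pi_six_complex]
  congr 1
  ring

lemma wb_pi_six : wb (π / 6) = 1 / 2 := by
  unfold wb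
  rw [sin_pi_third_add_sixth, div_one, sin_pi_six_complex]

lemma wc_pi_six : wc (π / 6) = ((√3 / 2 : ℝ) : ℂ) := by
  unfold wc
  rw [sin_pi_third_add_sixth, div_one, kap_eq]

lemma R_pi_six (s' s x' x : Bool) :
    R (wa (π / 6)) (wb (π / 6)) (wc (π / 6)) s' s x' x = ((rw6 s' s x' x : ℝ) : ℂ) := by
  rw [wa_pi_six, wb_pi_six, wc_pi_six]
  simp only [R, of_apply, rw6]
  split_ifs <;> push_cast <;> rfl

lemma mono_pi_six_succ {N : ℕ} (s' s : Fin (N + 1) → Bool) (x' x : Bool) :
    mono (R (wa (π / 6)) (wb (π / 6)) (wc (π / 6))) s' s x' x =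
      ∑ y, ((rw6 (s' 0) (s 0) x' y : ℝ) : ℂ) *
        mono (R (wa (π / 6)) (wb (π / 6)) (wc (π / 6))) (Fin.tail s') (Fin.tail s) y x := by
  rw [mono_succ, mul_apply]
  simp_rw [R_pi_six]

/-- `mono` as a sum over the horizontal arrows. -/
lemma mono_eq_sum {α : Type*} [Fintype α] [DecidableEq α] (L : Lax α) {N : ℕ}
    (s' s : Fin N → Bool) (x' x : α) :
    mono L s' s x' x = ∑ y : Fin (N + 1) → α, if y 0 = x' ∧ y (Fin.last N) = x then
      ∏ j : Fin N, L (s' j) (s j) (y j.castSucc) (y j.succ) else 0 := by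
  induction N generalizing x' with
  | zero =>
    rw [mono_zero, Matrix.one_apply, ← (Equiv.funUnique (Fin 1) α).symm.sum_comp]
    simp only [Equiv.funUnique_symm_apply, uniqueElim_const, Finset.univ_eq_empty,
      Finset.prod_empty]
    by_cases h : x' = x
    · subst h
      simp [Finset.sum_ite_eq']
    · rw [if_neg h]
      symm
      refine Finset.sum_eq_zero fun y _ => if_neg ?_
      rintro ⟨rfl, h2⟩
      exact h h2
  | succ N ih =>
    rw [mono_succ, mul_apply]
    simp_rw [ih]
    rw [← (Fin.consEquiv (fun _ : Fin (N + 2) => α)).sum_comp, Fintype.sum_prod_type]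
    simp only [Fin.consEquiv_apply, Fin.cons_zero, Fin.prod_univ_succ, Fin.castSucc_zero,
      Fin.cons_succ, ← Fin.succ_last, ← Fin.succ_castSucc]
    have hR : (∑ b : α, ∑ y : Fin (N + 1) → α, if b = x' ∧ y (Fin.last N) = x then
        L (s' 0) (s 0) b (y 0) * ∏ j : Fin N, L (s' j.succ) (s j.succ) (y j.castSucc) (y j.succ)
        else 0) = ∑ y : Fin (N + 1) → α, if y (Fin.last N) = x then
        L (s' 0) (s 0) x' (y 0) * ∏ j : Fin N, L (s' j.succ) (s j.succ) (y j.castSucc) (y j.succ)
        else 0 := by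
      rw [Finset.sum_eq_single x']
      · simp only [true_and]
      · intro b _ hb
        exact Finset.sum_eq_zero fun y _ => if_neg fun h => hb h.1
      · intro h
        exact absurd (Finset.mem_univ _) h
    refine Eq.trans ?_ hR.symm
    simp only [Finset.mul_sum]
    rw [Finset.sum_comm]
    refine Finset.sum_congr rfl fun y _ => ?_
    rw [Finset.sum_eq_single (y 0)]
    · by_cases h : y (Fin.last N) = x
      · simp only [h, and_true, if_true]
        rfl
      · simp only [h, and_false, if_false, mul_zero]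
    · intro b _ hb
      rw [if_neg (fun h => hb h.1.symm), mul_zero]
    · intro h
      exact absurd (Finset.mem_univ _) h

/-- The transfer matrix of a ring of `n + 1` sites as a sum over the horizontal arrows; the
arrow `y j` enters the site `j` from outside and `y (j + 1)` is shared with the next site. -/
theorem tm_eq_sum {α : Type*} [Fintype α] [DecidableEq α] (L : Lax α) {n : ℕ}
    (s' s : Fin (n + 1) → Bool) :
    tm L (n + 1) s' s = ∑ y : Fin (n + 1) → α,
      ∏ j : Fin (n + 1), L (s' j) (s j) (y j) (y (j + 1)) := by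
  unfold tm
  simp only [Matrix.trace, diag_apply]
  simp_rw [mono_eq_sum]
  rw [Finset.sum_comm]
  have h1 : ∀ y : Fin (n + 2) → α, (∑ x : α, if y 0 = x ∧ y (Fin.last (n + 1)) = x then
      ∏ j : Fin (n + 1), L (s' j) (s j) (y j.castSucc) (y j.succ) else 0) =
      if y (Fin.last (n + 1)) = y 0 then
        ∏ j : Fin (n + 1), L (s' j) (s j) (y j.castSucc) (y j.succ) else 0 := by
    intro y
    rw [Finset.sum_eq_single (y 0)]
    · simp
    · intro b _ hb
      exact if_neg fun h => hb h.1.symm
    · simp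
  simp_rw [h1]
  rw [← (Fin.snocEquiv (fun _ : Fin (n + 2) => α)).sum_comp, Fintype.sum_prod_type,
    Finset.sum_comm]
  refine Finset.sum_congr rfl fun y _ => ?_
  simp only [Fin.snocEquiv_apply, Fin.snoc_last]
  have h2 : ∀ x : α, (Fin.snoc y x : Fin (n + 2) → α) 0 = y 0 := by
    intro x
    have : (0 : Fin (n + 2)) = Fin.castSucc 0 := rfl
    rw [this, Fin.snoc_castSucc]
  simp_rw [h2]
  rw [Finset.sum_ite_eq' univ (y 0)]
  simp only [Finset.mem_univ, if_true, Fin.snoc_castSucc]
  refine Finset.prod_congr rfl fun j _ => ?_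
  congr 1
  refine Fin.lastCases ?_ (fun i => ?_) j
  · rw [Fin.succ_last, Fin.snoc_last, Fin.last_add_one]
  · rw [Fin.succ_castSucc, Fin.snoc_castSucc, Fin.coeSucc_eq_succ]

/-- The percolation transfer matrix. -/
theorem T_pi_six {n : ℕ} (s' s : Fin (n + 1) → Bool) :
    T (n + 1) (π / 6) s' s = ((∑ y : Fin (n + 1) → Bool,
      ∏ j : Fin (n + 1), rw6 (s' j) (s j) (y j) (y (j + 1)) : ℝ) : ℂ) := by
  unfold T
  rw [tm_eq_sum]
  push_cast
  simp_rw [R_pi_six]

end Pool.Agent.SixV
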