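import Pool.Agent.Lib.MP_6bd702_sv.Lax

/-!
# The six-vertex Lax family and its exact algebra

`R a b c` is the six-vertex Lax family with weights `a`, `b`, `c`.  In the stochastic
normalisation with `Δ = -1/2` one has `a + b = 1`, `c ^ 2 = 1 - a b`.
-/

set_option autoImplicit false

namespace Pool.Agent.SixV

open Matrix Finset
open scoped Kronecker

/-- The six-vertex Lax family: `R a b c s' s x' x` is the weight of the vertex with auxiliary
arrows `x` (in), `x'` (out) and quantum arrows `s` (in), `s'` (out). -/
def R (a b c : ℂ) : Lax Bool := fun s' s =>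
  of fun x' x => if x' = x ∧ s' = s then (if x = s then a else b)
    else if x' = s ∧ s' = x then c else 0

/-- The stochastic normalisation at `Δ = -1/2`. -/
structure Wt (a b c : ℂ) : Prop where
  add : a + b = 1
  sq : c ^ 2 = 1 - a * b

/-! ### Commutation -/

/-- The intertwiner of the Yang-Baxter equation. -/
def inter (p q r : ℂ) : Matrix (Bool × Bool) (Bool × Bool) ℂ :=
  of fun y x => if x.1 = x.2 then (if y = x then p else 0)
    else if y = (x.2, x.1) then q else if y = x then r else 0

/-- The Yang-Baxter equation. -/
theorem yang_baxter {a b c a' b' c' p q r : ℂ} (h1 : b * c' * p = b' * c * r + a * c' * q)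
    (h2 : a * b' * r - a' * b * r + c * c' * q = 0) (h3 : a * c' * r + b' * c * q = a' * c * p)
    (s' s : Bool) :
    inter p q r * comp (R a b c) (R a' b' c') s' s =
      comp (R a' b' c') (R a b c) s' s * inter p q r := by
  ext ⟨u, v⟩ ⟨x, y⟩
  rw [mul_apply, mul_apply, Fintype.sum_prod_type, Fintype.sum_prod_type]
  simp only [comp, Fintype.sum_bool, Matrix.add_apply, kroneckerMap_apply, inter, R, of_apply]
  cases s' <;> cases s <;> cases u <;> cases v <;> cases x <;> cases y <;>
    simp <;> first
      | ring1
      | linear_combination h1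
      | linear_combination h2
      | linear_combination h3
      | linear_combination -h1
      | linear_combination -h2
      | linear_combination -h3

theorem inter_mul (p q r p' q' r' : ℂ) :
    inter p q r * inter p' q' r' = inter (p * p') (q * r' + r * q') (r * r' + q * q') := by
  ext ⟨u, v⟩ ⟨x, y⟩
  rw [mul_apply, Fintype.sum_prod_type]
  simp only [Fintype.sum_bool, inter, of_apply]
  cases u <;> cases v <;> cases x <;> cases y <;> simp <;> ring

theorem inter_one : inter 1 0 1 = 1 := by
  ext ⟨u, v⟩ ⟨x, y⟩
  simp only [inter, of_apply]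
  cases u <;> cases v <;> cases x <;> cases y <;> simp [Matrix.one_apply]

/-- Two transfer matrices commute. -/
theorem tm_comm {a b c a' b' c' : ℂ} (w : Wt a b c) (w' : Wt a' b' c')
    (hp : 1 - a' * b ≠ 0) (hq : (c * c') ^ 2 - (a' - a) ^ 2 ≠ 0) (N : ℕ) :
    tm (R a b c) N * tm (R a' b' c') N = tm (R a' b' c') N * tm (R a b c) N := by
  rw [tm_mul, tm_mul]
  have hb : b = 1 - a := by linear_combination w.add
  have hb' : b' = 1 - a' := by linear_combination w'.add
  have hc : c * c = 1 - a * b := by linear_combination w.sq
  have hc' : c' * c' = 1 - a' * b' := by linear_combination w'.sq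
  refine tm_gauge (S := inter (1 - a' * b) (a' - a) (c * c'))
    (S' := inter (1 - a' * b)⁻¹ (-(a' - a) / ((c * c') ^ 2 - (a' - a) ^ 2))
      ((c * c') / ((c * c') ^ 2 - (a' - a) ^ 2))) ?_ ?_ (fun s' s => yang_baxter ?_ ?_ ?_ s' s) N
  · rw [inter_mul, ← inter_one]
    congr 1
    · exact inv_mul_cancel₀ hp
    · ring
    · rw [← div_self hq]
      ring
  · rw [inter_mul, ← inter_one]
    congr 1
    · exact mul_inv_cancel₀ hp
    · ring
    · rw [← div_self hq]
      ring
  · subst hb hb'
    linear_combination -c' * (1 - a') * hc
  · subst hb hb'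
    ring
  · subst hb hb'
    linear_combination a * c * hc'

end Pool.Agent.SixV
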