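import Pool.Agent.Lib.MP_6bd702_sv.Weights

/-!
# Phragmen-Lindelof for transfer matrices; the strip bounds
-/

set_option autoImplicit false

namespace Pool.Agent.SixV

open Matrix Finset
open scoped Real ComplexConjugate Matrix.Norms.L2Operator

variable {α : Type*} [Fintype α] [DecidableEq α]

lemma norm_single_le {m : Type*} [Fintype m] [DecidableEq m] (i j : m) (a : ℂ) :
    ‖(Matrix.single i j a : Matrix m m ℂ)‖ ≤ ‖a‖ := by
  refine l2_opNorm_le_of _ (norm_nonneg _) fun v => ?_
  have h : ∀ k, (Matrix.single i j a *ᵥ v) k = if k = i then a * v j else 0 := by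
    intro k
    rw [mulVec, dotProduct, Finset.sum_eq_single j]
    · by_cases hk : k = i
      · subst hk
        simp
      · have : i ≠ k := fun h => hk h.symm
        simp [hk, this]
    · intro b _ hb
      have : j ≠ b := fun h => hb h.symm
      simp [this]
    · simp
  simp_rw [h]
  have h2 : ∀ k, ‖if k = i then a * v j else 0‖ ^ 2 = if k = i then ‖a‖ ^ 2 * ‖v j‖ ^ 2 else 0 := by
    intro k
    split_ifs
    · rw [norm_mul, mul_pow]
    · simp
  simp_rw [h2]
  rw [Finset.sum_ite_eq' univ i]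
  simp only [Finset.mem_univ, if_true]
  refine mul_le_mul_of_nonneg_left ?_ (by positivity)
  exact Finset.single_le_sum (f := fun k => ‖v k‖ ^ 2) (fun _ _ => by positivity)
    (Finset.mem_univ j)

lemma l2_opNorm_le_sum {m : Type*} [Fintype m] [DecidableEq m] (A : Matrix m m ℂ) :
    ‖A‖ ≤ ∑ i, ∑ j, ‖A i j‖ := by
  conv_lhs => rw [matrix_eq_sum_single A]
  refine (norm_sum_le _ _).trans (Finset.sum_le_sum fun i _ => ?_)
  exact (norm_sum_le _ _).trans (Finset.sum_le_sum fun j _ => norm_single_le i j _)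

lemma norm_mono_le {L : Lax α} {M : ℝ} (hM : 0 ≤ M) (h : ∀ s' s x' x, ‖L s' s x' x‖ ≤ M) {N : ℕ}
    (s' s : Fin N → Bool) (x' x : α) :
    ‖mono L s' s x' x‖ ≤ (Fintype.card α * M) ^ N := by
  induction N generalizing x' with
  | zero =>
    rw [mono_zero, pow_zero, Matrix.one_apply]
    split_ifs <;> simp
  | succ N ih =>
    rw [mono_succ, mul_apply]
    refine (norm_sum_le _ _).trans ?_
    have h1 : ∀ y ∈ (univ : Finset α), ‖L (s' 0) (s 0) x' y *
        mono L (Fin.tail s') (Fin.tail s) y x‖ ≤ M * (Fintype.card α * M) ^ N := by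
      intro y _
      rw [norm_mul]
      exact mul_le_mul (h _ _ _ _) (ih _ _ _) (norm_nonneg _) hM
    refine (Finset.sum_le_sum h1).trans (le_of_eq ?_)
    rw [Finset.sum_const, nsmul_eq_mul, pow_succ, Finset.card_univ]
    ring

lemma norm_tm_le_pow {L : Lax α} {M : ℝ} (hM : 0 ≤ M) (h : ∀ s' s x' x, ‖L s' s x' x‖ ≤ M)
    (N : ℕ) :
    ‖tm L N‖ ≤ (2 ^ N * 2 ^ N * Fintype.card α) * (Fintype.card α * M) ^ N := by
  refine (l2_opNorm_le_sum _).trans ?_
  have h1 : ∀ s' s, ‖tm L N s' s‖ ≤ Fintype.card α * (Fintype.card α * M) ^ N := by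
    intro s' s
    unfold tm
    refine (norm_sum_le _ _).trans ((Finset.sum_le_sum fun x _ =>
      norm_mono_le hM h s' s x x).trans (le_of_eq ?_))
    rw [Finset.sum_const, nsmul_eq_mul, Finset.card_univ]
  refine (Finset.sum_le_sum fun s' _ => Finset.sum_le_sum fun s _ => h1 s' s).trans (le_of_eq ?_)
  rw [Finset.sum_const, Finset.sum_const, nsmul_eq_mul, nsmul_eq_mul, Finset.card_univ]
  simp only [Fintype.card_pi, Fintype.card_bool, Finset.prod_const, Finset.card_univ,
    Fintype.card_fin]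
  push_cast
  ring

lemma differentiableAt_mono {L : ℂ → Lax α} {w : ℂ}
    (h : ∀ s' s x' x, DifferentiableAt ℂ (fun w => L w s' s x' x) w) {N : ℕ}
    (s' s : Fin N → Bool) (x' x : α) :
    DifferentiableAt ℂ (fun w => mono (L w) s' s x' x) w := by
  induction N generalizing x' with
  | zero => exact differentiableAt_const _
  | succ N ih =>
    have : (fun w => mono (L w) s' s x' x) =
        fun w => ∑ y, L w (s' 0) (s 0) x' y * mono (L w) (Fin.tail s') (Fin.tail s) y x := by
      funext w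
      rw [mono_succ, mul_apply]
    rw [this]
    exact DifferentiableAt.fun_sum fun y _ => (h _ _ _ _).mul (ih _ _ _)

lemma differentiableAt_tm {L : ℂ → Lax α} {w : ℂ}
    (h : ∀ s' s x' x, DifferentiableAt ℂ (fun w => L w s' s x' x) w) {N : ℕ}
    (s' s : Fin N → Bool) :
    DifferentiableAt ℂ (fun w => tm (L w) N s' s) w := by
  have : (fun w => tm (L w) N s' s) = fun w => ∑ x, mono (L w) s' s x x := by
    funext w
    rfl
  rw [this]
  exact DifferentiableAt.fun_sum fun y _ => differentiableAt_mono h _ _ _ _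

lemma differentiableAt_matrix {m : Type*} [Fintype m] [DecidableEq m] {A : ℂ → Matrix m m ℂ}
    {w : ℂ} (h : ∀ i j, DifferentiableAt ℂ (fun w => A w i j) w) : DifferentiableAt ℂ A w := by
  have : A = fun w => ∑ i, ∑ j, (A w i j) • (Matrix.single i j 1 : Matrix m m ℂ) := by
    funext w
    conv_lhs => rw [matrix_eq_sum_single (A w)]
    simp
  rw [this]
  exact DifferentiableAt.fun_sum fun i _ => DifferentiableAt.fun_sum fun j _ =>
    (h i j).smul_const _

/-- Phragmen-Lindelof for transfer matrices. -/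
theorem strip_bound {L : ℂ → Lax α} {a b : ℝ} (hab : a < b) (hb : b - a < π) {m : ℕ} {M : ℝ}
    (hM : 0 ≤ M)
    (hd : ∀ w : ℂ, a ≤ w.re → w.re ≤ b → ∀ s' s x' x,
      DifferentiableAt ℂ (fun w => L w s' s x' x) w)
    (hg : ∀ w : ℂ, a ≤ w.re → w.re ≤ b → ∀ s' s x' x, ‖L w s' s x' x‖ ≤ M * Real.exp (m * |w.im|))
    (N : ℕ) {K : ℝ} (h1 : ∀ w : ℂ, w.re = a → ‖tm (L w) N‖ ≤ K)
    (h2 : ∀ w : ℂ, w.re = b → ‖tm (L w) N‖ ≤ K) {w : ℂ} (hwa : a ≤ w.re) (hwb : w.re ≤ b) :
    ‖tm (L w) N‖ ≤ K := by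
  have hD : ∀ w : ℂ, a ≤ w.re → w.re ≤ b → DifferentiableAt ℂ (fun w => tm (L w) N) w :=
    fun w ha hb => differentiableAt_matrix fun s' s => differentiableAt_tm (hd w ha hb) s' s
  refine PhragmenLindelof.vertical_strip (f := fun w => tm (L w) N) (a := a) (b := b) ?_ ?_ h1 h2
    hwa hwb
  · constructor
    · intro w hw
      exact (hD w hw.1.le hw.2.le).differentiableWithinAt
    · intro w hw
      rw [Complex.closure_preimage_re, closure_Ioo hab.ne] at hw
      exact (hD w hw.1 hw.2).continuousAt.continuousWithinAt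
  · refine ⟨1, ?_, (N * m : ℕ), ?_⟩
    · rw [lt_div_iff₀ (by linarith)]
      linarith
    · refine Asymptotics.IsBigO.of_bound
        ((2 ^ N * 2 ^ N * Fintype.card α) * (Fintype.card α * M) ^ N) ?_
      refine Filter.eventually_inf_principal.2 (Filter.Eventually.of_forall fun w hw => ?_)
      have h3 := norm_tm_le_pow (M := M * Real.exp (m * |w.im|)) (by positivity)
        (hg w hw.1.le hw.2.le) N
      refine h3.trans ?_
      rw [← mul_assoc (Fintype.card α : ℝ) M, mul_pow, ← Real.exp_nat_mul, Real.norm_eq_abs,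
        abs_of_pos (Real.exp_pos _), ← mul_assoc]
      refine mul_le_mul_of_nonneg_left (Real.exp_le_exp.2 ?_) (by positivity)
      have h4 : |w.im| ≤ Real.exp (1 * |w.im|) := by
        rw [one_mul]
        have := Real.add_one_le_exp |w.im|
        linarith
      push_cast
      rw [← mul_assoc]
      exact mul_le_mul_of_nonneg_left h4 (by positivity)

end Pool.Agent.SixV
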