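import Pool.Agent.Lib.MP_6bd702_sv.Norm

/-!
# The weights as functions of the spectral parameter
-/

set_option autoImplicit false

namespace Pool.Agent.SixV

open Matrix Finset
open scoped Real ComplexConjugate

/-- `sin (π / 3)`. -/
noncomputable def kap : ℂ := Complex.sin (π / 3)

/-- The weight `a`. -/
noncomputable def wa (w : ℂ) : ℂ := Complex.sin (π / 3 - w) / Complex.sin (π / 3 + w)

/-- The weight `b`. -/
noncomputable def wb (w : ℂ) : ℂ := Complex.sin w / Complex.sin (π / 3 + w)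

/-- The weight `c`. -/
noncomputable def wc (w : ℂ) : ℂ := kap / Complex.sin (π / 3 + w)

lemma kap_eq : kap = ((√3 / 2 : ℝ) : ℂ) := by
  unfold kap
  rw [← Real.sin_pi_div_three, Complex.ofReal_sin]
  push_cast
  rfl

lemma kap_sq : kap ^ 2 = 3 / 4 := by
  rw [kap_eq, ← Complex.ofReal_pow, div_pow, Real.sq_sqrt (by norm_num)]
  push_cast
  norm_num

lemma conj_kap : conj kap = kap := by
  rw [kap_eq, Complex.conj_ofReal]

lemma cos_pi_div_three : Complex.cos (π / 3) = 1 / 2 := by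
  have : Complex.cos (π / 3) = ((Real.cos (π / 3) : ℝ) : ℂ) := by
    rw [Complex.ofReal_cos]
    push_cast
    rfl
  rw [this, Real.cos_pi_div_three]
  push_cast
  rfl

lemma sin_add' (w : ℂ) : Complex.sin (π / 3 + w) = kap * Complex.cos w + Complex.sin w / 2 := by
  rw [Complex.sin_add, cos_pi_div_three]
  unfold kap
  ring

lemma sin_sub' (w : ℂ) : Complex.sin (π / 3 - w) = kap * Complex.cos w - Complex.sin w / 2 := by
  rw [Complex.sin_sub, cos_pi_div_three]
  unfold kap
  ring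

lemma sin_shift (w : ℂ) : Complex.sin (π / 3 + (w + π / 3)) = Complex.sin (π / 3 - w) := by
  rw [← Complex.sin_pi_sub]
  congr 1
  ring

lemma sin_cross (w : ℂ) : Complex.sin (π / 3 + (π / 3 - w)) = Complex.sin (π / 3 + w) := by
  rw [← Complex.sin_pi_sub]
  congr 1
  ring

lemma wt_w {w : ℂ} (hw : Complex.sin (π / 3 + w) ≠ 0) : Wt (wa w) (wb w) (wc w) where
  add := by
    unfold wa wb
    rw [← add_div, div_eq_one_iff_eq hw, sin_add', sin_sub']
    ring
  sq := by
    unfold wa wb wc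
    rw [div_pow, div_mul_div_comm, eq_sub_iff_add_eq, ← sq, ← add_div,
      div_eq_one_iff_eq (pow_ne_zero 2 hw), sin_add', sin_sub', kap_sq]
    linear_combination (3 / 4 : ℂ) * (-Complex.sin_sq_add_cos_sq w) -
      (Complex.cos w) ^ 2 * (kap_sq)

lemma wa_cross (w : ℂ) : wa (π / 3 - w) = wb w := by
  unfold wa wb
  rw [sin_cross]
  congr 2
  ring

lemma wb_cross (w : ℂ) : wb (π / 3 - w) = wa w := by
  unfold wa wb
  rw [sin_cross]

lemma wc_cross (w : ℂ) : wc (π / 3 - w) = wc w := by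
  unfold wc
  rw [sin_cross]

lemma wa_shift {w : ℂ} (h1 : Complex.sin (π / 3 + w) ≠ 0) (h2 : Complex.sin (π / 3 - w) ≠ 0) :
    wa (w + π / 3) = -wb w / wa w := by
  unfold wa wb
  rw [sin_shift]
  have : Complex.sin (π / 3 - (w + π / 3)) = -Complex.sin w := by
    rw [← Complex.sin_neg]
    congr 1
    ring
  rw [this]
  generalize Complex.sin (π / 3 + w) = p at *
  generalize Complex.sin (π / 3 - w) = q at *
  field_simp

lemma wb_shift {w : ℂ} (h2 : Complex.sin (π / 3 - w) ≠ 0) :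
    wb (w + π / 3) = 1 / wa w := by
  unfold wa wb
  rw [sin_shift, add_comm w, one_div_div]

lemma wc_shift {w : ℂ} (h1 : Complex.sin (π / 3 + w) ≠ 0) (h2 : Complex.sin (π / 3 - w) ≠ 0) :
    wc (w + π / 3) = wc w / wa w := by
  unfold wa wc
  rw [sin_shift]
  generalize Complex.sin (π / 3 + w) = p at *
  generalize Complex.sin (π / 3 - w) = q at *
  field_simp

lemma conj_sin (w : ℂ) : conj (Complex.sin w) = Complex.sin (conj w) := (Complex.sin_conj w).symm

lemma conj_pi : conj (π / 3 : ℂ) = π / 3 := by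
  rw [map_div₀, Complex.conj_ofReal]
  congr 1
  exact Complex.conj_ofNat 3

lemma conj_wa (w : ℂ) : conj (wa w) = wa (conj w) := by
  unfold wa
  rw [map_div₀, conj_sin, conj_sin, map_sub, map_add, conj_pi]

lemma conj_wb (w : ℂ) : conj (wb w) = wb (conj w) := by
  unfold wb
  rw [map_div₀, conj_sin, conj_sin, map_add, conj_pi]

lemma conj_wc (w : ℂ) : conj (wc w) = wc (conj w) := by
  unfold wc
  rw [map_div₀, conj_kap, conj_sin, map_add, conj_pi]

/-! ### The transfer matrix -/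

/-- The transfer matrix with spectral parameter `w`. -/
noncomputable def T (N : ℕ) (w : ℂ) : Matrix (Fin N → Bool) (Fin N → Bool) ℂ :=
  tm (R (wa w) (wb w) (wc w)) N

theorem T_transpose (N : ℕ) (w : ℂ) : (T N w)ᵀ = T N (π / 3 - w) := by
  unfold T
  rw [tm_R_transpose, wa_cross, wb_cross, wc_cross]

theorem T_conjTranspose (N : ℕ) (w : ℂ) : (T N w)ᴴ = T N (π / 3 - conj w) := by
  unfold T
  rw [tm_R_conjTranspose, wa_cross, wb_cross, wc_cross, ← conj_wa, ← conj_wb, ← conj_wc]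
  rfl

theorem T_zero {n : ℕ} (s' s : Fin (n + 1) → Bool) :
    T (n + 1) 0 s' s = if s' = fun j => s (j + 1) then 1 else 0 := by
  have h : Complex.sin (π / 3) ≠ 0 := by
    intro h
    have := kap_sq
    unfold kap at this
    rw [h] at this
    norm_num at this
  unfold T
  have ea : wa 0 = 1 := by
    unfold wa
    rw [sub_zero, add_zero, div_self h]
  have eb : wb 0 = 0 := by
    unfold wb
    rw [Complex.sin_zero, zero_div]
  have ec : wc 0 = 1 := by
    unfold wc kap
    rw [add_zero, div_self h]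
  rw [ea, eb, ec, tm_R_shift]

/-- The fused transfer matrix. -/
noncomputable def Y (N : ℕ) (w : ℂ) : Matrix (Fin N → Bool) (Fin N → Bool) ℂ :=
  wb w ^ N • tm (Qt (wa w) (wb w) (wc w)) N

theorem T_fusion (N : ℕ) {w : ℂ} (h1 : Complex.sin (π / 3 + w) ≠ 0)
    (h2 : Complex.sin (π / 3 - w) ≠ 0) : T N w * T N (w + π / 3) = 1 + Y N w := by
  unfold T Y
  rw [wa_shift h1 h2, wb_shift h2, wc_shift h1 h2]
  exact tm_fusion (wt_w h1) (div_ne_zero h2 h1) N

/-! ### Bounds for the sine -/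

lemma norm_sin_ge (z : ℂ) : |Real.sin z.re| ≤ ‖Complex.sin z‖ := by
  have h1 : (Complex.sin z).re = Real.sin z.re * Real.cosh z.im := by
    rw [Complex.sin_eq z]
    simp [← Complex.ofReal_sin, ← Complex.ofReal_cos, ← Complex.ofReal_cosh,
      ← Complex.ofReal_sinh]
  refine le_trans ?_ (Complex.abs_re_le_norm _)
  rw [h1, abs_mul]
  have h2 : 1 ≤ |Real.cosh z.im| := (Real.one_le_cosh _).trans (le_abs_self _)
  nlinarith [abs_nonneg (Real.sin z.re)]

lemma norm_sin_le (z : ℂ) : ‖Complex.sin z‖ ≤ Real.exp |z.im| := by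
  unfold Complex.sin
  rw [norm_div, norm_mul, Complex.norm_I, mul_one, Complex.norm_two]
  have h1 : ‖Complex.exp (-z * Complex.I)‖ ≤ Real.exp |z.im| := by
    rw [Complex.norm_exp]
    refine Real.exp_le_exp.2 ?_
    simp
    exact le_abs_self _
  have h2 : ‖Complex.exp (z * Complex.I)‖ ≤ Real.exp |z.im| := by
    rw [Complex.norm_exp]
    refine Real.exp_le_exp.2 ?_
    simp
    exact neg_le_abs _
  have := norm_sub_le (Complex.exp (-z * Complex.I)) (Complex.exp (z * Complex.I))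
  linarith

lemma norm_cos_le (z : ℂ) : ‖Complex.cos z‖ ≤ Real.exp |z.im| := by
  rw [← Complex.sin_add_pi_div_two]
  refine (norm_sin_le _).trans (le_of_eq ?_)
  congr 2
  have : ((π : ℂ) / 2).im = 0 := by
    rw [show ((π : ℂ) / 2) = ((π / 2 : ℝ) : ℂ) by push_cast; rfl, Complex.ofReal_im]
  rw [Complex.add_im, this, add_zero]

lemma half_le_norm_sin {z : ℂ} (h1 : π / 6 ≤ z.re) (h2 : z.re ≤ 5 * π / 6) :
    1 / 2 ≤ ‖Complex.sin z‖ := by
  refine le_trans ?_ (norm_sin_ge z)
  refine le_trans ?_ (le_abs_self _)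
  rw [← Real.sin_pi_div_six]
  have hp := Real.pi_pos
  rcases le_total z.re (π / 2) with h | h
  · exact Real.sin_le_sin_of_le_of_le_pi_div_two (by linarith) h h1
  · rw [← Real.sin_pi_sub z.re]
    exact Real.sin_le_sin_of_le_of_le_pi_div_two (by linarith) (by linarith) (by linarith)

lemma sin_ne_zero_of_re {z : ℂ} (h1 : π / 6 ≤ z.re) (h2 : z.re ≤ 5 * π / 6) :
    Complex.sin z ≠ 0 := by
  intro h
  have := half_le_norm_sin h1 h2
  rw [h, norm_zero] at this
  norm_num at this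

lemma re_pi_add (w : ℂ) : ((π : ℂ) / 3 + w).re = π / 3 + w.re := by
  rw [show ((π : ℂ) / 3) = ((π / 3 : ℝ) : ℂ) by push_cast; rfl, Complex.add_re, Complex.ofReal_re]

lemma re_pi_sub (w : ℂ) : ((π : ℂ) / 3 - w).re = π / 3 - w.re := by
  rw [show ((π : ℂ) / 3) = ((π / 3 : ℝ) : ℂ) by push_cast; rfl, Complex.sub_re, Complex.ofReal_re]

lemma im_pi_add (w : ℂ) : ((π : ℂ) / 3 + w).im = w.im := by
  rw [show ((π : ℂ) / 3) = ((π / 3 : ℝ) : ℂ) by push_cast; rfl, Complex.add_im, Complex.ofReal_im,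
    zero_add]

lemma im_pi_sub (w : ℂ) : ((π : ℂ) / 3 - w).im = -w.im := by
  rw [show ((π : ℂ) / 3) = ((π / 3 : ℝ) : ℂ) by push_cast; rfl, Complex.sub_im, Complex.ofReal_im,
    zero_sub]

end Pool.Agent.SixV
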